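import Pool.Agent.N115.JS.RMap
import Pool.Agent.N115.AN.Top

/-!
The reduced maps of a multi-valued map.
-/

set_option autoImplicit false
set_option linter.unusedSectionVars false

open FF Pool.Agent.W603.LV Pool.Agent.Y190.BV Polynomial

namespace Pool.Agent.N115.JS

open Pool.Agent.W602.GT (GeneralType Ruled coords essFinite)
open Pool.Agent.N115.AN (Free)
open Pool.Agent.N115.JT

theorem coords_le {k F : Type} [Field k] [Field F] [Algebra k F] {M : ℕ} (z : Fin (M + 1) → F)
    (B : IntermediateField k F) (h : ∀ i j, z j ≠ 0 → z i / z j ∈ B) : coords k z ≤ B := by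
  unfold Pool.Agent.W602.GT.coords
  rw [IntermediateField.adjoin_le_iff]
  rintro _ ⟨i, j, hj, rfl⟩
  exact h i j hj

/-- the reduction, over the field of the ratios of the coordinates -/
theorem reduce_map {k E : Type} [Field k] [Field E] [Algebra k E] [CharZero k] [IsAlgClosed k]
    {m n N : ℕ} (hm : 2 ≤ m) (hn : n ≤ N) (hN1 : 1 ≤ N) {a : Fin (N + 1) → k}
    (ha : Function.Injective a) {y : Fin (N + 1) → E} (hy0 : y ≠ 0) {H : E[X]}
    (hdeg : H.natDegree ≤ n) (hval : ∀ i, y i ^ m = H.eval (algebraMap k E (a i)))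
    (hfac : ∀ q : E[X], 2 ≤ q.natDegree → ¬ q ^ m ∣ H) (hnr : ¬ Ruled k (coords k y)) :
    ∃ (s : Shape N) (z : Fin (s.N1 + 1) → coords k y) (H1 : (coords k y)[X]), s.m = m ∧
      Function.Injective s.c ∧ s.n1 + (N - s.N1) ≤ n ∧ s.n1 ≤ s.N1 ∧ z s.j0 = 1 ∧ H1 ≠ 0 ∧
      H1.natDegree ≤ s.n1 ∧
      (∀ j, z j ^ m = H1.eval (algebraMap k (coords k y) (a (s.c j)))) ∧
      (∀ p : (coords k y)[X], Irreducible p → ¬ p ^ m ∣ H1) ∧
      Algebra.IsAlgebraic (IntermediateField.adjoin k (Set.range z)) (coords k y) := by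
  classical
  obtain ⟨i1, hi1⟩ : ∃ i1, y i1 ≠ 0 := Function.ne_iff.1 hy0
  have hmemK0 : ∀ i j, y j ≠ 0 → y i / y j ∈ coords k y := fun i j hj =>
    IntermediateField.subset_adjoin k _ ⟨i, j, hj, rfl⟩
  let y' : Fin (N + 1) → coords k y := fun i => ⟨y i / y i1, hmemK0 i i1 hi1⟩
  have hc0 : (y i1 ^ m)⁻¹ ≠ 0 := inv_ne_zero (pow_ne_zero _ hi1)
  have hev : ∀ i, ((y' i : coords k y) : E) ^ m =
      (C (y i1 ^ m)⁻¹ * H).eval (algebraMap k E (a i)) := by
    intro i
    rw [eval_mul, eval_C, ← hval i]
    change (y i / y i1) ^ m = _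
    rw [div_pow, div_eq_mul_inv, mul_comm]
  obtain ⟨H0, hH0⟩ := descend (coords k y) hn ha y' (H := C (y i1 ^ m)⁻¹ * H)
    (by rw [natDegree_C_mul hc0]; exact hdeg) hev
  have hH0deg : H0.natDegree ≤ n := by
    rw [← natDegree_map (algebraMap (coords k y) E), hH0, natDegree_C_mul hc0]
    exact hdeg
  have hval0 : ∀ i, y' i ^ m = H0.eval (algebraMap k (coords k y) (a i)) := by
    intro i
    apply Subtype.ext
    rw [SubmonoidClass.coe_pow, hev i, ← hH0]
    rw [IsScalarTower.algebraMap_apply k (coords k y) E, eval_map_algebraMap,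
      aeval_algebraMap_apply_eq_algebraMap_eval]
    rfl
  have hfac0 : ∀ q : (coords k y)[X], 2 ≤ q.natDegree → ¬ q ^ m ∣ H0 := by
    intro q hq hd
    have h2 := Polynomial.map_dvd (algebraMap (coords k y) E) hd
    rw [Polynomial.map_pow, hH0] at h2
    exact hfac (q.map (algebraMap (coords k y) E)) (by rwa [natDegree_map])
      (((isUnit_C.2 (IsUnit.mk0 _ hc0)).dvd_mul_left).1 h2)
  have hy'0 : y' ≠ 0 := by
    intro h
    have h1 := congrArg Subtype.val (congrFun h i1)
    change y i1 / y i1 = 0 at h1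
    rw [div_self hi1] at h1
    exact one_ne_zero h1
  have hgen : coords k y' = ⊤ := by
    have e1 : (coords k y').map (coords k y).val = IntermediateField.adjoin k
        ((coords k y).val '' {x | ∃ i j, y' j ≠ 0 ∧ x = y' i / y' j}) := by
      change (IntermediateField.adjoin k _).map (coords k y).val = _
      rw [IntermediateField.adjoin_map]
    have e2 : (coords k y).val '' {x | ∃ i j, y' j ≠ 0 ∧ x = y' i / y' j} =
        {x | ∃ i j, y j ≠ 0 ∧ x = y i / y j} := by
      ext x
      constructor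
      · rintro ⟨_, ⟨i, j, hj, rfl⟩, rfl⟩
        have hj' : y j ≠ 0 := by
          rintro h
          apply hj
          apply Subtype.ext
          change y j / y i1 = 0
          rw [h, zero_div]
        refine ⟨i, j, hj', ?_⟩
        change (y i / y i1) / (y j / y i1) = _
        rw [div_div_div_cancel_right₀ hi1]
      · rintro ⟨i, j, hj, rfl⟩
        refine ⟨y' i / y' j, ⟨i, j, ?_, rfl⟩, ?_⟩
        · intro h
          have h1 := congrArg Subtype.val h
          change y j / y i1 = 0 at h1
          rw [div_eq_zero_iff] at h1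
          exact h1.elim hj hi1
        · change (y i / y i1) / (y j / y i1) = _
          rw [div_div_div_cancel_right₀ hi1]
    have h1 : (coords k y').map (coords k y).val = coords k y := by
      rw [e1, e2]
      rfl
    apply le_antisymm le_top
    intro x _
    have h2 : (x : E) ∈ (coords k y').map (coords k y).val := by
      rw [h1]
      exact x.2
    obtain ⟨x', hx', hxx⟩ := h2
    have h3 : x' = x := Subtype.ext hxx
    rw [← h3]
    exact hx'
  obtain ⟨N1, n1, c, H1, z, hc, hfree, hcase⟩ := (reduce_nodes hm hn hN1 ha hy'0 hgen hH0deg hval0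
    hfac0).resolve_right hnr
  have hNN : N1 ≤ N ∧ n1 + (N - N1) ≤ n ∧ n1 ≤ N1 := by
    rcases hcase with ⟨rfl, rfl⟩ | ⟨h1, h2⟩
    · omega
    · omega
  obtain ⟨j0, hj0⟩ := hfree.exists_ne (by omega : 1 ≤ m) hNN.2.2
  have hd0 : (z j0 ^ m)⁻¹ ≠ 0 := inv_ne_zero (pow_ne_zero _ hj0)
  refine ⟨⟨m, N1, n1, c, j0⟩, fun j => z j / z j0, C (z j0 ^ m)⁻¹ * H1, rfl, hc, hNN.2.1,
    hNN.2.2, div_self hj0, mul_ne_zero (C_ne_zero.2 hd0) hfree.ne, ?_, fun j => ?_,
    fun p hp hd => ?_, ?_⟩
  · rw [natDegree_C_mul hd0]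
    exact hfree.deg
  · rw [eval_mul, eval_C, ← hfree.val j, div_pow, div_eq_mul_inv, mul_comm]
  · exact hfree.free p hp (((isUnit_C.2 (IsUnit.mk0 _ hd0)).dvd_mul_left).1 hd)
  · have h1 : coords k z ≤ IntermediateField.adjoin k (Set.range fun j => z j / z j0) := by
      refine coords_le z _ fun i j hj => ?_
      have e : z i / z j = (z i / z j0) / (z j / z j0) := by
        rw [div_div_div_cancel_right₀ hj0]
      rw [e]
      exact (IntermediateField.adjoin k (Set.range fun j => z j / z j0)).div_mem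
        (IntermediateField.subset_adjoin k _ ⟨i, rfl⟩)
        (IntermediateField.subset_adjoin k _ ⟨j, rfl⟩)
    have halg : Algebra.IsAlgebraic (coords k z) (coords k y) := hfree.alg
    let _ : Algebra (coords k z) (IntermediateField.adjoin k (Set.range fun j => z j / z j0)) :=
      (IntermediateField.inclusion h1).toRingHom.toAlgebra
    have t1 : IsScalarTower (coords k z)
        (IntermediateField.adjoin k (Set.range fun j => z j / z j0)) (coords k y) :=
      IsScalarTower.of_algebraMap_eq fun x => rfl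
    exact Algebra.IsAlgebraic.extendScalars (R := coords k z)
      (IntermediateField.inclusion h1).toRingHom.injective

/-- **The reduced maps of a multi-valued map**, over the base field. -/
theorem exists_isR {k L : Type} [Field k] [Field L] [Algebra k L] [CharZero k] [IsAlgClosed k]
    {N n r : ℕ} (hn : n ≤ N) (hN1 : 1 ≤ N) {a : Fin (N + 1) → k} (ha : Function.Injective a)
    (f : MultiMap k L a n r) (L0 : IntermediateField k L)
    (hcl : ∀ x : L, IsAlgebraic L0 x → x ∈ L0)
    (halg : ∀ i j, f.y j ≠ 0 → IsAlgebraic L0 (f.y i / f.y j))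
    (σ : f.E →ₐ[L] AlgebraicClosure L) :
    ∃ (s : Shape N) (z : Fin (s.N1 + 1) → AlgebraicClosure L) (H : Polynomial (AlgebraicClosure L)),
      IsR (K := L0) a n r s z H ∧ (∀ j, z j ∈ IntermediateField.adjoin k f.values) ∧
      ∀ i j, f.y j ≠ 0 →
        IsAlgebraic (IntermediateField.adjoin k (Set.range z)) (σ (f.y i / f.y j)) := by
  classical
  obtain ⟨s, z, H1, hsm, hc, hb, hle, hone, hne, hdeg, hval, hfree, hal⟩ := reduce_map f.two_le hn
    hN1 ha f.ne f.deg f.val f.fac f.not_ruled
  let Ω : Type := AlgebraicClosure L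
  -- the field over `L0`
  set S : Set f.E := {x | ∃ i j, f.y j ≠ 0 ∧ x = f.y i / f.y j} with hS
  have hSfin : S.Finite := by
    refine (Set.finite_range fun p : Fin (N + 1) × Fin (N + 1) => f.y p.1 / f.y p.2).subset ?_
    rintro _ ⟨i, j, _, rfl⟩
    exact ⟨(i, j), rfl⟩
  obtain ⟨hfd, hfrk⟩ := Pool.Agent.N530.JT.dd k L f.E L0 hcl S hSfin (by
    rintro _ ⟨i, j, hj, rfl⟩
    exact halg i j hj)
  set E0 : IntermediateField L0 f.E := IntermediateField.adjoin L0 S with hE0
  have hKE : (coords k f.y) ≤ E0.restrictScalars k := by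
    unfold Pool.Agent.W602.GT.coords
    rw [IntermediateField.adjoin_le_iff]
    rintro _ ⟨i, j, hj, rfl⟩
    exact IntermediateField.subset_adjoin L0 _ ⟨i, j, hj, rfl⟩
  let φ : (coords k f.y) →ₐ[k] Ω := (σ.restrictScalars k).comp (coords k f.y).val
  let _ : Algebra (coords k f.y) Ω := φ.toRingHom.toAlgebra
  have tK : IsScalarTower k (coords k f.y) Ω := IsScalarTower.of_algebraMap_eq fun x => (φ.commutes x).symm
  have hch0 : CharZero (coords k f.y) := charZero_of_injective_algebraMap (algebraMap k (coords k f.y)).injective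
  let τ : f.E →ₐ[L0] Ω := σ.restrictScalars L0
  have hle0 : IntermediateField.adjoin L0 (Set.range fun j => φ (z j)) ≤ E0.map τ := by
    rw [IntermediateField.adjoin_le_iff]
    rintro _ ⟨j, rfl⟩
    exact ⟨z j, hKE (z j).2, rfl⟩
  let e : E0 ≃ₗ[L0] E0.map τ := (E0.equivMap τ).toLinearEquiv
  have hfd2 : FiniteDimensional L0 (E0.map τ) := LinearEquiv.finiteDimensional e
  have hfr2 : Module.finrank L0 (E0.map τ) ≤ r := by
    rw [← LinearEquiv.finrank_eq e]
    exact hfrk.trans f.degree_le
  refine ⟨s, fun j => φ (z j), H1.map (algebraMap (coords k f.y) Ω), ⟨by rw [hsm]; exact f.two_le, hc, hb, hle,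
    by rw [hone, map_one], (Polynomial.map_ne_zero_iff (algebraMap (coords k f.y) Ω).injective).2 hne,
    natDegree_map_le.trans hdeg, fun j => ?_, fun p hp hd => ?_, ?_, ?_⟩, fun j => ?_, ?_⟩
  · rw [← map_pow, hsm, hval j, IsScalarTower.algebraMap_apply k (coords k f.y) Ω, eval_map_algebraMap,
      aeval_algebraMap_apply_eq_algebraMap_eval]
    rfl
  · rw [hsm] at hd
    obtain ⟨p0, h1, h2⟩ := Pool.Agent.N115.IM.exists_down hne
      (by have := f.two_le; omega : 1 ≤ f.m) hp hd
    exact hfree p0 h1 h2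
  · exact FiniteDimensional.of_injective (IntermediateField.inclusion hle0).toLinearMap
      (IntermediateField.inclusion hle0).injective
  · exact (LinearMap.finrank_le_finrank_of_injective
      (f := (IntermediateField.inclusion hle0).toLinearMap)
      (IntermediateField.inclusion hle0).injective).trans hfr2
  · have h1 : (coords k f.y) ≤ (IntermediateField.adjoin k f.values).comap (σ.restrictScalars k) := by
      unfold Pool.Agent.W602.GT.coords
      rw [IntermediateField.adjoin_le_iff]
      rintro _ ⟨i', j', hj, rfl⟩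
      exact IntermediateField.subset_adjoin k _ ⟨σ, i', j', hj, rfl⟩
    exact h1 (z j).2
  · intro i j hj
    have h1 : ∀ x ∈ IntermediateField.adjoin k (Set.range z),
        IsAlgebraic (IntermediateField.adjoin k (Set.range fun j => φ (z j))) (φ x) := by
      intro x hx
      have h2 : φ x ∈ (IntermediateField.adjoin k (Set.range z)).map φ := ⟨x, hx, rfl⟩
      rw [IntermediateField.adjoin_map, ← Set.range_comp] at h2
      exact isAlgebraic_algebraMap
        (⟨φ x, h2⟩ : IntermediateField.adjoin k (Set.range fun j => φ (z j)))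
    exact alg_image (IntermediateField.adjoin k (Set.range z)) φ _ h1
      ⟨f.y i / f.y j, IntermediateField.subset_adjoin k _ ⟨i, j, hj, rfl⟩⟩

end Pool.Agent.N115.JS
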