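import Pool.Agent.N115.JS.Main

/-!
The fibration which is defined by a family of multi-valued rational maps to the varieties of the
vectors whose powers are the values of a polynomial: arbitrary maps.
-/

set_option autoImplicit false
set_option linter.unusedSectionVars false

open FF Pool.Agent.W603.LV Pool.Agent.Y190.BV Polynomial

namespace Pool.Agent.N115.JS

open Pool.Agent.W602.GT (GeneralType coords)
open Pool.Agent.TH466.QG (StronglyGeneral)
open Pool.Agent.N115.JT (trans_alg adjoin_alg comb map_dat Dat)

/-- A multi-valued rational map, with at most `r` values, from the variety with function field `L`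
to one of the varieties `X_m ⊆ P^N`, `m ≥ 2`, of the points `x` for which there is a polynomial of
degree at most `n` whose values at the `a i` are the `x i ^ m`: a finite extension `E` of `L` of
degree at most `r` and a point `y` of `X_m` over `E`; its polynomial is written as `q ^ m * H`, where
`H` is not divisible by the `m`-th power of a nonconstant polynomial (this is always possible). -/
structure Corr (k L : Type) [Field k] [Field L] [Algebra k L] {N : ℕ} (a : Fin (N + 1) → k)
    (n r : ℕ) where
  m : ℕ
  two_le : 2 ≤ m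
  E : Type
  [field : Field E]
  [algk : Algebra k E]
  [algL : Algebra L E]
  [tower : IsScalarTower k L E]
  [fin : FiniteDimensional L E]
  degree_le : Module.finrank L E ≤ r
  y : Fin (N + 1) → E
  q : Polynomial E
  H : Polynomial E
  ne : y ≠ 0
  deg : (q ^ m * H).natDegree ≤ n
  val : ∀ i, y i ^ m = (q ^ m * H).eval (algebraMap k E (a i))
  free : ∀ p : Polynomial E, Irreducible p → ¬ p ^ m ∣ H

attribute [instance] Corr.field Corr.algk Corr.algL Corr.tower Corr.fin

variable {k L : Type} [Field k] [Field L] [Algebra k L] {N n r : ℕ} {a : Fin (N + 1) → k}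

/-- The reduced map: the `y i / q (a i)` (`0` if `q (a i) = 0`). -/
noncomputable def Corr.red (f : Corr k L a n r) : Fin (N + 1) → f.E :=
  fun i => f.y i / f.q.eval (algebraMap k f.E (a i))

/-- The values of the reduced map: the conjugates over `L` of the ratios of its coordinates. -/
def Corr.values (f : Corr k L a n r) : Set (AlgebraicClosure L) :=
  {v | ∃ (σ : f.E →ₐ[L] AlgebraicClosure L) (i j : Fin (N + 1)), f.red j ≠ 0 ∧
    v = σ (f.red i / f.red j)}

theorem Corr.q_ne (f : Corr k L a n r) : f.q ≠ 0 := by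
  intro h
  apply f.ne
  funext i
  have h1 := f.val i
  rw [h, zero_pow (by have := f.two_le; omega), zero_mul, eval_zero] at h1
  exact eq_zero_of_pow_eq_zero h1

theorem Corr.H_ne (f : Corr k L a n r) : f.H ≠ 0 := by
  intro h
  apply f.ne
  funext i
  have h1 := f.val i
  rw [h, mul_zero, eval_zero] at h1
  exact eq_zero_of_pow_eq_zero h1

theorem Corr.eval_ne (f : Corr k L a n r) {i : Fin (N + 1)} (hi : f.y i ≠ 0) :
    f.q.eval (algebraMap k f.E (a i)) ≠ 0 := by
  intro h
  apply hi
  have h1 := f.val i
  rw [eval_mul, eval_pow, h, zero_pow (by have := f.two_le; omega), zero_mul] at h1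
  exact eq_zero_of_pow_eq_zero h1

theorem Corr.red_pow (f : Corr k L a n r) {i : Fin (N + 1)}
    (hi : f.q.eval (algebraMap k f.E (a i)) ≠ 0) :
    f.red i ^ f.m = f.H.eval (algebraMap k f.E (a i)) := by
  unfold Corr.red
  rw [div_pow, f.val i, eval_mul, eval_pow, mul_div_assoc, mul_comm, div_mul_cancel₀]
  exact pow_ne_zero _ hi

theorem Corr.red_zero (f : Corr k L a n r) {i : Fin (N + 1)}
    (hi : f.q.eval (algebraMap k f.E (a i)) = 0) : f.red i = 0 := by
  unfold Corr.red
  rw [hi, div_zero]

theorem Corr.red_ne (f : Corr k L a n r) {i : Fin (N + 1)} (hi : f.y i ≠ 0) : f.red i ≠ 0 :=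
  div_ne_zero hi (f.eval_ne hi)

theorem Corr.y_eq (f : Corr k L a n r) (i : Fin (N + 1)) :
    f.y i = f.q.eval (algebraMap k f.E (a i)) * f.red i := by
  by_cases hi : f.y i = 0
  · rw [hi]
    unfold Corr.red
    rw [hi, zero_div, mul_zero]
  · unfold Corr.red
    rw [mul_comm, div_mul_cancel₀ _ (f.eval_ne hi)]

/-- the number of the zeros of `q` among the nodes -/
theorem card_q_zeros {E : Type} [Field E] [Algebra k E] (ha : Function.Injective a) {q : E[X]}
    (hq : q ≠ 0) (s : Finset (Fin (N + 1))) (hs : ∀ i ∈ s, q.eval (algebraMap k E (a i)) = 0) :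
    s.card ≤ q.natDegree := by
  classical
  have hinj : Function.Injective fun i => algebraMap k E (a i) :=
    (algebraMap k E).injective.comp ha
  have h1 : s.image (fun i => algebraMap k E (a i)) ⊆ q.roots.toFinset := by
    intro t ht
    obtain ⟨i, hi, rfl⟩ := Finset.mem_image.1 ht
    rw [Multiset.mem_toFinset, mem_roots hq]
    exact hs i hi
  have h2 := Finset.card_le_card h1
  rw [Finset.card_image_of_injective _ hinj] at h2
  exact h2.trans ((Multiset.toFinset_card_le _).trans (card_roots' q))

/-- **The reduced map**, over `E`. -/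
theorem Corr.exists_isR [CharZero k] (hn : n ≤ N) (ha : Function.Injective a)
    (f : Corr k L a n r) (L0 : IntermediateField k L) (hcl : ∀ x : L, IsAlgebraic L0 x → x ∈ L0)
    (halg : ∀ i j, f.red j ≠ 0 → IsAlgebraic L0 (f.red i / f.red j)) :
    ∃ (s : Shape N) (z : Fin (s.N1 + 1) → f.E) (H : Polynomial f.E),
      IsR (K := L0) a n r s z H ∧ (∀ j, ∃ i j', f.red j' ≠ 0 ∧ z j = f.red i / f.red j') ∧
      ∀ i j, f.red j ≠ 0 → f.red i / f.red j ∈ IntermediateField.adjoin k (Set.range z) := by
  classical
  obtain ⟨i1, hi1'⟩ : ∃ i1, f.y i1 ≠ 0 := Function.ne_iff.1 f.ne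
  have hi1 : f.red i1 ≠ 0 := f.red_ne hi1'
  have hm := f.two_le
  -- the nodes
  set S : Finset (Fin (N + 1)) := Finset.univ.filter fun i =>
    f.q.eval (algebraMap k f.E (a i)) ≠ 0 with hS
  have hSm : ∀ i, i ∈ S ↔ f.q.eval (algebraMap k f.E (a i)) ≠ 0 := fun i => by
    rw [hS, Finset.mem_filter]; simp
  have hi1S : i1 ∈ S := (hSm i1).2 (f.eval_ne hi1')
  have hScard : 1 ≤ S.card := Finset.card_pos.2 ⟨i1, hi1S⟩
  obtain ⟨N1, hN1⟩ : ∃ N1, S.card = N1 + 1 := ⟨S.card - 1, by omega⟩
  have hcompl : Sᶜ.card ≤ f.q.natDegree := by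
    refine card_q_zeros ha f.q_ne _ fun i hi => ?_
    by_contra h
    exact Finset.mem_compl.1 hi ((hSm i).2 h)
  have hcc : Sᶜ.card = N + 1 - S.card := by
    rw [Finset.card_compl, Fintype.card_fin]
  have hSle : S.card ≤ N + 1 := by
    have := Finset.card_le_univ S
    rwa [Fintype.card_fin] at this
  let c : Fin (N1 + 1) → Fin (N + 1) := fun j => (S.equivFin.symm (Fin.cast hN1.symm j)).1
  have hcinj : Function.Injective c := by
    intro j j' hj
    have h1 := S.equivFin.symm.injective (Subtype.ext hj)
    exact Fin.cast_injective _ h1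
  have hcS : ∀ j, c j ∈ S := fun j => (S.equivFin.symm (Fin.cast hN1.symm j)).2
  have hcsurj : ∀ i ∈ S, ∃ j, c j = i := by
    intro i hi
    refine ⟨Fin.cast hN1 (S.equivFin ⟨i, hi⟩), ?_⟩
    simp [c]
  obtain ⟨j0, hj0⟩ := hcsurj i1 hi1S
  -- the degree
  set d := f.q.natDegree with hd
  have hdeg : f.m * d + f.H.natDegree ≤ n := by
    have h1 := f.deg
    rw [natDegree_mul (pow_ne_zero _ f.q_ne) f.H_ne, natDegree_pow] at h1
    exact h1
  have hmd : 2 * d ≤ f.m * d := Nat.mul_le_mul_right _ hm
  have hu0 : (f.red i1 ^ f.m)⁻¹ ≠ 0 := inv_ne_zero (pow_ne_zero _ hi1)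
  -- finiteness
  set T : Set f.E := {x | ∃ i j, f.red j ≠ 0 ∧ x = f.red i / f.red j} with hT
  have hTfin : T.Finite := by
    refine (Set.finite_range fun p : Fin (N + 1) × Fin (N + 1) => f.red p.1 / f.red p.2).subset ?_
    rintro _ ⟨i, j, _, rfl⟩
    exact ⟨(i, j), rfl⟩
  obtain ⟨hfd, hfrk⟩ := Pool.Agent.N530.JT.dd k L f.E L0 hcl T hTfin (by
    rintro _ ⟨i, j, hj, rfl⟩
    exact halg i j hj)
  set E0 : IntermediateField L0 f.E := IntermediateField.adjoin L0 T with hE0
  have hle0 : IntermediateField.adjoin L0 (Set.range fun j => f.red (c j) / f.red i1) ≤ E0 := by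
    rw [IntermediateField.adjoin_le_iff]
    rintro _ ⟨j, rfl⟩
    exact IntermediateField.subset_adjoin L0 _ ⟨c j, i1, hi1, rfl⟩
  refine ⟨⟨f.m, N1, f.H.natDegree, c, j0⟩, fun j => f.red (c j) / f.red i1,
    C (f.red i1 ^ f.m)⁻¹ * f.H, ⟨hm, hcinj, ?_, ?_, ?_, mul_ne_zero (C_ne_zero.2 hu0) f.H_ne, ?_,
    fun j => ?_, fun p hp hpd => ?_, ?_, ?_⟩, fun j => ⟨c j, i1, hi1, rfl⟩, ?_⟩
  · change f.H.natDegree + (N - N1) ≤ n
    omega
  · change f.H.natDegree ≤ N1
    omega
  · change f.red (c j0) / f.red i1 = 1
    rw [hj0, div_self hi1]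
  · rw [natDegree_C_mul hu0]
  · change (f.red (c j) / f.red i1) ^ f.m = _
    rw [eval_mul, eval_C, ← f.red_pow ((hSm _).1 (hcS j)), div_pow, div_eq_mul_inv, mul_comm]
  · exact f.free p hp (((isUnit_C.2 (IsUnit.mk0 _ hu0)).dvd_mul_left).1 hpd)
  · exact FiniteDimensional.of_injective (IntermediateField.inclusion hle0).toLinearMap
      (IntermediateField.inclusion hle0).injective
  · exact (LinearMap.finrank_le_finrank_of_injective
      (f := (IntermediateField.inclusion hle0).toLinearMap)
      (IntermediateField.inclusion hle0).injective).trans (hfrk.trans f.degree_le)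
  · have h1 : ∀ i, f.red i / f.red i1 ∈
        IntermediateField.adjoin k (Set.range fun j => f.red (c j) / f.red i1) := by
      intro i
      by_cases hi : i ∈ S
      · obtain ⟨j, rfl⟩ := hcsurj i hi
        exact IntermediateField.subset_adjoin k _ ⟨j, rfl⟩
      · have h2 : f.q.eval (algebraMap k f.E (a i)) = 0 := by
          by_contra h
          exact hi ((hSm i).2 h)
        rw [f.red_zero h2, zero_div]
        exact (IntermediateField.adjoin k _).zero_mem
    intro i j hj
    have e : f.red i / f.red j = (f.red i / f.red i1) / (f.red j / f.red i1) := by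
      rw [div_div_div_cancel_right₀ hi1]
    change f.red i / f.red j ∈
      IntermediateField.adjoin k (Set.range fun j => f.red (c j) / f.red i1)
    rw [e]
    exact (IntermediateField.adjoin k _).div_mem (h1 i) (h1 j)

section

variable {ι : Type*} (f : ι → Corr k L a n r)

/-- The functions on `M` which are algebraic over the values of all the reduced maps: the function
field of the base of the fibration of `M` which is defined by the maps `f i`. -/
noncomputable def baseField : IntermediateField k L :=
  ((algebraicClosure (IntermediateField.adjoin k (⋃ i, (f i).values))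
    (AlgebraicClosure L)).restrictScalars k).comap (IsScalarTower.toAlgHom k L (AlgebraicClosure L))

theorem mem_baseField (x : L) : x ∈ baseField f ↔
    IsAlgebraic (IntermediateField.adjoin k (⋃ i, (f i).values))
      (algebraMap L (AlgebraicClosure L) x) :=
  mem_algebraicClosure_iff

theorem values_inv (g : AlgebraicClosure L ≃ₐ[L] AlgebraicClosure L) :
    ∀ v ∈ ⋃ i, (f i).values, g v ∈ ⋃ i, (f i).values := by
  intro v hv
  rw [Set.mem_iUnion] at hv ⊢
  obtain ⟨i, σ, i', j, hj, rfl⟩ := hv
  exact ⟨i, (g : AlgebraicClosure L →ₐ[L] AlgebraicClosure L).comp σ, i', j, hj, rfl⟩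

theorem base_main [CharZero k] : (∀ v ∈ ⋃ i, (f i).values, IsAlgebraic (baseField f) v) ∧
    Algebra.trdeg k (baseField f) =
      Algebra.trdeg k (IntermediateField.adjoin k (⋃ i, (f i).values)) :=
  Pool.Agent.N849.JT.main k L (AlgebraicClosure L) (⋃ i, (f i).values) (values_inv f)
    (baseField f) (mem_baseField f)

/-- the base field is algebraically closed in `L` -/
theorem base_closed (x : L) (hx : IsAlgebraic (baseField f) x) : x ∈ baseField f := by
  rw [mem_baseField]
  set A := IntermediateField.adjoin k (⋃ i, (f i).values) with hA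
  let φ : L →ₐ[k] AlgebraicClosure L := IsScalarTower.toAlgHom k L (AlgebraicClosure L)
  let B : IntermediateField k (AlgebraicClosure L) := (baseField f).map φ
  have h1 : ∀ z ∈ B, IsAlgebraic A z := by
    rintro _ ⟨z, hz, rfl⟩
    exact (mem_baseField f z).1 hz
  refine trans_alg h1 ?_
  let ψ : baseField f →+* B :=
    { toFun := fun z => ⟨φ z, z, z.2, rfl⟩
      map_one' := Subtype.ext (map_one _)
      map_mul' := fun x y => Subtype.ext (map_mul _ _ _)
      map_zero' := Subtype.ext (map_zero _)
      map_add' := fun x y => Subtype.ext (map_add _ _ _) }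
  let _ : Algebra (baseField f) B := ψ.toAlgebra
  have t1 : IsScalarTower (baseField f) B (AlgebraicClosure L) :=
    IsScalarTower.of_algebraMap_eq fun x => rfl
  have h2 : IsAlgebraic (baseField f) (algebraMap L (AlgebraicClosure L) x) := hx.algebraMap
  exact h2.extendScalars ψ.injective

/-- the values of the coordinates are algebraic over the base field -/
theorem base_coords [CharZero k] (i : ι) (i' j : Fin (N + 1)) (hj : (f i).red j ≠ 0) :
    IsAlgebraic (baseField f) ((f i).red i' / (f i).red j) := by
  let σ : (f i).E →ₐ[L] AlgebraicClosure L := IsAlgClosed.lift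
  have h1 : IsAlgebraic (baseField f) (σ ((f i).red i' / (f i).red j)) :=
    (base_main f).1 _ (Set.mem_iUnion.2 ⟨i, σ, i', j, hj, rfl⟩)
  exact (isAlgebraic_algHom_iff (σ.restrictScalars (baseField f)) σ.toRingHom.injective).1 h1

/-- the universal property of the fibration -/
theorem base_le (L1 : IntermediateField k L) (hcl : ∀ x : L, IsAlgebraic L1 x → x ∈ L1)
    (h : ∀ i, ∀ v ∈ (f i).values, IsAlgebraic L1 v) : baseField f ≤ L1 := by
  intro x hx
  apply hcl
  rw [mem_baseField] at hx
  let φ : L →ₐ[k] AlgebraicClosure L := IsScalarTower.toAlgHom k L (AlgebraicClosure L)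
  let B : IntermediateField k (AlgebraicClosure L) := L1.map φ
  let ψ : L1 →+* B :=
    { toFun := fun z => ⟨φ z, z, z.2, rfl⟩
      map_one' := Subtype.ext (map_one _)
      map_mul' := fun x y => Subtype.ext (map_mul _ _ _)
      map_zero' := Subtype.ext (map_zero _)
      map_add' := fun x y => Subtype.ext (map_add _ _ _) }
  let _ : Algebra L1 B := ψ.toAlgebra
  have t1 : IsScalarTower L1 B (AlgebraicClosure L) :=
    IsScalarTower.of_algebraMap_eq fun x => rfl
  have h1 : ∀ v ∈ ⋃ i, (f i).values, IsAlgebraic B v := by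
    intro v hv
    rw [Set.mem_iUnion] at hv
    obtain ⟨i, hv⟩ := hv
    exact (h i v hv).extendScalars ψ.injective
  have h2 : IsAlgebraic B (algebraMap L (AlgebraicClosure L) x) :=
    trans_alg (adjoin_alg h1) hx
  have hsurj : Function.Surjective ψ := by
    rintro ⟨_, z, hz, rfl⟩
    exact ⟨⟨z, hz⟩, rfl⟩
  have halg : Algebra.IsAlgebraic L1 B := ⟨fun z => by
    obtain ⟨z', rfl⟩ := hsurj z
    exact isAlgebraic_algebraMap (R := L1) (A := B) z'⟩
  have h3 : IsAlgebraic L1 (algebraMap L (AlgebraicClosure L) x) := h2.restrictScalars L1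
  exact (isAlgebraic_algebraMap_iff (algebraMap L (AlgebraicClosure L)).injective).1 h3

end

end Pool.Agent.N115.JS
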