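import Pool.Agent.N115.JS.Rel

/-!
The fibration which is defined by a family of multi-valued maps: the properties of its base.
-/

set_option autoImplicit false
set_option linter.unusedSectionVars false

namespace Pool.Agent.N115.JS

open Pool.Agent.W602.GT (GeneralType coords BrodySpecial)
open Pool.Agent.TH466.QG (StronglyGeneral)
open Pool.Agent.Y221.PD (PseudoPicard PseudoAbelian PseudoTorus brody_of_picard abelian_of_brody
  torus_of_brody)
open Pool.Agent.Y221.BD (PseudoBrody)
open Pool.Agent.Y216.SV (InLinearSpace)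

/-- `4 s r n + (s r n + s r (r - 1) + 1) ^ 2 < 2 (N + 1)` -/
def Bound (N n r s : ℕ) : Prop :=
  4 * (s * (r * n)) + (s * (r * n) + s * (r * (r - 1)) + 1) ^ 2 < 2 * (N + 1)

/-- `x` is the generic point of a projective variety with function field `F` (a projective model). -/
def IsModel (k : Type) [Field k] {F : Type} [Field F] [Algebra k F] {M : ℕ} (x : Fin (M + 1) → F) :
    Prop :=
  x ≠ 0 ∧ coords k x = ⊤

/-- There are projective varieties with function field `F`. -/
def HasModel (k : Type) [Field k] (F : Type) [Field F] [Algebra k F] : Prop :=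
  ∃ (M : ℕ) (x : Fin (M + 1) → F), IsModel k x

variable {k L : Type} [Field k] [Field L] [Algebra k L] {N n r : ℕ} {a : Fin (N + 1) → k}

/-- The function field of `M₀` is the smallest subfield of `L`, algebraically closed in `L`, over
which the values of all the reduced maps are algebraic. -/
def Universal {ι : Type} (f : ι → Corr k L a n r) : Prop :=
  (∀ u : L, IsAlgebraic (baseField f) u → u ∈ baseField f) ∧
    (∀ i, ∀ v ∈ (f i).values, IsAlgebraic (baseField f) v) ∧
    ∀ L1 : IntermediateField k L, (∀ u : L, IsAlgebraic L1 u → u ∈ L1) →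
      (∀ i, ∀ v ∈ (f i).values, IsAlgebraic L1 v) → baseField f ≤ L1

/-- The reduced maps are jointly generically finite: all functions on `M` are algebraic over their
values. -/
def JointlyFinite {ι : Type} (f : ι → Corr k L a n r) : Prop :=
  Algebra.IsAlgebraic (IntermediateField.adjoin k (⋃ i, (f i).values)) (AlgebraicClosure L)

/-- The four conditions of hyperbolicity off a proper closed subset. -/
def PseudoHyperbolic {F : Type} [Field F] [Algebra ℂ F] {M : ℕ} (x : Fin (M + 1) → F) : Prop :=
  PseudoPicard x ∧ PseudoBrody x ∧ PseudoAbelian x ∧ PseudoTorus x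

/-- The projective models of `M₀` are hyperbolic off proper closed subsets, and the punctured discs
and entire curves in `M` extend, or are contracted, in `M₀`. -/
def BaseHyperbolic {L : Type} [Field L] [Algebra ℂ L] {a : Fin (N + 1) → ℂ} {M : ℕ}
    (ξ : Fin (M + 1) → L) {ι : Type} (f : ι → Corr ℂ L a n r) : Prop :=
  ∀ (M0 : ℕ) (x : Fin (M0 + 1) → baseField f), IsModel ℂ x →
    PseudoHyperbolic x ∧ DiscsExtend ξ x ∧ CurvesInFibres ξ x

/-- `M₀` is a point or of general type, if `dim M₀ ≤ s` or if there are at most `s` maps. -/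
def BaseGeneral {ι : Type} (f : ι → Corr k L a n r) : Prop :=
  ∀ s w : ℕ, Bound N n r s → Algebra.trdeg k (baseField f) = w →
    (w ≤ s ∨ Finite ι ∧ Nat.card ι ≤ s) → GeneralType k (baseField f) w

/-- The projective models of `M₀` are strongly of general type, if `dim M₀ ≤ s`. -/
def BaseStronglyGeneral {ι : Type} (f : ι → Corr k L a n r) : Prop :=
  ∀ s w : ℕ, 1 ≤ s → Bound N n r s → Algebra.trdeg k (baseField f) = w → w ≤ s →
    ∀ (M0 : ℕ) (x : Fin (M0 + 1) → baseField f), IsModel k x → StronglyGeneral k x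

/-- The five conditions for `M` itself: it is hyperbolic off a proper closed subset; it is of
general type if `dim M ≤ s` or if there are at most `s` maps, and strongly of general type if
`dim M ≤ s`. -/
def FiveConditions {L : Type} [Field L] [Algebra ℂ L] {a : Fin (N + 1) → ℂ} {M : ℕ}
    (ξ : Fin (M + 1) → L) {ι : Type} (_ : ι → Corr ℂ L a n r) : Prop :=
  PseudoHyperbolic ξ ∧ ∀ s D : ℕ, 1 ≤ s → Bound N n r s → Algebra.trdeg ℂ L = D →
    ((D ≤ s ∨ Finite ι ∧ Nat.card ι ≤ s) → GeneralType ℂ L D) ∧
    (D ≤ s → StronglyGeneral ℂ ξ)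

/-- If there is a Zariski-dense entire curve in `M` then `M₀` is a point and the images of all maps
are contained in linear subspaces which are contained in `X_m`. -/
def DenseCurvesLinear {L : Type} [Field L] [Algebra ℂ L] {a : Fin (N + 1) → ℂ} {M : ℕ}
    (ξ : Fin (M + 1) → L) {ι : Type} (f : ι → Corr ℂ L a n r) : Prop :=
  BrodySpecial (∅ : Set (Fin (M + 1))) ξ → baseField f = ⊥ ∧
    ∀ i, ∃ e, e * (f i).m ≤ n ∧ InLinearSpace ℂ a n (f i).m e (f i).y

/-- The projective models of `M₀` are strongly of general type, and off a proper closed subset of `M`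
the closed subvarieties of `M` are mapped to points or onto varieties of general type. -/
def BaseStrong {M : ℕ} (ξ : Fin (M + 1) → L) {ι : Type} (f : ι → Corr k L a n r) : Prop :=
  ∀ (M0 : ℕ) (x : Fin (M0 + 1) → baseField f), IsModel k x →
    StronglyGeneral k x ∧ SubvarietiesMapped k ξ x

/-- the five conditions -/
theorem core_main (hr : 1 ≤ r) (hN : (r * (r - 1) + 4) * (r * n) < N + 1)
    {a : Fin (N + 1) → ℂ} (ha : Function.Injective a) {L : Type} [Field L] [Algebra ℂ L] {M : ℕ}
    {ξ : Fin (M + 1) → L} (hξ : IsModel ℂ ξ) {ι : Type} (f : ι → Corr ℂ L a n r) :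
    Universal f ∧ HasModel ℂ (baseField f) ∧ BaseHyperbolic ξ f ∧ BaseGeneral f ∧
      BaseStronglyGeneral f ∧ DenseCurvesLinear ξ f ∧ (JointlyFinite f → FiveConditions ξ f) := by
  obtain ⟨hξ, hgen⟩ := hξ
  have hn : n ≤ N := by
    have h1 : 1 * (1 * n) ≤ (r * (r - 1) + 4) * (r * n) :=
      Nat.mul_le_mul (by omega) (Nat.mul_le_mul_right _ hr)
    omega
  have hess : Algebra.EssFiniteType ℂ L := Pool.Agent.W602.GT.essFinite hgen
  obtain ⟨D, hD⟩ := dim_of_gen hgen
  have hgt : BaseGeneral f := fun s w hs hw hfin => base_general f hr hn hs ha hw hfin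
  have hst : BaseStronglyGeneral f := fun s w _ hs hw hws M0 x hx =>
    base_strong f hr hn hs ha hD hw hws hx.1 hx.2
  refine ⟨⟨base_closed f, fun i v hv => (base_main f).1 v (Set.mem_iUnion.2 ⟨i, hv⟩), base_le f⟩,
    exists_model (baseField f), ?_, hgt, hst, ?_, ?_⟩
  · rintro M0 x ⟨hx, hxg⟩
    have h0 : FieldPicard x := base_field f hn hN ha hD hx hxg
    have h1 : PseudoPicard x := picard_of_field h0
    have h2 : PseudoBrody x := brody_of_picard h1
    exact ⟨⟨h1, h2, abelian_of_brody h2, torus_of_brody h2⟩, discsExtend hgen hx h0,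
      curvesInFibres hξ hgen hx h2⟩
  · intro h
    have h0 := bot_of_dense f hn hN ha hξ hgen h
    exact ⟨h0, fun i => (f i).linear hn ha (alg_of_bot f h0 i)⟩
  · intro h
    have h0 := base_top f h
    obtain ⟨x, rfl, hx, hxg⟩ := exists_top h0 hξ hgen
    have h1 : PseudoPicard (fun i => (x i : L)) :=
      picard_coe (picard_of_field (base_field f hn hN ha hD hx hxg))
    have h2 := brody_of_picard h1
    refine ⟨⟨h1, h2, abelian_of_brody h2, torus_of_brody h2⟩, fun s D' hs1 hs hD' => ?_⟩
    let e : baseField f ≃ₐ[ℂ] L :=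
      (IntermediateField.equivOfEq h0).trans IntermediateField.topEquiv
    have h3 : Algebra.trdeg ℂ (baseField f) = D' := by rw [e.trdeg_eq, hD']
    exact ⟨fun hfin => Pool.Agent.TH466.QG.general_of_equiv e (hgt s D' hs h3 hfin),
      fun hle => strong_coe (base_strong f hr hn hs ha hD h3 hle hx hxg)⟩

/-- the subvarieties -/
theorem lang_main [CharZero k] [IsAlgClosed k] {s : ℕ} (hr : 1 ≤ r) (hs : 1 ≤ s)
    (hN : Bound N n r s) (ha : Function.Injective a) {M : ℕ}
    {ξ : Fin (M + 1) → L} (hξ : IsModel k ξ) {ι : Type} (f : ι → Corr k L a n r) {w : ℕ}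
    (hw : Algebra.trdeg k (baseField f) = w) (hws : w ≤ s) :
    Universal f ∧ HasModel k (baseField f) ∧ GeneralType k (baseField f) w ∧
      (∀ i, Algebra.trdeg k (coords k (f i).red) ≤ w) ∧ BaseStrong ξ f ∧
      (JointlyFinite f → GeneralType k L w ∧ StronglyGeneral k ξ) := by
  obtain ⟨hξ, hgen⟩ := hξ
  have hN' : 4 * (s * (r * n)) + (s * (r * n) + s * (r * (r - 1)) + 1) ^ 2 < 2 * (N + 1) := hN
  have hn : n ≤ N := by
    have h1 : 1 * (1 * n) ≤ s * (r * n) := Nat.mul_le_mul hs (Nat.mul_le_mul_right _ hr)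
    omega
  have hess : Algebra.EssFiniteType k L := Pool.Agent.W602.GT.essFinite hgen
  obtain ⟨D, hD⟩ := dim_of_gen hgen
  have hG := base_general f hr hn hN ha hw (Or.inl hws)
  refine ⟨⟨base_closed f, fun i v hv => (base_main f).1 v (Set.mem_iUnion.2 ⟨i, hv⟩), base_le f⟩,
    exists_model (baseField f), hG, fun i => hw ▸ base_trdeg f i, ?_, fun h => ?_⟩
  · rintro M0 x ⟨hx, hxg⟩
    have h1 := base_strong f hr hn hN ha hD hw hws hx hxg
    exact ⟨h1, subvarietiesMapped hgen hx h1⟩
  · have h0 := base_top f h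
    obtain ⟨x, rfl, hx, hxg⟩ := exists_top h0 hξ hgen
    let e : baseField f ≃ₐ[k] L :=
      (IntermediateField.equivOfEq h0).trans IntermediateField.topEquiv
    exact ⟨Pool.Agent.TH466.QG.general_of_equiv e hG,
      strong_coe (base_strong f hr hn hN ha hD hw hws hx hxg)⟩

end Pool.Agent.N115.JS
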