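import Pool.Agent.N115.JS.Stm
import Pool.Agent.N42.JS.Pic
import Pool.Agent.N459.JS.FibCurv
import Pool.Agent.Y221.PD.Top

/-!
Points of varieties over the field of the meromorphic functions near an essential singularity, and
holomorphic maps from punctured discs to the total space of a fibration.
-/

set_option autoImplicit false
set_option linter.overlappingInstances false
set_option linter.unusedSectionVars false

open Filter Topology Set Metric IntermediateField

namespace Pool.Agent.N115.JS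

open FF Pool.Agent.W602.GT
open Pool.Agent.Y190.AN (MK exD Minf cl cl_eq cl_eq_zero Minf_closed inv_mem_ext eval_mero
  extends_of_minf coord_an)
open Pool.Agent.TH466.QG (Sp alg_spec spread adjoin_norm hz_form val_hz)
open Pool.Agent.W603.BP (PB mem_disc inv_mem_PB Extends PCurve Ext_open)
open Pool.Agent.N441.AN8 (gen0 alg_coords)
open Pool.Agent.W603.BP (PB_mem)
open Pool.Agent.Y221.PD (PseudoPicard EssentialDisc)

/-- The points of the projective variety with generic point `x` over the field of the meromorphic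
functions on `{|z| > 1}` which are not in a proper closed subset have coordinates with ratios which
are meromorphic at infinity. -/
def FieldPicard {M : ℕ} {L : Type} [Field L] [Algebra ℂ L] (x : Fin (M + 1) → L) : Prop :=
  ∃ R : MvPolynomial (Fin (M + 1)) ℂ, IsForm R ∧ val x R ≠ 0 ∧
    ∀ z : Fin (M + 1) → MK (exD 1 one_pos),
      (∀ G : MvPolynomial (Fin (M + 1)) ℂ, IsForm G → val x G = 0 → val z G = 0) →
      val z R ≠ 0 → ∀ i j, z j ≠ 0 → z i / z j ∈ Minf 1 one_pos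

/-- the version of `PicardOfL` for points over the field of meromorphic functions -/
theorem field_of_l (hR : SpreadRange) {K' L : Type} [Field K'] [Field L] [Algebra ℂ K']
    [Algebra ℂ L] [Algebra L K'] [IsScalarTower ℂ L K'] [FiniteDimensional L K'] {r n : ℕ}
    (hr : Module.finrank L K' ≤ r)
    (y : Fin (n + 1) → K') (i0 : Fin (n + 1)) (hi0 : y i0 ≠ 0)
    (halgK' : Algebra.IsAlgebraic (coords ℂ y) K')
    (hopen : ∃ (Θ : Set K') (Λ : Set L), Θ.Finite ∧ Λ.Finite ∧ ∀ (E : Type) [Field E]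
      [Algebra (MK (exD 1 one_pos)) E] [Algebra ℂ E] [IsScalarTower ℂ (MK (exD 1 one_pos)) E]
      [FiniteDimensional (MK (exD 1 one_pos)) E], Module.finrank (MK (exD 1 one_pos)) E ≤ r →
      ∀ S : Sp ℂ K' E, (∀ ϑ ∈ Θ, ∃ z, S.T ϑ z) →
      (∀ l ∈ Λ, ∃ e : MK (exD 1 one_pos), S.T (algebraMap L K' l)
        (algebraMap (MK (exD 1 one_pos)) E e)) →
      ∀ y' : Fin (n + 1) → E,
      (∀ i, S.T (y i) (y' i)) → ∀ i, IsAlgebraic (Minf 1 one_pos) (y' i / y' i0))
    {M : ℕ} {x : Fin (M + 1) → L} (hx : x ≠ 0) (hgen : coords ℂ x = ⊤) : FieldPicard x := by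
  classical
  obtain ⟨i1, hi1'⟩ := Function.ne_iff.1 hx
  have hi1 : x i1 ≠ 0 := hi1'
  obtain ⟨Θ, Λ, hΘ, hΛ, hopen⟩ := hopen
  obtain ⟨Θ3, hΘ3, hrange⟩ := hR ℂ L K' M x i1 hi1 hgen Λ hΛ
  obtain ⟨y0, hy0, hgen0⟩ := gen0 (k := ℂ) y i0 hi0
  have hi00 : y0 i0 ≠ 0 := by
    intro h0
    have h1 := hy0 i0
    rw [h0, div_self hi0] at h1
    exact zero_ne_one h1
  obtain ⟨Θ2, hΘ2, halgs⟩ := alg_spec (K' := K') hgen0 hi00
    (fun m => algebraMap L K' (x m / x i1))
  obtain ⟨H, hH, hspread⟩ := spread (K' := K') (adjoin_norm hgen hi1)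
    (Θ := (Θ ∪ Θ3) ∪ ((algebraMap (coords ℂ y) K' '' Θ2) ∪ (Set.range y ∪
      (Set.range (fun i => y i / y i0) ∪ {(y i0)⁻¹}))))
    ((hΘ.union hΘ3).union ((hΘ2.image _).union ((Set.finite_range y).union
      ((Set.finite_range _).union (Set.finite_singleton _)))))
  refine ⟨MvPolynomial.X i1 * Pool.Agent.TH466.QG.hz i1 H, ?_, ?_, ?_⟩
  · obtain ⟨d, hd⟩ := hz_form i1 H
    exact ⟨1 + d, (MvPolynomial.isHomogeneous_X ℂ i1).mul hd⟩
  · change MvPolynomial.aeval x _ ≠ 0
    rw [map_mul, MvPolynomial.aeval_X]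
    refine mul_ne_zero hi1 ?_
    change val x _ ≠ 0
    rw [val_hz H hi1]
    exact mul_ne_zero (pow_ne_zero _ hi1) hH
  intro z hmem hzR
  change MvPolynomial.aeval z _ ≠ 0 at hzR
  rw [map_mul, MvPolynomial.aeval_X] at hzR
  have hz1 : z i1 ≠ 0 := left_ne_zero_of_mul hzR
  have hzH : MvPolynomial.aeval (fun i => z i / z i1) H ≠ 0 := by
    have h1 : val z (Pool.Agent.TH466.QG.hz i1 H) ≠ 0 := right_ne_zero_of_mul hzR
    rw [val_hz H hz1] at h1
    exact right_ne_zero_of_mul h1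
  have hsp : ∀ G : MvPolynomial (Fin (M + 1)) ℂ,
      MvPolynomial.aeval (fun i => x i / x i1) G = 0 →
      MvPolynomial.aeval (fun i => z i / z i1) G = 0 := by
    intro G hG
    have h1 : val x (Pool.Agent.TH466.QG.hz i1 G) = 0 := by
      rw [val_hz G hi1, hG, mul_zero]
    have h2 : val z (Pool.Agent.TH466.QG.hz i1 G) = 0 := hmem _ (hz_form i1 G) h1
    rw [val_hz G hz1] at h2
    exact (mul_eq_zero.1 h2).resolve_left (pow_ne_zero _ hz1)
  obtain ⟨K'', i1', i2', i3', i4', i5', hrk, S, hSx, hSΘ⟩ := hspread (MK (exD 1 one_pos))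
    (fun i => z i / z i1) hsp hzH
  have hSy : ∀ i, ∃ t, S.T (y i) t := fun i => hSΘ _ (Or.inr (Or.inr (Or.inl ⟨i, rfl⟩)))
  choose y' hy' using hSy
  have hinv : ∃ t, S.T (y i0)⁻¹ t := hSΘ _ (Or.inr (Or.inr (Or.inr (Or.inr rfl))))
  have halg0 : ∀ i, IsAlgebraic (Minf 1 one_pos) (y' i / y' i0) :=
    hopen K'' (hrk.trans hr) S (fun ϑ hϑ => hSΘ _ (Or.inl (Or.inl hϑ)))
      (hrange (MK (exD 1 one_pos)) K'' S (fun i => z i / z i1) hSx
        (fun ϑ hϑ => hSΘ _ (Or.inl (Or.inr hϑ)))) y' hy'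
  have hSy0 : ∀ i, S.T (algebraMap (coords ℂ y) K' (y0 i)) (y' i / y' i0) := by
    intro i
    have h1 : algebraMap (coords ℂ y) K' (y0 i) = y i * (y i0)⁻¹ := by
      rw [← div_eq_mul_inv]
      exact hy0 i
    rw [h1, div_eq_mul_inv]
    exact S.mul (hy' i) (S.inv (hy' i0) hinv hi0)
  have hall : ∀ m, z m / z i1 ∈ Minf 1 one_pos := by
    intro m
    have h1 := halgs K'' S (fun ϑ hϑ => hSΘ _ (Or.inr (Or.inl ⟨ϑ, hϑ, rfl⟩)))
      (fun i => y' i / y' i0) hSy0
      (fun m => algebraMap (MK (exD 1 one_pos)) K'' (z m / z i1)) hSx m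
    have h2 : IsAlgebraic (Minf 1 one_pos)
        (algebraMap (MK (exD 1 one_pos)) K'' (z m / z i1)) := alg_coords halg0 h1
    exact Minf_closed ((isAlgebraic_algebraMap_iff
      (algebraMap (MK (exD 1 one_pos)) K'').injective).1 h2)
  intro i j hj
  have h1 : z i / z j = (z i / z i1) * (z j / z i1)⁻¹ := by
    field_simp
  rw [h1]
  exact mul_mem (hall i) (inv_mem (hall j))

/-- a holomorphic map from the punctured disc as a point over the field of meromorphic functions -/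
theorem ext_inv {v : ℂ} (hv : v ∈ (exD 1 one_pos).U) : v⁻¹ ∈ ball (0 : ℂ) 1 \ {0} := by
  have h1 : (1 : ℝ) < ‖v‖ := hv
  have h0 : v ≠ 0 := by
    rintro rfl
    rw [norm_zero] at h1
    linarith
  exact mem_disc.2 ⟨inv_ne_zero h0, by rw [norm_inv]; exact inv_lt_one_of_one_lt₀ h1⟩

/-- **From points over the field of meromorphic functions to punctured discs.** -/
theorem picard_of_field {L : Type} [Field L] [Algebra ℂ L] {M : ℕ} {x : Fin (M + 1) → L}
    (h : FieldPicard x) : PseudoPicard x := by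
  classical
  obtain ⟨R, hR, hR0, hz⟩ := h
  refine ⟨R, hR, hR0, fun f hf t0 ht0 => ?_⟩
  by_contra hft
  have hPC : PCurve (∅ : Set (Fin (M + 1))) (fun e : Empty => (e.elim : MvPolynomial (Fin (M + 1)) ℂ)) f :=
    ⟨differentiableOn_pi.2 hf.hol, fun z hz => ⟨hf.ne z hz, fun j hj => absurd hj
      (Set.notMem_empty j), fun e => e.elim⟩⟩
  have hM : ∀ i, MeromorphicOn (fun z => f z⁻¹ i) (exD 1 one_pos).U := fun i z hz =>
    (coord_an hPC i z hz).meromorphicAt
  obtain ⟨z, hzdef⟩ : ∃ z : Fin (M + 1) → MK (exD 1 one_pos), z = fun i => cl _ (hM i) :=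
    ⟨_, rfl⟩
  have hvz : ∀ G, val z G = 0 ↔ ∀ t ∈ (exD 1 one_pos).U,
      MvPolynomial.eval (fun i => f t⁻¹ i) G = 0 := by
    intro G
    rw [hzdef, Pool.Agent.Y190.AN.val_cl G hM (eval_mero G hM), cl_eq_zero]
    constructor
    · intro h t ht
      have h3 : AnalyticAt ℂ (fun v => MvPolynomial.eval (fun i => f v⁻¹ i) G) t := by
        simp only [MvPolynomial.eval_eq']
        apply Finset.analyticAt_fun_sum
        intro α _
        apply AnalyticAt.fun_mul analyticAt_const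
        apply Finset.analyticAt_fun_prod
        intro j _
        exact (coord_an hPC j t ht).fun_pow _
      exact (h3.frequently_zero_iff_eventually_zero.1 (h t ht).frequently).self_of_nhds
    · intro h t ht
      have h1 : ∀ᶠ w in 𝓝 t, w ∈ (exD 1 one_pos).U := (exD 1 one_pos).op.mem_nhds ht
      filter_upwards [nhdsWithin_le_nhds h1] with w hw
      exact h w hw
  have hzR : val z R ≠ 0 := by
    intro h0
    apply hft
    have h1 := (hvz _).1 h0 t0⁻¹ (inv_mem_ext (mem_disc.1 ht0))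
    rw [inv_inv] at h1
    exact h1
  have hall := hz z (fun G hG h1 => (hvz G).2 fun t ht => hf.mem G hG h1 _ (ext_inv ht)) hzR
  apply hf.ess
  refine extends_of_minf hPC hM fun i j hj => ?_
  have e : ∀ m, cl _ (hM m) = z m := fun m => by rw [hzdef]
  rw [e] at hj
  rw [e, e]
  exact hall i j hj

/-- `f` is a holomorphic map from the punctured unit disc to the projective variety with generic
point `ξ`. -/
structure Disc {M : ℕ} {L : Type} [Field L] [Algebra ℂ L] (ξ : Fin (M + 1) → L)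
    (f : ℂ → Fin (M + 1) → ℂ) : Prop where
  hol : ∀ i, DifferentiableOn ℂ (fun t => f t i) (ball 0 1 \ {0})
  ne : ∀ t ∈ ball (0 : ℂ) 1 \ {0}, f t ≠ 0
  mem : ∀ G : MvPolynomial (Fin (M + 1)) ℂ, IsForm G → val ξ G = 0 →
    ∀ t ∈ ball (0 : ℂ) 1 \ {0}, MvPolynomial.eval (f t) G = 0

/-- **Punctured discs in the total space of a fibration.** -/
theorem disc_of_field {L : Type} [Field L] [Algebra ℂ L] (L0 : IntermediateField ℂ L)
    {M M0 : ℕ} {ξ : Fin (M + 1) → L} {x : Fin (M0 + 1) → L0} (hξ : coords ℂ ξ = ⊤) (hx : x ≠ 0)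
    (hB : FieldPicard x) :
    ∃ (R : MvPolynomial (Fin (M + 1)) ℂ) (A : Fin (M0 + 1) → MvPolynomial (Fin (M + 1)) ℂ)
      (d : ℕ) (h : L), IsForm R ∧ val ξ R ≠ 0 ∧ (∀ i, (A i).IsHomogeneous d) ∧ h ≠ 0 ∧
      (∀ i, val ξ (A i) = h * (x i : L)) ∧
      ∀ f, Disc ξ f → (∃ t ∈ ball (0 : ℂ) 1 \ {0}, MvPolynomial.eval (f t) R ≠ 0) →
        ∀ i j, (∃ t ∈ ball (0 : ℂ) 1 \ {0}, MvPolynomial.eval (f t) (A j) ≠ 0) →
          ∃ g : ℂ → ℂ, MeromorphicAt g 0 ∧ ∀ᶠ t in 𝓝[≠] 0,
            MvPolynomial.eval (f t) (A i) = g t * MvPolynomial.eval (f t) (A j) := by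
  classical
  obtain ⟨R0, ⟨e, hR0⟩, hR1, hR2⟩ := hB
  obtain ⟨i1, hi1⟩ : ∃ i, x i ≠ 0 := by
    by_contra hcon
    push Not at hcon
    exact hx (funext hcon)
  obtain ⟨d, A, h, hh, hA, hAx⟩ := Pool.Agent.N459.JS.common (k := ℂ) ξ hξ (fun i => (x i : L))
  have hvalG : ∀ (e' : ℕ) (G : MvPolynomial (Fin (M0 + 1)) ℂ), G.IsHomogeneous e' →
      val ξ (MvPolynomial.aeval A G) = h ^ e' * ((val x G : L0) : L) := by
    intro e' G hG
    rw [Pool.Agent.N459.JS.val_comp, ← Pool.Agent.N459.JS.val_coe]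
    have h1 : (fun i => val ξ (A i)) = fun i => h * (x i : L) := funext hAx
    rw [h1]
    exact Pool.Agent.N459.JS.aeval_scale hG h _
  refine ⟨MvPolynomial.aeval A R0, A, d, h, ⟨_, hR0.aeval A hA⟩, ?_, hA, hh, hAx, ?_⟩
  · rw [hvalG e R0 hR0]
    exact mul_ne_zero (pow_ne_zero _ hh) (by simpa using hR1)
  intro f hf ⟨t0, ht0, hft⟩ i j ⟨t1, ht1, hj⟩
  have hPC : PCurve (∅ : Set (Fin (M + 1))) (fun e : Empty => (e.elim : MvPolynomial (Fin (M + 1)) ℂ)) f :=
    ⟨differentiableOn_pi.2 hf.hol, fun z hz => ⟨hf.ne z hz, fun j hj => absurd hj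
      (Set.notMem_empty j), fun e => e.elim⟩⟩
  have hM : ∀ i, MeromorphicOn (fun z => f z⁻¹ i) (exD 1 one_pos).U := fun i z hz =>
    (coord_an hPC i z hz).meromorphicAt
  obtain ⟨z, hzdef⟩ : ∃ z : Fin (M + 1) → MK (exD 1 one_pos), z = fun i => cl _ (hM i) :=
    ⟨_, rfl⟩
  have han : ∀ G : MvPolynomial (Fin (M + 1)) ℂ, ∀ t ∈ (exD 1 one_pos).U,
      AnalyticAt ℂ (fun v => MvPolynomial.eval (fun i => f v⁻¹ i) G) t := by
    intro G t ht
    simp only [MvPolynomial.eval_eq']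
    apply Finset.analyticAt_fun_sum
    intro α _
    apply AnalyticAt.fun_mul analyticAt_const
    apply Finset.analyticAt_fun_prod
    intro j _
    exact (coord_an hPC j t ht).fun_pow _
  have hvz : ∀ G, val z G = 0 ↔ ∀ t ∈ (exD 1 one_pos).U,
      MvPolynomial.eval (fun i => f t⁻¹ i) G = 0 := by
    intro G
    rw [hzdef, Pool.Agent.Y190.AN.val_cl G hM (eval_mero G hM), cl_eq_zero]
    constructor
    · intro h t ht
      exact ((han G t ht).frequently_zero_iff_eventually_zero.1 (h t ht).frequently).self_of_nhds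
    · intro h t ht
      have h1 : ∀ᶠ w in 𝓝 t, w ∈ (exD 1 one_pos).U := (exD 1 one_pos).op.mem_nhds ht
      filter_upwards [nhdsWithin_le_nhds h1] with w hw
      exact h w hw
  -- the point of the base
  obtain ⟨u, hudef⟩ : ∃ u : Fin (M0 + 1) → MK (exD 1 one_pos), u = fun i => val z (A i) :=
    ⟨_, rfl⟩
  have hmem : ∀ G : MvPolynomial (Fin (M0 + 1)) ℂ, IsForm G → val x G = 0 → val u G = 0 := by
    rintro G ⟨e', hG⟩ hGx
    rw [hudef, ← Pool.Agent.N459.JS.val_comp]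
    refine (hvz _).2 fun t ht => ?_
    exact hf.mem _ ⟨_, hG.aeval A hA⟩ (by rw [hvalG e' G hG, hGx]; simp) _ (ext_inv ht)
  have huR : val u R0 ≠ 0 := by
    rw [hudef, ← Pool.Agent.N459.JS.val_comp]
    intro h0
    apply hft
    have h1 := (hvz _).1 h0 t0⁻¹ (inv_mem_ext (mem_disc.1 ht0))
    rw [inv_inv] at h1
    exact h1
  have huj : u j ≠ 0 := by
    rw [hudef]
    intro h0
    apply hj
    have h1 := (hvz _).1 h0 t1⁻¹ (inv_mem_ext (mem_disc.1 ht1))
    rw [inv_inv] at h1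
    exact h1
  obtain ⟨g, hg, hgx, hgi⟩ := hR2 u hmem huR i j huj
  -- the ratio is the function `g`
  have hAi : ∀ m, u m = cl _ (eval_mero (A m) hM) := by
    intro m
    rw [hudef, hzdef]
    exact Pool.Agent.Y190.AN.val_cl (A m) hM (eval_mero (A m) hM)
  have hrel : ∀ z ∈ (exD 1 one_pos).U, ∀ᶠ w in 𝓝[≠] z,
      MvPolynomial.eval (fun l => f w⁻¹ l) (A i) =
        g w * MvPolynomial.eval (fun l => f w⁻¹ l) (A j) := by
    have h1 : cl _ (eval_mero (A i) hM) = cl (g * fun z => MvPolynomial.eval (fun l => f z⁻¹ l) (A j))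
        (hg.mul (eval_mero (A j) hM)) := by
      rw [← Pool.Agent.Y190.AN.cl_mul hg (eval_mero (A j) hM), hgx, ← hAi, ← hAi,
        div_mul_cancel₀ _ huj]
    exact cl_eq.1 h1
  refine ⟨fun w => g w⁻¹, hgi, ?_⟩
  filter_upwards [hgi.eventually_analyticAt, PB_mem one_pos] with w hw hwP
  have h1 : Tendsto (fun v : ℂ => v⁻¹) (𝓝[≠] w) (𝓝[≠] w⁻¹) := by
    refine tendsto_nhdsWithin_iff.2 ⟨(continuousAt_inv₀ hwP.1).tendsto.mono_left
      nhdsWithin_le_nhds, ?_⟩
    filter_upwards [self_mem_nhdsWithin] with v hv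
    intro h0
    exact hv (inv_injective h0)
  have h2 := h1.eventually (hrel w⁻¹ (inv_mem_ext hwP))
  simp only [inv_inv] at h2
  have hfan : ∀ G : MvPolynomial (Fin (M + 1)) ℂ, AnalyticAt ℂ
      (fun v => MvPolynomial.eval (fun i => f v i) G) w := by
    intro G
    simp only [MvPolynomial.eval_eq']
    apply Finset.analyticAt_fun_sum
    intro α _
    apply AnalyticAt.fun_mul analyticAt_const
    apply Finset.analyticAt_fun_prod
    intro l _
    exact (hPC.an l w hwP).fun_pow _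
  have h3 : AnalyticAt ℂ (fun v => MvPolynomial.eval (fun l => f v l) (A i) -
      g v⁻¹ * MvPolynomial.eval (fun l => f v l) (A j)) w :=
    (hfan (A i)).fun_sub (hw.fun_mul (hfan (A j)))
  have h4 := h3.frequently_zero_iff_eventually_zero.1 (Filter.Eventually.frequently (by
    filter_upwards [h2] with v hv
    rw [hv, sub_self]))
  exact sub_eq_zero.1 h4.self_of_nhds

end Pool.Agent.N115.JS
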