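import Pool.Agent.N115.JT.Stm

/-!
The base of the fibration which is defined by multi-valued maps: subvarieties, punctured discs and
entire curves. The statements of the parts.
-/

set_option autoImplicit false

open FF Pool.Agent.W602.GT Polynomial
open Pool.Agent.Y190.AN (MK exD Minf)
open Pool.Agent.TH466.QG (Sp StronglyGeneral)

namespace Pool.Agent.N115.JS

/-- **JS/1.** Specializations map finitely many given elements of `L` to elements of `E`. -/
def SpreadRange : Prop :=
  ∀ (k L K' : Type) [Field k] [CharZero k] [Field L] [Field K'] [Algebra k L] [Algebra k K']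
    [Algebra L K'] [IsScalarTower k L K'] [FiniteDimensional L K'] (M : ℕ) (x : Fin (M + 1) → L)
    (i1 : Fin (M + 1)), x i1 ≠ 0 → coords k x = ⊤ → ∀ Λ : Set L, Λ.Finite →
    ∃ Θ : Set K', Θ.Finite ∧ ∀ (E K'' : Type) [Field E] [Field K''] [Algebra k E]
      [Algebra k K''] [Algebra E K''] [IsScalarTower k E K''] (S : Sp k K' K'')
      (z : Fin (M + 1) → E),
      (∀ m, S.T (algebraMap L K' (x m / x i1)) (algebraMap E K'' (z m))) →
      (∀ ϑ ∈ Θ, ∃ t, S.T ϑ t) → ∀ l ∈ Λ, ∃ e : E, S.T (algebraMap L K' l) (algebraMap E K'' e)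

/-- **JS/2.** Varieties are pseudo-Picard hyperbolic if the values of enough functions at the
algebroid points near infinity are algebraic over the functions which are meromorphic at
infinity; only specializations are considered which map the finite subset `Λ` of `L` to the field of
the meromorphic functions. -/
def PicardOfL : Prop :=
  ∀ (K' L : Type) [Field K'] [Field L] [Algebra ℂ K'] [Algebra ℂ L] [Algebra L K']
    [IsScalarTower ℂ L K'] [FiniteDimensional L K'] (r n : ℕ), Module.finrank L K' ≤ r →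
    ∀ (y : Fin (n + 1) → K') (i0 : Fin (n + 1)), y i0 ≠ 0 →
    Algebra.IsAlgebraic (coords ℂ y) K' →
    (∃ (Θ : Set K') (Λ : Set L), Θ.Finite ∧ Λ.Finite ∧ ∀ (E : Type) [Field E]
      [Algebra (MK (exD 1 one_pos)) E] [Algebra ℂ E] [IsScalarTower ℂ (MK (exD 1 one_pos)) E]
      [FiniteDimensional (MK (exD 1 one_pos)) E], Module.finrank (MK (exD 1 one_pos)) E ≤ r →
      ∀ S : Sp ℂ K' E, (∀ ϑ ∈ Θ, ∃ z, S.T ϑ z) →
      (∀ l ∈ Λ, ∃ e : MK (exD 1 one_pos), S.T (algebraMap L K' l)
        (algebraMap (MK (exD 1 one_pos)) E e)) →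
      ∀ y' : Fin (n + 1) → E,
      (∀ i, S.T (y i) (y' i)) → ∀ i, IsAlgebraic (Minf 1 one_pos) (y' i / y' i0)) →
    ∀ (M : ℕ) (x : Fin (M + 1) → L), x ≠ 0 → coords ℂ x = ⊤ → Pool.Agent.Y221.PD.PseudoPicard x

/-- **JS/3.** Varieties are strongly of general type if the general specializations of a
generically finite cover are covers of bounded degree of varieties of general type only; only
specializations are considered which map the finite subset `Λ` of `L` to `E`. -/
def StrongOfL : Prop :=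
  ∀ (k K' L : Type) [Field k] [CharZero k] [IsAlgClosed k] [Field K'] [Field L] [Algebra k K']
    [Algebra k L] [Algebra L K'] [IsScalarTower k L K'] [FiniteDimensional L K'] (r n : ℕ),
    Module.finrank L K' ≤ r → ∀ (y : Fin (n + 1) → K') (i0 : Fin (n + 1)), y i0 ≠ 0 →
    Algebra.IsAlgebraic (coords k y) K' →
    (∃ (Θ : Set K') (Λ : Set L), Θ.Finite ∧ Λ.Finite ∧ ∀ (K'' : Type) [Field K'']
      [Algebra k K''] (S : Sp k K' K''), (∀ ϑ ∈ Θ, ∃ z, S.T ϑ z) → ∀ y' : Fin (n + 1) → K'',
      (∀ i, S.T (y i) (y' i)) → ∀ w' : ℕ, 1 ≤ w' → Algebra.trdeg k K'' = w' →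
      Algebra.EssFiniteType k K'' → Algebra.IsAlgebraic (coords k y') K'' →
      ∀ (E : Type) [Field E] [Algebra k E] [Algebra E K''] [IsScalarTower k E K'']
        [FiniteDimensional E K''], Module.finrank E K'' ≤ r →
        (∀ l ∈ Λ, ∃ e : E, S.T (algebraMap L K' l) (algebraMap E K'' e)) →
        (∀ w : ℕ, Algebra.trdeg k L = w → w' ≤ w) → GeneralType k E w') →
    ∀ (M : ℕ) (x : Fin (M + 1) → L), x ≠ 0 → coords k x = ⊤ → StronglyGeneral k x

/-- **JS/4.** The degree of the specializations. -/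
def DegSpec : Prop :=
  ∀ (k L K' : Type) [Field k] [CharZero k] [Field L] [Field K'] [Algebra k L] [Algebra k K']
    [Algebra L K'] [IsScalarTower k L K'] [FiniteDimensional L K'] (q r : ℕ) (z : Fin q → K'),
    Module.finrank L (IntermediateField.adjoin L (Set.range z)) ≤ r →
    ∃ (Θ : Set K') (Λ : Set L), Θ.Finite ∧ Λ.Finite ∧ ∀ (E K'' : Type) [Field E] [Field K'']
      [Algebra k E] [Algebra k K''] [Algebra E K''] [IsScalarTower k E K''] (S : Sp k K' K''),
      (∀ ϑ ∈ Θ, ∃ t, S.T ϑ t) →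
      (∀ l ∈ Λ, ∃ e : E, S.T (algebraMap L K' l) (algebraMap E K'' e)) →
      ∀ z' : Fin q → K'', (∀ j, S.T (z j) (z' j)) →
      FiniteDimensional E (IntermediateField.adjoin E (Set.range z')) ∧
        Module.finrank E (IntermediateField.adjoin E (Set.range z')) ≤ r

/-- **JS/5.** Subfields of finitely generated fields are finitely generated. -/
def SubFG : Prop :=
  ∀ (k L : Type) [Field k] [CharZero k] [Field L] [Algebra k L] [Algebra.EssFiniteType k L]
    (L0 : IntermediateField k L), ∃ S : Set L0, S.Finite ∧ IntermediateField.adjoin k S = ⊤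

/-- `t ↦ (f 0 t : ... : f M t)` is constant. -/
def ConstCurve {M : ℕ} (f : Fin (M + 1) → ℂ → ℂ) : Prop :=
  ∀ (t t' : ℂ) (i j : Fin (M + 1)), f i t * f j t' = f j t * f i t'

/-- **JS/6.** If the base `M₀`, with generic point `x`, of a dominant rational map `M ⇢ M₀` is
pseudo-Brody hyperbolic, then the entire curves in `M`, with generic point `ξ`, which are not
contained in a proper closed subset lie in the fibres. -/
def FibreCurves : Prop :=
  ∀ (L : Type) [Field L] [Algebra ℂ L] (L0 : IntermediateField ℂ L) (M M0 : ℕ)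
    (ξ : Fin (M + 1) → L) (x : Fin (M0 + 1) → L0), ξ ≠ 0 → coords ℂ ξ = ⊤ → x ≠ 0 →
    Pool.Agent.Y221.BD.PseudoBrody x →
    ∃ (R : MvPolynomial (Fin (M + 1)) ℂ) (A : Fin (M0 + 1) → MvPolynomial (Fin (M + 1)) ℂ)
      (d : ℕ) (h : L), IsForm R ∧ val ξ R ≠ 0 ∧ (∀ i, (A i).IsHomogeneous d) ∧ h ≠ 0 ∧
      (∀ i, val ξ (A i) = h * (x i : L)) ∧
      ∀ f, Pool.Agent.Y221.BD.EntireCurve ξ f →
        (∃ t, MvPolynomial.eval (fun i => f i t) R ≠ 0) →
        ConstCurve fun i t => MvPolynomial.eval (fun j => f j t) (A i)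

end Pool.Agent.N115.JS
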