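import Pool.Agent.N115.JS.Gen
import Pool.Agent.N115.JS.Fld
import Pool.Agent.N664.JS.SubFG
import Pool.Agent.Y221.PD.Main
import Pool.Agent.Y216.SV.Hul2

/-!
The base of the fibration which is defined by a family of multi-valued maps: punctured discs, entire
curves, and the fibres.
-/

set_option autoImplicit false
set_option linter.unusedSectionVars false

open FF Pool.Agent.W603.LV Pool.Agent.Y190.BV Polynomial

namespace Pool.Agent.N115.JS

open Pool.Agent.W602.GT (GeneralType coords val IsForm essFinite)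
open Pool.Agent.TH466.QG (StronglyGeneral)
open Pool.Agent.Y190.AN (MK exD Minf)
open Pool.Agent.Y221.PD (PseudoPicard PseudoAbelian PseudoTorus EssentialDisc)
open Pool.Agent.Y221.BD (PseudoBrody EntireCurve)

/-- **Punctured discs**, for points over the field of meromorphic functions. -/
theorem field_joint {L K' : Type} [Field L] [Field K']
    [Algebra ℂ L] [Algebra ℂ K'] [Algebra L K'] [IsScalarTower ℂ L K'] [FiniteDimensional L K']
    {N n r : ℕ} (hN : (r * (r - 1) + 4) * (r * n) < N + 1)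
    {a : Fin (N + 1) → ℂ} (ha : Function.Injective a) {ι : Type} [Finite ι] (sh : ι → Shape N)
    (z : ∀ i, Fin ((sh i).N1 + 1) → K') (H : ι → K'[X])
    (hR : ∀ i, IsR (K := L) a n r (sh i) (z i) (H i))
    (halg : Algebra.IsAlgebraic (IntermediateField.adjoin ℂ (⋃ i, Set.range (z i))) K') {M : ℕ}
    {x : Fin (M + 1) → L} (hx : x ≠ 0) (hgen : coords ℂ x = ⊤) : FieldPicard x := by
  classical
  obtain ⟨q, y, i0, hi0, hy1, hy2, halgy⟩ := exists_enum (k := ℂ) sh z halg
  choose Θ Λ hΘ hΛ hsp using fun i => isR_spec Pool.Agent.N701.JS.degSpec (hR i)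
  refine field_of_l Pool.Agent.N966.JS.spreadRange (r := Module.finrank L K') le_rfl y i0
    (by rw [hi0]; exact one_ne_zero) halgy
    ⟨⋃ i, Θ i, ⋃ i, Λ i, Set.finite_iUnion hΘ, Set.finite_iUnion hΛ, ?_⟩ hx hgen
  intro E _ _ _ _ _ hfrE Sp' hΘ' hΛ' y' hy' m
  choose l hl using hy2
  have hy1' : y' i0 = 1 := by
    have h1 := hy' i0
    rw [hi0] at h1
    exact Sp'.ext h1 Sp'.one
  let z' : ∀ i, Fin ((sh i).N1 + 1) → E := fun i j => y' (l i j)
  have hz' : ∀ i j, Sp'.T (z i j) (z' i j) := by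
    intro i j
    rw [← hl i j]
    exact hy' _
  rw [hy1', div_one]
  rcases hy1 m with h | ⟨i, j, h⟩
  · have h1 := hy' m
    rw [h] at h1
    rw [Sp'.ext h1 Sp'.one]
    exact isAlgebraic_one
  · have h1 := hy' m
    rw [h] at h1
    rw [Sp'.ext h1 (hz' i j)]
    obtain ⟨H', hR'⟩ := hsp i (MK (exD 1 one_pos)) E Sp'
      (fun ϑ hϑ => hΘ' ϑ (Set.mem_iUnion.2 ⟨i, hϑ⟩))
      (fun m hm => hΛ' m (Set.mem_iUnion.2 ⟨i, hm⟩)) (z' i) (hz' i)
    exact isR_minf hN ha hR' j

/-- **Punctured discs in the base.** -/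
theorem base_field {L : Type} [Field L] [Algebra ℂ L] {N n r : ℕ}
    {a : Fin (N + 1) → ℂ} {ι : Type*} (f : ι → Corr ℂ L a n r) (hn : n ≤ N)
    (hN : (r * (r - 1) + 4) * (r * n) < N + 1)
    (ha : Function.Injective a) {D : ℕ} (hD : Algebra.trdeg ℂ L = D) {M : ℕ}
    {x : Fin (M + 1) → baseField f} (hx : x ≠ 0) (hgen : coords ℂ x = ⊤) : FieldPicard x := by
  obtain ⟨K', J, _, sh, z, H, hfd, hR, halg⟩ := base_fin f hn ha hD
  exact field_joint hN ha sh z H hR halg hx hgen

section coe

variable {L : Type} [Field L] [Algebra ℂ L] {L0 : IntermediateField ℂ L} {M : ℕ}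
  {x : Fin (M + 1) → L0}

theorem val_coe_iff {k L : Type} [Field k] [Field L] [Algebra k L] {L0 : IntermediateField k L}
    {M : ℕ} {x : Fin (M + 1) → L0} (G : MvPolynomial (Fin (M + 1)) k) :
    val (fun i => (x i : L)) G = 0 ↔ val x G = 0 := by
  have h : val (fun i => (x i : L)) G = ((val x G : L0) : L) := by
    unfold Pool.Agent.W602.GT.val
    exact MvPolynomial.aeval_algebraMap_apply (R := k) (A := L0) L x G
  rw [h]
  exact ⟨fun h1 => Subtype.ext h1, fun h1 => by rw [h1]; rfl⟩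

theorem picard_coe (h : PseudoPicard x) : PseudoPicard (fun i => (x i : L)) := by
  obtain ⟨R, hR, hR0, h⟩ := h
  exact ⟨R, hR, fun h1 => hR0 ((val_coe_iff R).1 h1), fun f hf => h f
    ⟨hf.hol, hf.ne, fun G hG h1 => hf.mem G hG ((val_coe_iff G).2 h1), hf.ess⟩⟩

theorem strong_coe {k L : Type} [Field k] [Field L] [Algebra k L] {L0 : IntermediateField k L}
    {M : ℕ} {x : Fin (M + 1) → L0} (h : StronglyGeneral k x) :
    StronglyGeneral k (fun i => (x i : L)) := by
  obtain ⟨R, hR, hR0, h⟩ := h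
  exact ⟨R, hR, fun h1 => hR0 ((val_coe_iff R).1 h1), fun E _ _ w z hz => h E w z
    ⟨hz.ne, hz.gen, fun G hG h1 => hz.spec G hG ((val_coe_iff G).2 h1)⟩⟩

/-- a generic point of the whole variety as a point over the base field, if this is everything -/
theorem exists_top {k L : Type} [Field k] [Field L] [Algebra k L] {L0 : IntermediateField k L}
    (h0 : L0 = ⊤) {x : Fin (M + 1) → L} (hx : x ≠ 0) (hgen : coords k x = ⊤) :
    ∃ x' : Fin (M + 1) → L0, (fun i => (x' i : L)) = x ∧ x' ≠ 0 ∧ coords k x' = ⊤ := by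
  subst h0
  let x' : Fin (M + 1) → (⊤ : IntermediateField k L) := fun i => ⟨x i, trivial⟩
  have hcoe : (fun i => (x' i : L)) = x := rfl
  refine ⟨x', hcoe, ?_, ?_⟩
  · intro h
    apply hx
    funext i
    have h1 := congrArg Subtype.val (congrFun h i)
    exact h1
  · have e1 : (coords k x').map (⊤ : IntermediateField k L).val = coords k x := by
      unfold Pool.Agent.W602.GT.coords
      rw [IntermediateField.adjoin_map]
      congr 1
      ext u
      constructor
      · rintro ⟨_, ⟨i, j, hj, rfl⟩, rfl⟩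
        exact ⟨i, j, fun h => hj (Subtype.ext h), rfl⟩
      · rintro ⟨i, j, hj, rfl⟩
        exact ⟨x' i / x' j, ⟨i, j, fun h => hj (congrArg Subtype.val h), rfl⟩, rfl⟩
    rw [eq_top_iff]
    intro u _
    have h2 : (u : L) ∈ (coords k x').map (⊤ : IntermediateField k L).val := by
      rw [e1, hgen]
      exact IntermediateField.mem_top
    obtain ⟨u', hu', huu⟩ := h2
    have h3 : u' = u := Subtype.ext huu
    rw [← h3]
    exact hu'

end coe

/-- the base has projective models -/
theorem exists_model {k L : Type} [Field k] [CharZero k] [Field L] [Algebra k L]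
    [Algebra.EssFiniteType k L] (L0 : IntermediateField k L) :
    ∃ (M0 : ℕ) (x : Fin (M0 + 1) → L0), x ≠ 0 ∧ coords k x = ⊤ := by
  classical
  obtain ⟨S, hS, hgen⟩ := Pool.Agent.N664.JS.subFG k L L0
  set V : Set L0 := {1} ∪ S with hV
  have hVf : V.Finite := (Set.finite_singleton _).union hS
  obtain ⟨q, y, hy⟩ : ∃ (q : ℕ) (y : Fin (q + 1) → L0), Set.range y = V := by
    obtain ⟨q, y, hy⟩ := hVf.fin_param
    cases q with
    | zero =>
      exfalso
      have h1 : (1 : L0) ∈ V := Or.inl rfl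
      rw [← hy.2] at h1
      obtain ⟨l, -⟩ := h1
      exact l.elim0
    | succ q => exact ⟨q, y, hy.2⟩
  have h1 : (1 : L0) ∈ V := Or.inl rfl
  rw [← hy] at h1
  obtain ⟨i0, hi0⟩ := h1
  refine ⟨q, y, fun h => ?_, ?_⟩
  · have h2 := congrFun h i0
    rw [hi0] at h2
    exact one_ne_zero h2
  · rw [eq_top_iff, ← hgen, IntermediateField.adjoin_le_iff]
    intro u hu
    have h3 : u ∈ V := Or.inr hu
    rw [← hy] at h3
    obtain ⟨l, rfl⟩ := h3
    have h4 : y l / y i0 ∈ coords k y :=
      IntermediateField.subset_adjoin k _ ⟨l, i0, by rw [hi0]; exact one_ne_zero, rfl⟩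
    rwa [hi0, div_one] at h4

/-- dense entire curves, and constant images -/
theorem const_of_dense {L : Type} [Field L] [Algebra ℂ L] (L0 : IntermediateField ℂ L)
    {M M0 : ℕ} {ξ : Fin (M + 1) → L} {x : Fin (M0 + 1) → L0} (hx : x ≠ 0)
    (hgen : coords ℂ x = ⊤)
    {A : Fin (M0 + 1) → MvPolynomial (Fin (M + 1)) ℂ} {d : ℕ} {h : L}
    (hA : ∀ i, (A i).IsHomogeneous d) (hh : h ≠ 0) (hAx : ∀ i, val ξ (A i) = h * (x i : L))
    {f : Fin (M + 1) → ℂ → ℂ}
    (hdense : ∀ G : MvPolynomial (Fin (M + 1)) ℂ, IsForm G →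
      (∀ t, MvPolynomial.eval (fun j => f j t) G = 0) → val ξ G = 0)
    (hc : ConstCurve fun i t => MvPolynomial.eval (fun j => f j t) (A i)) : L0 = ⊥ := by
  classical
  obtain ⟨i1, hi1⟩ : ∃ i, x i ≠ 0 := by
    by_contra hcon
    push Not at hcon
    exact hx (funext hcon)
  have hi1L : (x i1 : L) ≠ 0 := fun h0 => hi1 (Subtype.ext h0)
  obtain ⟨t', ht'⟩ : ∃ t', MvPolynomial.eval (fun j => f j t') (A i1) ≠ 0 := by
    by_contra hcon
    push Not at hcon
    have h1 := hdense (A i1) ⟨d, hA i1⟩ hcon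
    rw [hAx i1] at h1
    exact mul_ne_zero hh hi1L h1
  set c : Fin (M0 + 1) → ℂ := fun i => MvPolynomial.eval (fun j => f j t') (A i) with hcdef
  have hrel : ∀ i, c i1 • (x i : L) = c i • (x i1 : L) := by
    intro i
    have h1 : val ξ (MvPolynomial.C (c i1) * A i - MvPolynomial.C (c i) * A i1) = 0 := by
      refine hdense _ ⟨d, ?_⟩ fun t => ?_
      · have h2 := ((MvPolynomial.isHomogeneous_C (Fin (M + 1)) (c i1)).mul (hA i)).sub
          ((MvPolynomial.isHomogeneous_C (Fin (M + 1)) (c i)).mul (hA i1))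
        rwa [zero_add] at h2
      · rw [map_sub, map_mul, map_mul, MvPolynomial.eval_C, MvPolynomial.eval_C]
        have h2 := hc t t' i i1
        simp only [hcdef]
        linear_combination h2
    have h2 : val ξ (MvPolynomial.C (c i1) * A i - MvPolynomial.C (c i) * A i1) =
        h * (c i1 • (x i : L) - c i • (x i1 : L)) := by
      unfold Pool.Agent.W602.GT.val
      rw [map_sub, map_mul, map_mul, MvPolynomial.aeval_C, MvPolynomial.aeval_C]
      have h3 : MvPolynomial.aeval ξ (A i) = h * (x i : L) := hAx i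
      have h4 : MvPolynomial.aeval ξ (A i1) = h * (x i1 : L) := hAx i1
      rw [h3, h4, Algebra.smul_def, Algebra.smul_def]
      ring
    rw [h2] at h1
    exact sub_eq_zero.1 ((mul_eq_zero.1 h1).resolve_left hh)
  have hle : coords ℂ x ≤ ⊥ := by
    refine coords_le x ⊥ fun i j hj => ?_
    rw [IntermediateField.mem_bot]
    have hjL : (x j : L) ≠ 0 := fun h0 => hj (Subtype.ext h0)
    have hc1 : c i1 ≠ 0 := ht'
    have hcj : c j ≠ 0 := by
      intro h0
      have h1 := hrel j
      rw [h0, zero_smul, Algebra.smul_def] at h1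
      exact mul_ne_zero ((_root_.map_ne_zero _).2 hc1) hjL h1
    refine ⟨c i / c j, ?_⟩
    apply Subtype.ext
    change algebraMap ℂ L (c i / c j) = (x i : L) / (x j : L)
    have h1 := hrel i
    have h2 := hrel j
    rw [Algebra.smul_def, Algebra.smul_def] at h1 h2
    have hc1' : algebraMap ℂ L (c i1) ≠ 0 := (_root_.map_ne_zero _).2 hc1
    have hcj' : algebraMap ℂ L (c j) ≠ 0 := (_root_.map_ne_zero _).2 hcj
    rw [map_div₀, div_eq_div_iff hcj' hjL]
    apply mul_left_cancel₀ hc1'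
    linear_combination algebraMap ℂ L (c i) * h2 - algebraMap ℂ L (c j) * h1
  rw [eq_bot_iff]
  intro u hu
  have h1 : (⟨u, hu⟩ : L0) ∈ (⊥ : IntermediateField ℂ L0) := by
    apply hle
    rw [hgen]
    exact IntermediateField.mem_top
  rw [IntermediateField.mem_bot] at h1
  obtain ⟨c, hc⟩ := h1
  rw [IntermediateField.mem_bot]
  exact ⟨c, congrArg Subtype.val hc⟩

end Pool.Agent.N115.JS
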