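import Pool.Agent.N115.JS.Cor
import Pool.Agent.N966.JS.Spread
import Pool.Agent.N701.JS.DegSpec
import Pool.Agent.N835.JS.StrongOfL

/-!
The base of the fibration which is defined by a family of multi-valued maps is of general type and
strongly of general type.
-/

set_option autoImplicit false
set_option linter.unusedSectionVars false

open FF Pool.Agent.W603.LV Pool.Agent.Y190.BV Polynomial

namespace Pool.Agent.N115.JS

open Pool.Agent.W602.GT (GeneralType coords)
open Pool.Agent.TH466.QG (StronglyGeneral)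
open Pool.Agent.N115.JT (trans_alg adjoin_alg comb map_dat Dat card_zeros)

/-- reduced maps and homomorphisms -/
theorem IsR.map {k K Q Q' : Type} [Field k] [Field K] [Field Q] [Field Q'] [Algebra k K]
    [Algebra k Q] [Algebra K Q] [IsScalarTower k K Q] [Algebra k Q'] [Algebra K Q']
    [IsScalarTower k K Q'] [CharZero k] {N : ℕ} {a : Fin (N + 1) → k} {n r : ℕ} {s : Shape N}
    {z : Fin (s.N1 + 1) → Q} {H : Q[X]} (h : IsR (K := K) a n r s z H) (φ : Q →ₐ[K] Q') :
    IsR (K := K) a n r s (fun j => φ (z j)) (H.map φ.toRingHom) := by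
  let _ : Algebra Q Q' := φ.toRingHom.toAlgebra
  have t1 : IsScalarTower K Q Q' := IsScalarTower.of_algebraMap_eq fun x => (φ.commutes x).symm
  have t2 : IsScalarTower k Q Q' := by
    refine IsScalarTower.of_algebraMap_eq fun x => ?_
    rw [IsScalarTower.algebraMap_apply k K Q, IsScalarTower.algebraMap_apply k K Q']
    exact (φ.commutes _).symm
  exact h.ext (Q' := Q')

/-- the discriminant and the polynomial of a reduced map, and all its conjugates -/
theorem IsR.dats {k K Ω : Type} [Field k] [Field K] [Field Ω] [Algebra k K] [Algebra k Ω]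
    [Algebra K Ω] [IsScalarTower k K Ω] [CharZero k] [IsAlgClosed k] [IsAlgClosed Ω] {N : ℕ}
    {a : Fin (N + 1) → k} {n r : ℕ} {s : Shape N} {z : Fin (s.N1 + 1) → Ω} {H : Polynomial Ω}
    (ha : Function.Injective a) (h : IsR (K := K) a n r s z H) :
    ∃ Z : Finset (Fin (N + 1)), Z.card ≤ n ∧ ∀ i0 ∉ Z, ∃ (F : K[X]) (b : ℕ) (δ : K),
      Dat r n a Z F b δ ∧ ∀ (g : Ω →ₐ[K] Ω) (j),
        IsAlgebraic (IntermediateField.adjoin k (F.rootSet Ω)) (g (z j)) := by
  classical
  have ha' : Function.Injective fun j => a (s.c j) := ha.comp h.inj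
  have hm := h.two_le
  have hNN : s.N1 ≤ N := by
    have h1 := Fintype.card_le_of_injective s.c h.inj
    rw [Fintype.card_fin, Fintype.card_fin] at h1
    omega
  obtain ⟨z', H', hz', hz1, hH', hdeg', hval', hfree'⟩ := h.down ha
  have hfd := h.fin
  set Z1 : Finset (Fin (s.N1 + 1)) := Finset.univ.filter fun j => z' j = 0 with hZ1
  have hZ1' : ∀ j, j ∈ Z1 ↔ z' j = 0 := fun j => by rw [hZ1, Finset.mem_filter]; simp
  set Z : Finset (Fin (N + 1)) := Finset.univ.filter fun i => ∀ j, s.c j = i → j ∈ Z1 with hZ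
  have hZ' : ∀ i, i ∉ Z ↔ ∃ j, s.c j = i ∧ j ∉ Z1 := by
    intro i
    rw [hZ, Finset.mem_filter]
    simp only [Finset.mem_univ, true_and]
    push Not
    rfl
  have hZ1c : Z1.card ≤ s.n1 :=
    (card_zeros (by omega : 1 ≤ s.m) ha' hH' hval' hZ1').trans hdeg'
  have hZc : Z.card ≤ n := by
    have h2 : Zᶜ = Z1ᶜ.image s.c := by
      ext i
      rw [Finset.mem_compl, hZ', Finset.mem_image]
      constructor
      · rintro ⟨j, h3, h4⟩
        exact ⟨j, Finset.mem_compl.2 h4, h3⟩
      · rintro ⟨j, h3, h4⟩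
        exact ⟨j, h4, Finset.mem_compl.1 h3⟩
    have h3 := congrArg Finset.card h2
    rw [Finset.card_image_of_injective _ h.inj, Finset.card_compl, Finset.card_compl,
      Fintype.card_fin, Fintype.card_fin] at h3
    have h4 : Z.card ≤ N + 1 := by
      have := Finset.card_le_univ Z
      rwa [Fintype.card_fin] at this
    have := h.bound
    omega
  refine ⟨Z, hZc, fun i0 hi0 => ?_⟩
  obtain ⟨F, b, δ, hD, hv⟩ := map_dat Pool.Agent.N603.JT.RootsAlg.main (k := k) (K := K)
    (E := IntermediateField.adjoin K (Set.range z)) (r := r) (n := s.n1) (m := s.m)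
    (N := s.N1) h.degree hm h.le1 (a := fun j => a (s.c j)) ha' hH' hdeg' hval' hfree'
    (i0 := s.j0) (by rw [hz1]; exact one_ne_zero) hZ1'
  refine ⟨F, b, δ, hD.extend h.inj hZ' h.bound, fun g j => ?_⟩
  have h1 := hv Ω (g.comp (IntermediateField.adjoin K (Set.range z)).val) j
  rw [hz1, div_one] at h1
  have h2 : (g.comp (IntermediateField.adjoin K (Set.range z)).val) (z' j) = g (z j) :=
    congrArg g (hz' j)
  rwa [h2] at h1

/-- **Fields which are algebraic over the conjugates of reduced maps are of general type.** -/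
theorem general_of_fam {k K Ω : Type} [Field k] [Field K] [Field Ω] [Algebra k K] [Algebra k Ω]
    [Algebra K Ω] [IsScalarTower k K Ω] [CharZero k] [IsAlgClosed k] [IsAlgClosed Ω]
    [Algebra.IsAlgebraic K Ω] {N n r S : ℕ} (hr : 1 ≤ r)
    (hN : 4 * (S * (r * n)) + (S * (r * n) + S * (r * (r - 1)) + 1) ^ 2 < 2 * (N + 1))
    {a : Fin (N + 1) → k} (ha : Function.Injective a) {D : ℕ} (hD : Algebra.trdeg k K = D)
    {T : Type} (hfin : D ≤ S ∨ Finite T ∧ Nat.card T ≤ S) (sh : T → Shape N)
    (z : ∀ t, Fin ((sh t).N1 + 1) → Ω)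
    (H : T → Polynomial Ω) (hR : ∀ t, IsR (K := K) a n r (sh t) (z t) (H t))
    (hA : ∀ x : K, IsAlgebraic (IntermediateField.adjoin k
      (⋃ t, {v | ∃ (g : Ω →ₐ[K] Ω) (j : _), v = g (z t j)})) (algebraMap K Ω x)) :
    GeneralType k K D := by
  classical
  have hDΩ : Algebra.trdeg k Ω = D := by
    rw [← hD, ← trdeg_add_eq k K (A := Ω)]
    have h1 : Algebra.trdeg K Ω = 0 := by
      rw [trdeg_eq_zero_iff]
      infer_instance
    rw [h1, add_zero]
  let V : T → Set Ω := fun t => {v | ∃ (g : Ω →ₐ[K] Ω) (j : _), v = g (z t j)}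
  obtain ⟨I, hI, hsel⟩ := Pool.Agent.N966.JT.select k Ω D hDΩ T V S hfin
  choose Z hZ hdat using fun i => (hR i).dats ha
  have hsn : S * n ≤ S * (r * n) := Nat.mul_le_mul_left _ (Nat.le_mul_of_pos_left _ hr)
  obtain ⟨i0, hi0⟩ : ∃ i0 : Fin (N + 1), ∀ t ∈ I, i0 ∉ Z t := by
    by_contra hcon
    push Not at hcon
    have h1 : (Finset.univ : Finset (Fin (N + 1))) ⊆ I.biUnion Z := by
      intro i _
      obtain ⟨t, ht, hi⟩ := hcon i
      exact Finset.mem_biUnion.2 ⟨t, ht, hi⟩
    have h2 := Finset.card_le_card h1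
    rw [Finset.card_univ, Fintype.card_fin] at h2
    have h3 : (I.biUnion Z).card ≤ I.card * n :=
      Finset.card_biUnion_le_card_mul _ _ _ fun t _ => hZ t
    have h4 : I.card * n ≤ S * n := Nat.mul_le_mul_right _ hI
    omega
  have hdat' : ∀ t : T, ∃ (F : K[X]) (b : ℕ) (δ : K), t ∈ I →
      (Dat r n a (Z t) F b δ ∧ ∀ (g : Ω →ₐ[K] Ω) (j),
        IsAlgebraic (IntermediateField.adjoin k (F.rootSet Ω)) (g (z t j))) := by
    intro t
    by_cases ht : t ∈ I
    · obtain ⟨F, b, δ, h⟩ := hdat t i0 (hi0 t ht)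
      exact ⟨F, b, δ, fun _ => h⟩
    · exact ⟨0, 0, 0, fun h => absurd h ht⟩
  choose F b δ hFd using hdat'
  refine comb (Ω := Ω) hr hD hN ha I hI (Z := Z) (F := F) (b := b) (δ := δ)
    (fun t ht => (hFd t ht).1) hi0 fun x => ?_
  set B := IntermediateField.adjoin k (⋃ t ∈ I, (F t).rootSet Ω) with hB
  have h1 : ∀ t ∈ I, ∀ v ∈ V t, IsAlgebraic B v := by
    rintro t ht _ ⟨g, j, rfl⟩
    refine trans_alg ?_ ((hFd t ht).2 g j)
    refine adjoin_alg fun u hu => ?_
    exact isAlgebraic_algebraMap (⟨u, IntermediateField.subset_adjoin k _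
      (Set.mem_biUnion ht hu)⟩ : B)
  have h2 : ∀ t, ∀ v ∈ V t, IsAlgebraic B v := by
    intro t v hv
    refine trans_alg ?_ (hsel t v hv)
    refine adjoin_alg fun u hu => ?_
    simp only [Set.mem_iUnion] at hu
    obtain ⟨t', ht', hu⟩ := hu
    exact h1 t' ht' u hu
  refine trans_alg ?_ (hA x)
  refine adjoin_alg fun u hu => ?_
  rw [Set.mem_iUnion] at hu
  obtain ⟨t, hu⟩ := hu
  exact h2 t u hu

variable {k L : Type} [Field k] [Field L] [Algebra k L] {N n r : ℕ} {a : Fin (N + 1) → k}

/-- **Reduced maps for the base of the fibration.** -/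
theorem base_fin [CharZero k] {ι : Type*} (f : ι → Corr k L a n r)
    (hn : n ≤ N) (ha : Function.Injective a) {D : ℕ} (hD : Algebra.trdeg k L = D) :
    ∃ (K' : IntermediateField (baseField f) (AlgebraicClosure L)) (J : Type) (_ : Finite J)
      (sh : J → Shape N) (z : ∀ i, Fin ((sh i).N1 + 1) → K') (H : J → K'[X]),
      FiniteDimensional (baseField f) K' ∧
      (∀ i, IsR (K := baseField f) a n r (sh i) (z i) (H i)) ∧
      Algebra.IsAlgebraic (IntermediateField.adjoin k (⋃ i, Set.range (z i))) K' := by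
  classical
  let T : Type := {V : Set (AlgebraicClosure L) // ∃ i, V = (f i).values}
  choose α hα using fun t : T => t.2
  have hDΩ : Algebra.trdeg k (AlgebraicClosure L) = D := by
    rw [← hD, ← trdeg_add_eq k L (A := AlgebraicClosure L)]
    have h1 : Algebra.trdeg L (AlgebraicClosure L) = 0 := by
      rw [trdeg_eq_zero_iff]
      infer_instance
    rw [h1, add_zero]
  obtain ⟨I, hI, hsel⟩ := Pool.Agent.N966.JT.select k (AlgebraicClosure L) D hDΩ T
    (fun t => t.1) D (Or.inl le_rfl)
  let J : Type := Σ t : I, ((f (α t)).E →ₐ[L] AlgebraicClosure L)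
  have hJ : Finite J := inferInstance
  choose sh z0 H0 hR0 _ hal using fun t : I => (f (α t)).exists_isR hn ha (baseField f)
    (base_closed f) (base_coords f (α t))
  have tΩ : IsScalarTower k (baseField f) (AlgebraicClosure L) := inferInstance
  let z : ∀ j : J, Fin ((sh j.1).N1 + 1) → AlgebraicClosure L := fun j l => j.2 (z0 j.1 l)
  have hR : ∀ j : J, IsR (K := baseField f) a n r (sh j.1) (z j)
      ((H0 j.1).map (j.2.restrictScalars (baseField f)).toRingHom) := fun j =>
    (hR0 j.1).map (j.2.restrictScalars (baseField f))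
  set V : Set (AlgebraicClosure L) := ⋃ j, Set.range (z j) with hV
  have hVf : V.Finite := Set.finite_iUnion fun i => Set.finite_range _
  let K' : IntermediateField (baseField f) (AlgebraicClosure L) :=
    IntermediateField.adjoin (baseField f) V
  have hint : ∀ v ∈ V, IsIntegral (baseField f) v := by
    intro v hv
    rw [hV, Set.mem_iUnion] at hv
    obtain ⟨i, j, rfl⟩ := hv
    have h1 := (hR i).fin
    have h2 : IsIntegral (baseField f) (⟨z i j, IntermediateField.subset_adjoin _ _ ⟨j, rfl⟩⟩ :
      IntermediateField.adjoin (baseField f) (Set.range (z i))) := IsIntegral.of_finite _ _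
    exact h2.map (IntermediateField.adjoin (baseField f) (Set.range (z i))).val
  have hfd : FiniteDimensional (baseField f) K' := by
    have hVf' : Finite V := hVf
    exact IntermediateField.finiteDimensional_adjoin hint
  choose z' H' hz' hR' using fun i => (hR i).inn ha K' fun j =>
    IntermediateField.subset_adjoin _ _ (Set.mem_iUnion.2 ⟨i, j, rfl⟩)
  refine ⟨K', J, hJ, fun j => sh j.1, z', H', hfd, hR', ⟨fun u => ?_⟩⟩
  refine alg_down (K'.val.restrictScalars k) _ u ?_
  have himg : (K'.val.restrictScalars k) '' (⋃ i, Set.range (z' i)) = V := by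
    rw [Set.image_iUnion, hV]
    refine Set.iUnion_congr fun i => ?_
    rw [← Set.range_comp]
    congr 1
    funext j
    exact hz' i j
  rw [himg]
  set B := IntermediateField.adjoin k V with hB
  -- the values are algebraic over `B`
  have h1 : ∀ t ∈ I, ∀ v ∈ (f (α t)).values, IsAlgebraic B v := by
    rintro t ht _ ⟨σ, i, j, hj, rfl⟩
    have h2 : σ ((f (α t)).red i / (f (α t)).red j) ∈ B := by
      have h3 : (IntermediateField.adjoin k (Set.range (z0 ⟨t, ht⟩))).map (σ.restrictScalars k) ≤
          B := by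
        rw [IntermediateField.adjoin_map, hB, IntermediateField.adjoin_le_iff]
        rintro _ ⟨_, ⟨l, rfl⟩, rfl⟩
        exact IntermediateField.subset_adjoin k _ (Set.mem_iUnion.2 ⟨⟨⟨t, ht⟩, σ⟩, l, rfl⟩)
      exact h3 ⟨_, hal ⟨t, ht⟩ i j hj, rfl⟩
    exact isAlgebraic_algebraMap (⟨_, h2⟩ : B)
  have h2 : ∀ i, ∀ v ∈ (f i).values, IsAlgebraic B v := by
    intro i v hv
    refine trans_alg ?_ (hsel ⟨(f i).values, i, rfl⟩ v hv)
    refine adjoin_alg fun z hz => ?_
    simp only [Set.mem_iUnion] at hz
    obtain ⟨t, ht, hz⟩ := hz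
    rw [hα t] at hz
    exact h1 t ht z hz
  have h3 : ∀ x : baseField f, IsAlgebraic B (algebraMap L (AlgebraicClosure L) x) := by
    intro x
    refine trans_alg ?_ ((mem_baseField f x.1).1 x.2)
    refine adjoin_alg fun z hz => ?_
    rw [Set.mem_iUnion] at hz
    obtain ⟨i, hz⟩ := hz
    exact h2 i z hz
  -- elements which are algebraic over the base field
  let φ : L →ₐ[k] AlgebraicClosure L := IsScalarTower.toAlgHom k L (AlgebraicClosure L)
  let B1 : IntermediateField k (AlgebraicClosure L) := (baseField f).map φ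
  have h4 : ∀ x ∈ B1, IsAlgebraic B x := by
    rintro _ ⟨x, hx, rfl⟩
    exact h3 ⟨x, hx⟩
  refine trans_alg h4 ?_
  let ψ : baseField f →+* B1 :=
    { toFun := fun z => ⟨φ z, z, z.2, rfl⟩
      map_one' := Subtype.ext (map_one _)
      map_mul' := fun x y => Subtype.ext (map_mul _ _ _)
      map_zero' := Subtype.ext (map_zero _)
      map_add' := fun x y => Subtype.ext (map_add _ _ _) }
  let _ : Algebra (baseField f) B1 := ψ.toAlgebra
  have t1 : IsScalarTower (baseField f) B1 (AlgebraicClosure L) :=
    IsScalarTower.of_algebraMap_eq fun x => rfl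
  have h5 : IsAlgebraic (baseField f) (u : AlgebraicClosure L) :=
    (isAlgebraic_algHom_iff K'.val K'.val.toRingHom.injective).2
      ((Algebra.IsAlgebraic.of_finite (baseField f) K').isAlgebraic u)
  exact h5.extendScalars ψ.injective

/-- the elements of the algebraic closure of the base field -/
theorem mem_closure_base [CharZero k] {ι : Type*} (f : ι → Corr k L a n r) :
    (algebraicClosure (baseField f) (AlgebraicClosure L)).restrictScalars k =
      (algebraicClosure (IntermediateField.adjoin k (⋃ i, (f i).values))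
        (AlgebraicClosure L)).restrictScalars k := by
  let φ : L →ₐ[k] AlgebraicClosure L := IsScalarTower.toAlgHom k L (AlgebraicClosure L)
  apply le_antisymm
  · intro u hu
    have hu' : IsAlgebraic (baseField f) u := mem_algebraicClosure_iff.1 hu
    refine mem_algebraicClosure_iff.2 ?_
    let B1 : IntermediateField k (AlgebraicClosure L) := (baseField f).map φ
    have h4 : ∀ x ∈ B1, IsAlgebraic (IntermediateField.adjoin k (⋃ i, (f i).values)) x := by
      rintro _ ⟨x, hx, rfl⟩
      exact (mem_baseField f x).1 hx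
    refine trans_alg h4 ?_
    let ψ : baseField f →+* B1 :=
      { toFun := fun z => ⟨φ z, z, z.2, rfl⟩
        map_one' := Subtype.ext (map_one _)
        map_mul' := fun x y => Subtype.ext (map_mul _ _ _)
        map_zero' := Subtype.ext (map_zero _)
        map_add' := fun x y => Subtype.ext (map_add _ _ _) }
    let _ : Algebra (baseField f) B1 := ψ.toAlgebra
    have t1 : IsScalarTower (baseField f) B1 (AlgebraicClosure L) :=
      IsScalarTower.of_algebraMap_eq fun x => rfl
    exact hu'.extendScalars ψ.injective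
  · intro u hu
    have hu' : IsAlgebraic (IntermediateField.adjoin k (⋃ i, (f i).values)) u :=
      mem_algebraicClosure_iff.1 hu
    refine mem_algebraicClosure_iff.2 ?_
    let C : IntermediateField k (AlgebraicClosure L) :=
      (algebraicClosure (baseField f) (AlgebraicClosure L)).restrictScalars k
    have h1 : IntermediateField.adjoin k (⋃ i, (f i).values) ≤ C := by
      rw [IntermediateField.adjoin_le_iff]
      intro v hv
      exact mem_algebraicClosure_iff.2 ((base_main f).1 v hv)
    have h2 : IsAlgebraic C u := by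
      let _ : Algebra (IntermediateField.adjoin k (⋃ i, (f i).values)) C :=
        (IntermediateField.inclusion h1).toRingHom.toAlgebra
      have t1 : IsScalarTower (IntermediateField.adjoin k (⋃ i, (f i).values)) C
          (AlgebraicClosure L) := IsScalarTower.of_algebraMap_eq fun x => rfl
      exact hu'.extendScalars (IntermediateField.inclusion h1).toRingHom.injective
    have h3 : IsAlgebraic (algebraicClosure (baseField f) (AlgebraicClosure L)) u := h2
    have h7 : Algebra.IsAlgebraic (baseField f)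
      (algebraicClosure (baseField f) (AlgebraicClosure L)) := algebraicClosure.isAlgebraic _ _
    exact h3.restrictScalars (baseField f)

/-- **The base of the fibration is of general type.** -/
theorem base_general [CharZero k] [IsAlgClosed k] {ι : Type} (f : ι → Corr k L a n r)
    (hr : 1 ≤ r) (hn : n ≤ N) {S : ℕ}
    (hN : 4 * (S * (r * n)) + (S * (r * n) + S * (r * (r - 1)) + 1) ^ 2 < 2 * (N + 1))
    (ha : Function.Injective a) {w : ℕ} (hw : Algebra.trdeg k (baseField f) = w)
    (hfin : w ≤ S ∨ Finite ι ∧ Nat.card ι ≤ S) : GeneralType k (baseField f) w := by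
  classical
  -- the algebraic closure of the base field
  let Ω : IntermediateField (baseField f) (AlgebraicClosure L) :=
    algebraicClosure (baseField f) (AlgebraicClosure L)
  have hΩac : IsAlgClosed Ω := by
    have h1 : IsAlgClosure (baseField f) Ω :=
      algebraicClosure.isAlgClosure (baseField f) (AlgebraicClosure L)
    exact h1.isAlgClosed
  have hΩalg : Algebra.IsAlgebraic (baseField f) Ω := algebraicClosure.isAlgebraic _ _
  have tΩ : IsScalarTower k (baseField f) (AlgebraicClosure L) := inferInstance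
  choose sh z0 H0 hR0 hz0 hal using fun i : ι => (f i).exists_isR hn ha (baseField f)
    (base_closed f) (base_coords f i)
  let σ : ∀ i, (f i).E →ₐ[L] AlgebraicClosure L := fun i => IsAlgClosed.lift
  have hR : ∀ i, IsR (K := baseField f) a n r (sh i) (fun l => σ i (z0 i l))
      ((H0 i).map ((σ i).restrictScalars (baseField f)).toRingHom) := fun i =>
    (hR0 i).map ((σ i).restrictScalars (baseField f))
  have hzΩ : ∀ i l, σ i (z0 i l) ∈ Ω := by
    intro i l
    obtain ⟨i', j', hj', h1⟩ := hz0 i l
    rw [h1]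
    exact mem_algebraicClosure_iff.2
      ((base_main f).1 _ (Set.mem_iUnion.2 ⟨i, σ i, i', j', hj', rfl⟩))
  choose z' H' hz' hR' using fun i => (hR i).inn ha Ω (hzΩ i)
  refine general_of_fam (Ω := Ω) hr hN ha hw hfin sh z' H' hR' fun x => ?_
  set V : Set Ω := ⋃ t, {v | ∃ (g : Ω →ₐ[baseField f] Ω) (j : _), v = g (z' t j)} with hV
  refine alg_down (Ω.val.restrictScalars k) V (algebraMap (baseField f) Ω x) ?_
  set B := IntermediateField.adjoin k ((Ω.val.restrictScalars k) '' V) with hB
  have h1 : ∀ i, ∀ v ∈ (f i).values, v ∈ B := by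
    rintro i _ ⟨τ, i', j', hj', rfl⟩
    -- an automorphism which takes `σ i` to `τ`
    obtain ⟨g, hg⟩ : ∃ g : AlgebraicClosure L →ₐ[L] AlgebraicClosure L, g.comp (σ i) = τ := by
      let _ : Algebra (f i).E (AlgebraicClosure L) := (σ i).toRingHom.toAlgebra
      have t1 : IsScalarTower L (f i).E (AlgebraicClosure L) :=
        IsScalarTower.of_algebraMap_eq fun x => ((σ i).commutes x).symm
      have halgE : Algebra.IsAlgebraic (f i).E (AlgebraicClosure L) :=
        Algebra.IsAlgebraic.tower_top (K := L) (f i).E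
      obtain ⟨g, hg⟩ : ∃ g : AlgebraicClosure L →ₐ[L] AlgebraicClosure L,
          g.domRestrict (f i).E = τ := by
        have := IsAlgClosed.surjective_domRestrict_of_isAlgebraic
          (K := L) (L := (f i).E) (M := AlgebraicClosure L) (E := AlgebraicClosure L)
        exact this τ
      exact ⟨g, hg⟩
    -- its restriction to `Ω`
    let g1 : AlgebraicClosure L →ₐ[baseField f] AlgebraicClosure L :=
      g.restrictScalars (baseField f)
    have hg1 : ∀ u : Ω, g1 u ∈ Ω := by
      intro u
      have h2 : IsAlgebraic (baseField f) (u : AlgebraicClosure L) :=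
        mem_algebraicClosure_iff.1 u.2
      exact mem_algebraicClosure_iff.2 ((isAlgebraic_algHom_iff g1 g1.toRingHom.injective).2 h2)
    let g2 : Ω →ₐ[baseField f] Ω :=
      { toFun := fun u => ⟨g1 u, hg1 u⟩
        map_one' := Subtype.ext (map_one _)
        map_mul' := fun x y => Subtype.ext (map_mul _ _ _)
        map_zero' := Subtype.ext (map_zero _)
        map_add' := fun x y => Subtype.ext (map_add _ _ _)
        commutes' := fun c => Subtype.ext (g1.commutes c) }
    have h3 : (IntermediateField.adjoin k (Set.range (z0 i))).map (τ.restrictScalars k) ≤ B := by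
      rw [IntermediateField.adjoin_map, hB, IntermediateField.adjoin_le_iff]
      rintro _ ⟨_, ⟨l, rfl⟩, rfl⟩
      refine IntermediateField.subset_adjoin k _ ⟨g2 (z' i l), Set.mem_iUnion.2 ⟨i, g2, l, rfl⟩, ?_⟩
      change g (z' i l : AlgebraicClosure L) = τ (z0 i l)
      rw [hz' i l, ← hg]
      rfl
    exact h3 ⟨_, hal i i' j' hj', rfl⟩
  refine trans_alg ?_ ((mem_baseField f x.1).1 x.2)
  refine adjoin_alg fun u hu => ?_
  rw [Set.mem_iUnion] at hu
  obtain ⟨i, hu⟩ := hu
  exact isAlgebraic_algebraMap (⟨u, h1 i u hu⟩ : B)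

/-- **Subvarieties of the base.** -/
theorem base_strong [CharZero k] [IsAlgClosed k] {ι : Type*} (f : ι → Corr k L a n r)
    (hr : 1 ≤ r) (hn : n ≤ N) {S : ℕ}
    (hN : 4 * (S * (r * n)) + (S * (r * n) + S * (r * (r - 1)) + 1) ^ 2 < 2 * (N + 1))
    (ha : Function.Injective a) {D : ℕ} (hD : Algebra.trdeg k L = D) {w : ℕ}
    (hw : Algebra.trdeg k (baseField f) = w) (hwS : w ≤ S) {M : ℕ}
    {x : Fin (M + 1) → baseField f} (hx : x ≠ 0) (hgen : coords k x = ⊤) :
    StronglyGeneral k x := by
  obtain ⟨K', J, _, sh, z, H, hfd, hR, halg⟩ := base_fin f hn ha hD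
  exact strong_joint (Pool.Agent.N835.JS.strong_of_l Pool.Agent.N966.JS.spreadRange)
    Pool.Agent.N701.JS.degSpec hr hN ha hw hwS sh z H hR halg hx hgen

end Pool.Agent.N115.JS
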