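import Pool.Agent.N115.JS.Fin

/-!
Maps whose reduced map is constant.
-/

set_option autoImplicit false
set_option linter.unusedSectionVars false

open FF Polynomial

namespace Pool.Agent.N115.JS

open Pool.Agent.W602.GT (GeneralType coords val IsForm essFinite)
open Pool.Agent.Y216.SV (InLinearSpace inLinear_of_str)

variable {k L : Type} [Field k] [Field L] [Algebra k L] {N n r : ℕ} {a : Fin (N + 1) → k}

/-- the structure of the maps whose reduced map is constant -/
theorem Corr.str [CharZero k] [IsAlgClosed k] (hn : n ≤ N) (ha : Function.Injective a)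
    (f : Corr k L a n r)
    (hc : ∀ i j, f.red j ≠ 0 → IsAlgebraic k (f.red i / f.red j)) :
    ∃ (q : Polynomial f.E) (c : f.E) (G0 : k[X]) (ζ : Fin (N + 1) → k), q.Monic ∧ c ≠ 0 ∧
      q.natDegree * f.m + G0.natDegree ≤ n ∧ (∀ i, ζ i ^ f.m = G0.eval (a i)) ∧
      ∀ i, f.y i = c * q.eval (algebraMap k f.E (a i)) * algebraMap k f.E (ζ i) := by
  classical
  obtain ⟨i1, hi1'⟩ : ∃ i1, f.y i1 ≠ 0 := Function.ne_iff.1 f.ne
  have hi1 : f.red i1 ≠ 0 := f.red_ne hi1'
  have hm := f.two_le
  -- the constants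
  have hcst : ∀ i, ∃ ζ : k, f.red i = f.red i1 * algebraMap k f.E ζ := by
    intro i
    have h1 : IsIntegral k (f.red i / f.red i1) := (hc i i1 hi1).isIntegral
    obtain ⟨ζ, hζ⟩ := minpoly.mem_range_of_degree_eq_one k (f.red i / f.red i1)
      (IsAlgClosed.degree_eq_one_of_irreducible k (minpoly.irreducible h1))
    refine ⟨ζ, ?_⟩
    rw [hζ, mul_comm, div_mul_cancel₀ _ hi1]
  choose ζ1 hζ1 using hcst
  set S : Finset (Fin (N + 1)) := Finset.univ.filter fun i =>
    f.q.eval (algebraMap k f.E (a i)) ≠ 0 with hS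
  have hSm : ∀ i, i ∈ S ↔ f.q.eval (algebraMap k f.E (a i)) ≠ 0 := fun i => by
    rw [hS, Finset.mem_filter]; simp
  have hcompl : Sᶜ.card ≤ f.q.natDegree := by
    refine card_q_zeros ha f.q_ne _ fun i hi => ?_
    by_contra h
    exact Finset.mem_compl.1 hi ((hSm i).2 h)
  have hcc : Sᶜ.card = N + 1 - S.card := by
    rw [Finset.card_compl, Fintype.card_fin]
  have hSle : S.card ≤ N + 1 := by
    have := Finset.card_le_univ S
    rwa [Fintype.card_fin] at this
  set d := f.q.natDegree with hd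
  have hdeg : f.m * d + f.H.natDegree ≤ n := by
    have h1 := f.deg
    rw [natDegree_mul (pow_ne_zero _ f.q_ne) f.H_ne, natDegree_pow] at h1
    exact h1
  have hmd : 2 * d ≤ f.m * d := Nat.mul_le_mul_right _ hm
  have hHS : f.H.natDegree < S.card := by omega
  -- interpolation
  set G0 : k[X] := Lagrange.interpolate S a (fun i => ζ1 i ^ f.m) with hG0
  have hG0ev : ∀ i ∈ S, G0.eval (a i) = ζ1 i ^ f.m := fun i hi =>
    Lagrange.eval_interpolate_at_node _ ha.injOn hi
  have hG0deg : G0.degree < S.card := Lagrange.degree_interpolate_lt _ ha.injOn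
  have hc0 : f.red i1 ^ f.m ≠ 0 := pow_ne_zero _ hi1
  have hH : f.H = C (f.red i1 ^ f.m) * G0.map (algebraMap k f.E) := by
    apply Polynomial.eq_of_degrees_lt_of_eval_index_eq (s := S)
      (v := fun i => algebraMap k f.E (a i)) ((algebraMap k f.E).injective.comp ha).injOn
    · refine (degree_le_natDegree).trans_lt ?_
      exact_mod_cast hHS
    · rw [degree_C_mul hc0, degree_map]
      exact hG0deg
    · intro i hi
      rw [← f.red_pow ((hSm i).1 hi), eval_mul, eval_C, eval_map_algebraMap,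
        aeval_algebraMap_apply_eq_algebraMap_eval, hG0ev i hi, hζ1 i, mul_pow, map_pow]
  have hG0nat : G0.natDegree = f.H.natDegree := by
    rw [hH, natDegree_C_mul hc0, natDegree_map]
  have hroot : ∀ i, ∃ ζ : k, ζ ^ f.m = G0.eval (a i) := fun i =>
    IsAlgClosed.exists_pow_nat_eq _ (by omega : 0 < f.m)
  choose ζ2 hζ2 using hroot
  have hl0 : f.q.leadingCoeff ≠ 0 := leadingCoeff_ne_zero.2 f.q_ne
  refine ⟨C (f.q.leadingCoeff)⁻¹ * f.q, f.q.leadingCoeff * f.red i1, G0,
    fun i => if i ∈ S then ζ1 i else ζ2 i, ?_, mul_ne_zero hl0 hi1, ?_, fun i => ?_, fun i => ?_⟩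
  · rw [Monic, leadingCoeff_mul, leadingCoeff_C, inv_mul_cancel₀ hl0]
  · rw [natDegree_C_mul (inv_ne_zero hl0), hG0nat, mul_comm]
    exact hdeg
  · by_cases hi : i ∈ S
    · simp only [if_pos hi]
      rw [hG0ev i hi]
    · simp only [if_neg hi]
      exact hζ2 i
  · have h1 : f.q.leadingCoeff * f.red i1 *
        (C (f.q.leadingCoeff)⁻¹ * f.q).eval (algebraMap k f.E (a i)) =
        f.red i1 * f.q.eval (algebraMap k f.E (a i)) := by
      rw [eval_mul, eval_C]
      field_simp
    rw [h1]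
    by_cases hi : i ∈ S
    · simp only [if_pos hi]
      rw [f.y_eq i, hζ1 i]
      ring
    · have h2 : f.q.eval (algebraMap k f.E (a i)) = 0 := by
        by_contra h
        exact hi ((hSm i).2 h)
      rw [f.y_eq i, h2]
      ring

/-- **Linear images.** -/
theorem Corr.linear [CharZero k] [IsAlgClosed k] (hn : n ≤ N) (ha : Function.Injective a)
    (f : Corr k L a n r)
    (hc : ∀ i j, f.red j ≠ 0 → IsAlgebraic k (f.red i / f.red j)) :
    ∃ e, e * f.m ≤ n ∧ InLinearSpace k a n f.m e f.y := by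
  obtain ⟨q, c, G0, ζ, -, hc0, hdeg, hζ, hy⟩ := f.str hn ha hc
  exact ⟨q.natDegree, by omega, inLinear_of_str hc0 hdeg hζ hy⟩

/-- the maps, if the base is a point -/
theorem alg_of_bot [CharZero k] {ι : Type*} (f : ι → Corr k L a n r) (h0 : baseField f = ⊥)
    (i : ι) (i' j : Fin (N + 1)) (hj : (f i).red j ≠ 0) :
    IsAlgebraic k ((f i).red i' / (f i).red j) := by
  have h1 := base_coords f i i' j hj
  have h2 : Algebra.IsAlgebraic k (baseField f) := by
    refine ⟨fun x => ?_⟩
    have hx : (x : L) ∈ (⊥ : IntermediateField k L) := h0 ▸ x.2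
    rw [IntermediateField.mem_bot] at hx
    obtain ⟨c, hc⟩ := hx
    have h3 : x = algebraMap k (baseField f) c := Subtype.ext hc.symm
    rw [h3]
    exact isAlgebraic_algebraMap c
  exact h1.restrictScalars k

end Pool.Agent.N115.JS
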