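import Pool.Agent.N115.JS.Spec
import Pool.Agent.N115.JS.Conn

/-!
The base of the fibration which is defined by multi-valued maps: subvarieties and punctured discs.
-/

set_option autoImplicit false
set_option linter.unusedSectionVars false

open FF Pool.Agent.W603.LV Pool.Agent.Y190.BV Polynomial

namespace Pool.Agent.N115.JS

open Pool.Agent.W602.GT (GeneralType Ruled coords)
open Pool.Agent.TH466.QG (StronglyGeneral)
open Pool.Agent.N115.JT

/-- algebraic dependence in a subfield -/
theorem alg_down {k K' Ω : Type} [Field k] [Field K'] [Field Ω] [Algebra k K'] [Algebra k Ω]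
    (φ : K' →ₐ[k] Ω) (S : Set K') (u : K')
    (h : IsAlgebraic (IntermediateField.adjoin k (φ '' S)) (φ u)) :
    IsAlgebraic (IntermediateField.adjoin k S) u := by
  rw [← IntermediateField.adjoin_map] at h
  set A := IntermediateField.adjoin k S with hA
  let B : IntermediateField k Ω := A.map φ
  let ψ : A →+* B :=
    { toFun := fun z => ⟨φ z, z, z.2, rfl⟩
      map_one' := Subtype.ext (map_one _)
      map_mul' := fun x y => Subtype.ext (map_mul _ _ _)
      map_zero' := Subtype.ext (map_zero _)
      map_add' := fun x y => Subtype.ext (map_add _ _ _) }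
  let _ : Algebra A B := ψ.toAlgebra
  let _ : Algebra A Ω := (φ.toRingHom.comp A.val.toRingHom).toAlgebra
  have t1 : IsScalarTower A B Ω := IsScalarTower.of_algebraMap_eq fun x => rfl
  have hsurj : Function.Surjective ψ := by
    rintro ⟨_, z, hz, rfl⟩
    exact ⟨⟨z, hz⟩, rfl⟩
  have halg : Algebra.IsAlgebraic A B := ⟨fun z => by
    obtain ⟨z', rfl⟩ := hsurj z
    exact isAlgebraic_algebraMap (R := A) (A := B) z'⟩
  have h3 : IsAlgebraic A (φ u) := IsAlgebraic.restrictScalars (S := B) A h
  let φ' : K' →ₐ[A] Ω :=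
    { toRingHom := φ.toRingHom
      commutes' := fun x => rfl }
  exact (isAlgebraic_algHom_iff φ' φ.toRingHom.injective).1 h3

/-- reduced maps in a smaller field -/
theorem IsR.inn {k K Q : Type} [Field k] [Field K] [Field Q] [Algebra k K] [Algebra k Q]
    [Algebra K Q] [IsScalarTower k K Q] {N : ℕ} {a : Fin (N + 1) → k} {n r : ℕ} {s : Shape N}
    {z : Fin (s.N1 + 1) → Q} {H : Q[X]} (ha : Function.Injective a)
    (h : IsR (K := K) a n r s z H) (K' : IntermediateField K Q) (hz : ∀ j, z j ∈ K') :
    ∃ (z' : Fin (s.N1 + 1) → K') (H' : K'[X]), (∀ j, (z' j : Q) = z j) ∧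
      IsR (K := K) a n r s z' H' := by
  let z' : Fin (s.N1 + 1) → K' := fun j => ⟨z j, hz j⟩
  have tkE : IsScalarTower k K' Q := IsScalarTower.of_algebraMap_eq fun x => rfl
  have ha' : Function.Injective fun j => a (s.c j) := ha.comp h.inj
  obtain ⟨H', hH'⟩ := descend' (K1 := K') h.le1 ha' z' h.deg h.val
  have hH'0 : H' ≠ 0 := by
    rintro rfl
    rw [Polynomial.map_zero] at hH'
    exact h.ne hH'.symm
  have hmap : IntermediateField.adjoin K (Set.range z) =
      (IntermediateField.adjoin K (Set.range z')).map K'.val := by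
    rw [IntermediateField.adjoin_map, ← Set.range_comp]
    rfl
  have h1 := h.fin
  rw [hmap] at h1
  let e : IntermediateField.adjoin K (Set.range z') ≃ₗ[K]
      (IntermediateField.adjoin K (Set.range z')).map K'.val :=
    ((IntermediateField.adjoin K (Set.range z')).equivMap K'.val).toLinearEquiv
  refine ⟨z', H', fun j => rfl, h.two_le, h.inj, h.bound, h.le1, Subtype.ext h.one, hH'0, ?_,
    fun j => ?_, fun p hp hd => ?_, ?_, ?_⟩
  · rw [← natDegree_map (algebraMap K' Q), hH']
    exact h.deg
  · apply Subtype.ext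
    rw [SubmonoidClass.coe_pow]
    change z j ^ s.m = _
    rw [h.val j, ← hH', IsScalarTower.algebraMap_apply k K' Q, eval_map_algebraMap,
      aeval_algebraMap_apply_eq_algebraMap_eval]
    rfl
  · have h1 : (p.map (algebraMap K' Q)) ^ s.m ∣ H := by
      have h2 := Polynomial.map_dvd (algebraMap K' Q) hd
      rwa [Polynomial.map_pow, hH'] at h2
    obtain ⟨p', hp', hpp⟩ := Polynomial.exists_irreducible_of_natDegree_pos
      (f := p.map (algebraMap K' Q)) (by
        rw [natDegree_map]
        exact hp.natDegree_pos)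
    exact h.free p' hp' ((pow_dvd_pow_of_dvd hpp s.m).trans h1)
  · exact LinearEquiv.finiteDimensional e.symm
  · have h2 := h.degree
    rw [hmap] at h2
    rw [LinearEquiv.finrank_eq e]
    exact h2

variable {k L : Type} [Field k] [Field L] [Algebra k L] {N n r : ℕ} {a : Fin (N + 1) → k}

/-- **Reduced maps for the base of the fibration.** -/
theorem base_isR [CharZero k] [IsAlgClosed k] {ι : Type*} (f : ι → MultiMap k L a n r)
    (hn : n ≤ N) (hN1 : 1 ≤ N) (ha : Function.Injective a) {D : ℕ}
    (hD : Algebra.trdeg k L = D) :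
    ∃ (K' : IntermediateField (baseField f) (AlgebraicClosure L)) (J : Type) (_ : Finite J)
      (sh : J → Shape N) (z : ∀ i, Fin ((sh i).N1 + 1) → K') (H : J → K'[X]),
      FiniteDimensional (baseField f) K' ∧
      (∀ i, IsR (K := baseField f) a n r (sh i) (z i) (H i)) ∧
      Algebra.IsAlgebraic (IntermediateField.adjoin k (⋃ i, Set.range (z i))) K' := by
  classical
  let T : Type := {V : Set (AlgebraicClosure L) // ∃ i, V = (f i).values}
  choose α hα using fun t : T => t.2
  have hDΩ : Algebra.trdeg k (AlgebraicClosure L) = D := by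
    rw [← hD, ← trdeg_add_eq k L (A := AlgebraicClosure L)]
    have h1 : Algebra.trdeg L (AlgebraicClosure L) = 0 := by
      rw [trdeg_eq_zero_iff]
      infer_instance
    rw [h1, add_zero]
  obtain ⟨I, hI, hsel⟩ := Pool.Agent.N966.JT.select k (AlgebraicClosure L) D hDΩ T
    (fun t => t.1) D (Or.inl le_rfl)
  let J : Type := Σ t : I, ((f (α t)).E →ₐ[L] AlgebraicClosure L)
  have hJ : Finite J := inferInstance
  choose sh z H hR _ hal using fun j : J => exists_isR hn hN1 ha (f (α j.1)) (baseField f)
    (base_closed f) (base_coords f (α j.1)) j.2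
  set V : Set (AlgebraicClosure L) := ⋃ j, Set.range (z j) with hV
  have hVf : V.Finite := Set.finite_iUnion fun i => Set.finite_range _
  have tΩ : IsScalarTower k (baseField f) (AlgebraicClosure L) := inferInstance
  let K' : IntermediateField (baseField f) (AlgebraicClosure L) :=
    IntermediateField.adjoin (baseField f) V
  have hint : ∀ v ∈ V, IsIntegral (baseField f) v := by
    intro v hv
    rw [hV, Set.mem_iUnion] at hv
    obtain ⟨i, j, rfl⟩ := hv
    have h1 := (hR i).fin
    have h2 : IsIntegral (baseField f) (⟨z i j, IntermediateField.subset_adjoin _ _ ⟨j, rfl⟩⟩ :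
      IntermediateField.adjoin (baseField f) (Set.range (z i))) := IsIntegral.of_finite _ _
    exact h2.map (IntermediateField.adjoin (baseField f) (Set.range (z i))).val
  have hfd : FiniteDimensional (baseField f) K' := by
    have hVf' : Finite V := hVf
    exact IntermediateField.finiteDimensional_adjoin hint
  choose z' H' hz' hR' using fun i => (hR i).inn ha K' fun j =>
    IntermediateField.subset_adjoin _ _ (Set.mem_iUnion.2 ⟨i, j, rfl⟩)
  refine ⟨K', J, hJ, sh, z', H', hfd, hR', ⟨fun u => ?_⟩⟩
  refine alg_down (K'.val.restrictScalars k) _ u ?_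
  have himg : (K'.val.restrictScalars k) '' (⋃ i, Set.range (z' i)) = V := by
    rw [Set.image_iUnion, hV]
    refine Set.iUnion_congr fun i => ?_
    rw [← Set.range_comp]
    congr 1
    funext j
    exact hz' i j
  rw [himg]
  set B := IntermediateField.adjoin k V with hB
  -- the values are algebraic over `B`
  have h1 : ∀ t ∈ I, ∀ v ∈ (f (α t)).values, IsAlgebraic B v := by
    rintro t ht _ ⟨σ, i, j, hj, rfl⟩
    refine trans_alg ?_ (hal ⟨⟨t, ht⟩, σ⟩ i j hj)
    refine adjoin_alg fun x hx => ?_
    exact isAlgebraic_algebraMap (⟨x, IntermediateField.subset_adjoin k _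
      (Set.mem_iUnion.2 ⟨_, hx⟩)⟩ : B)
  have h2 : ∀ i, ∀ v ∈ (f i).values, IsAlgebraic B v := by
    intro i v hv
    refine trans_alg ?_ (hsel ⟨(f i).values, i, rfl⟩ v hv)
    refine adjoin_alg fun z hz => ?_
    simp only [Set.mem_iUnion] at hz
    obtain ⟨t, ht, hz⟩ := hz
    rw [hα t] at hz
    exact h1 t ht z hz
  have h3 : ∀ x : baseField f, IsAlgebraic B (algebraMap L (AlgebraicClosure L) x) := by
    intro x
    refine trans_alg ?_ ((mem_baseField f x.1).1 x.2)
    refine adjoin_alg fun z hz => ?_
    rw [Set.mem_iUnion] at hz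
    obtain ⟨i, hz⟩ := hz
    exact h2 i z hz
  -- elements which are algebraic over the base field
  let φ : L →ₐ[k] AlgebraicClosure L := IsScalarTower.toAlgHom k L (AlgebraicClosure L)
  let B1 : IntermediateField k (AlgebraicClosure L) := (baseField f).map φ
  have h4 : ∀ x ∈ B1, IsAlgebraic B x := by
    rintro _ ⟨x, hx, rfl⟩
    exact h3 ⟨x, hx⟩
  refine trans_alg h4 ?_
  let ψ : baseField f →+* B1 :=
    { toFun := fun z => ⟨φ z, z, z.2, rfl⟩
      map_one' := Subtype.ext (map_one _)
      map_mul' := fun x y => Subtype.ext (map_mul _ _ _)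
      map_zero' := Subtype.ext (map_zero _)
      map_add' := fun x y => Subtype.ext (map_add _ _ _) }
  let _ : Algebra (baseField f) B1 := ψ.toAlgebra
  have t1 : IsScalarTower (baseField f) B1 (AlgebraicClosure L) :=
    IsScalarTower.of_algebraMap_eq fun x => rfl
  have h5 : IsAlgebraic (baseField f) (u : AlgebraicClosure L) :=
    (isAlgebraic_algHom_iff K'.val K'.val.toRingHom.injective).2
      ((Algebra.IsAlgebraic.of_finite (baseField f) K').isAlgebraic u)
  exact h5.extendScalars ψ.injective

/-- **Subvarieties of the base.** -/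
theorem strong_main (hSt : StrongOfL) (hDeg : DegSpec) [CharZero k] [IsAlgClosed k] {ι : Type*}
    (f : ι → MultiMap k L a n r) (hr : 1 ≤ r) (hn : n ≤ N) (hN1 : 1 ≤ N) {S : ℕ}
    (hN : 4 * (S * (r * n)) + (S * (r * n) + S * (r * (r - 1)) + 1) ^ 2 < 2 * (N + 1))
    (ha : Function.Injective a) {D : ℕ} (hD : Algebra.trdeg k L = D) (hDS : D ≤ S) {M : ℕ}
    {x : Fin (M + 1) → baseField f} (hx : x ≠ 0) (hgen : coords k x = ⊤) :
    StronglyGeneral k x := by
  obtain ⟨K', J, _, sh, z, H, hfd, hR, halg⟩ := base_isR f hn hN1 ha hD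
  have h1 : Algebra.trdeg k (baseField f) ≤ D := by
    rw [← hD]
    exact trdeg_le_of_injective (baseField f).val (baseField f).val.toRingHom.injective
  obtain ⟨w, hw⟩ : ∃ w : ℕ, Algebra.trdeg k (baseField f) = w :=
    Cardinal.lt_aleph0.1 (lt_of_le_of_lt h1 (Cardinal.natCast_lt_aleph0))
  have hwD : w ≤ D := by
    rw [hw] at h1
    exact_mod_cast h1
  exact strong_joint hSt hDeg hr hN ha hw (hwD.trans hDS) sh z H hR halg hx hgen

/-- **Punctured discs in the base.** -/
theorem picard_main (hPi : PicardOfL) (hDeg : DegSpec) {L : Type} [Field L] [Algebra ℂ L]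
    {a : Fin (N + 1) → ℂ} {ι : Type*}
    (f : ι → MultiMap ℂ L a n r) (hn : n ≤ N) (hN1 : 1 ≤ N)
    (hN : (r * (r - 1) + 4) * (r * n) < N + 1)
    (ha : Function.Injective a) {D : ℕ} (hD : Algebra.trdeg ℂ L = D) {M : ℕ}
    {x : Fin (M + 1) → baseField f} (hx : x ≠ 0) (hgen : coords ℂ x = ⊤) :
    Pool.Agent.Y221.PD.PseudoPicard x := by
  obtain ⟨K', J, _, sh, z, H, hfd, hR, halg⟩ := base_isR f hn hN1 ha hD
  exact picard_joint hPi hDeg hN ha sh z H hR halg hx hgen

end Pool.Agent.N115.JS
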