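import Pool.Agent.N115.JT.Fin

/-!
Reduced multi-valued maps.
-/

set_option autoImplicit false
set_option linter.unusedSectionVars false

open FF Pool.Agent.W603.LV Pool.Agent.Y190.BV Polynomial

namespace Pool.Agent.N115.JS

open Pool.Agent.W602.GT (GeneralType Ruled coords)
open Pool.Agent.N115.JT

/-- the shape of a reduced map -/
structure Shape (N : ℕ) where
  m : ℕ
  N1 : ℕ
  n1 : ℕ
  c : Fin (N1 + 1) → Fin (N + 1)
  j0 : Fin (N1 + 1)

/-- `z` is a point, normalized by `z j0 = 1` and of degree at most `r` over `K`, whose `m`-th powers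
are the values of a polynomial `H` without `m`-fold factors at the nodes `a (c j)`. -/
structure IsR {k K Q : Type} [Field k] [Field K] [Field Q] [Algebra k Q] [Algebra K Q]
    {N : ℕ} (a : Fin (N + 1) → k) (n r : ℕ) (s : Shape N) (z : Fin (s.N1 + 1) → Q)
    (H : Q[X]) : Prop where
  two_le : 2 ≤ s.m
  inj : Function.Injective s.c
  bound : s.n1 + (N - s.N1) ≤ n
  le1 : s.n1 ≤ s.N1
  one : z s.j0 = 1
  ne : H ≠ 0
  deg : H.natDegree ≤ s.n1
  val : ∀ j, z j ^ s.m = H.eval (algebraMap k Q (a (s.c j)))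
  free : ∀ p : Q[X], Irreducible p → ¬ p ^ s.m ∣ H
  fin : FiniteDimensional K (IntermediateField.adjoin K (Set.range z))
  degree : Module.finrank K (IntermediateField.adjoin K (Set.range z)) ≤ r

/-- polynomials descend to the field of their values -/
theorem descend' {k K1 E : Type} [Field k] [Field K1] [Field E] [Algebra k K1] [Algebra k E]
    [Algebra K1 E] [IsScalarTower k K1 E]
    {n N m : ℕ} (hn : n ≤ N) {a : Fin (N + 1) → k} (ha : Function.Injective a)
    (z : Fin (N + 1) → K1) {H : E[X]} (hH : H.natDegree ≤ n)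
    (hev : ∀ i, (algebraMap K1 E (z i)) ^ m = H.eval (algebraMap k E (a i))) :
    ∃ H2 : K1[X], H2.map (algebraMap K1 E) = H := by
  classical
  have hinj : Function.Injective fun i => algebraMap k E (a i) :=
    (algebraMap k E).injective.comp ha
  set H2 : K1[X] := Lagrange.interpolate Finset.univ (fun i => algebraMap k K1 (a i))
    (fun i => z i ^ m) with hH2
  have hinj1 : Set.InjOn (fun i => algebraMap k K1 (a i)) (Finset.univ : Finset (Fin (N + 1))) :=
    ((algebraMap k K1).injective.comp ha).injOn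
  have hH2ev : ∀ i, H2.eval (algebraMap k K1 (a i)) = z i ^ m := fun i =>
    Lagrange.eval_interpolate_at_node _ hinj1 (Finset.mem_univ i)
  have hH2deg : H2.degree < (Finset.univ : Finset (Fin (N + 1))).card :=
    Lagrange.degree_interpolate_lt _ hinj1
  refine ⟨H2, ?_⟩
  apply Polynomial.eq_of_degrees_lt_of_eval_index_eq (s := Finset.univ)
    (v := fun i => algebraMap k E (a i)) hinj.injOn
  · rw [degree_map]
    exact hH2deg
  · rw [Finset.card_univ, Fintype.card_fin]
    refine (degree_le_natDegree).trans_lt ?_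
    exact_mod_cast (by omega : H.natDegree < N + 1)
  · intro i _
    rw [← hev i]
    have h1 : algebraMap k E (a i) = algebraMap K1 E (algebraMap k K1 (a i)) :=
      IsScalarTower.algebraMap_apply k K1 E _
    rw [h1, eval_map_algebraMap, aeval_algebraMap_apply_eq_algebraMap_eval, hH2ev i, map_pow]

section

variable {k K Q : Type} [Field k] [Field K] [Field Q] [Algebra k K] [Algebra k Q] [Algebra K Q]
  [IsScalarTower k K Q] {N : ℕ} {a : Fin (N + 1) → k} {n r : ℕ} {s : Shape N}
  {z : Fin (s.N1 + 1) → Q} {H : Q[X]}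

/-- the polynomial over the field generated by the values -/
theorem IsR.down (ha : Function.Injective a) (h : IsR (K := K) a n r s z H) :
    ∃ (z' : Fin (s.N1 + 1) → IntermediateField.adjoin K (Set.range z))
      (H' : (IntermediateField.adjoin K (Set.range z))[X]), (∀ j, (z' j : Q) = z j) ∧
      z' s.j0 = 1 ∧ H' ≠ 0 ∧ H'.natDegree ≤ s.n1 ∧
      (∀ j, z' j ^ s.m = H'.eval (algebraMap k _ (a (s.c j)))) ∧
      ∀ p : (IntermediateField.adjoin K (Set.range z))[X], Irreducible p → ¬ p ^ s.m ∣ H' := by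
  set E := IntermediateField.adjoin K (Set.range z) with hE
  let z' : Fin (s.N1 + 1) → E := fun j => ⟨z j, IntermediateField.subset_adjoin K _ ⟨j, rfl⟩⟩
  have tk : IsScalarTower k K E := inferInstance
  have tkE : IsScalarTower k E Q := IsScalarTower.of_algebraMap_eq fun x => rfl
  have ha' : Function.Injective fun j => a (s.c j) := ha.comp h.inj
  obtain ⟨H', hH'⟩ := descend' (K1 := E) h.le1 ha' z' h.deg h.val
  have hH'0 : H' ≠ 0 := by
    rintro rfl
    rw [Polynomial.map_zero] at hH'
    exact h.ne hH'.symm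
  refine ⟨z', H', fun j => rfl, Subtype.ext h.one, hH'0, ?_, fun j => ?_, fun p hp hd => ?_⟩
  · rw [← natDegree_map (algebraMap E Q), hH']
    exact h.deg
  · apply Subtype.ext
    rw [SubmonoidClass.coe_pow]
    change z j ^ s.m = _
    rw [h.val j, ← hH', IsScalarTower.algebraMap_apply k E Q, eval_map_algebraMap,
      aeval_algebraMap_apply_eq_algebraMap_eval]
    rfl
  · have h1 : (p.map (algebraMap E Q)) ^ s.m ∣ H := by
      have h2 := Polynomial.map_dvd (algebraMap E Q) hd
      rwa [Polynomial.map_pow, hH'] at h2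
    obtain ⟨p', hp', hpp⟩ := Polynomial.exists_irreducible_of_natDegree_pos
      (f := p.map (algebraMap E Q)) (by
        rw [natDegree_map]
        exact hp.natDegree_pos)
    exact h.free p' hp' ((pow_dvd_pow_of_dvd hpp s.m).trans h1)

/-- extension of the ambient field -/
theorem IsR.ext [CharZero k] {Q' : Type} [Field Q'] [Algebra k Q'] [Algebra K Q'] [Algebra Q Q']
    [IsScalarTower k Q Q'] [IsScalarTower K Q Q'] (h : IsR (K := K) a n r s z H) :
    IsR (K := K) a n r s (fun j => algebraMap Q Q' (z j)) (H.map (algebraMap Q Q')) := by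
  have hchQ : CharZero Q := charZero_of_injective_algebraMap (algebraMap k Q).injective
  let φ : Q →ₐ[K] Q' := IsScalarTower.toAlgHom K Q Q'
  have hmap : IntermediateField.adjoin K (Set.range fun j => algebraMap Q Q' (z j)) =
      (IntermediateField.adjoin K (Set.range z)).map φ := by
    rw [IntermediateField.adjoin_map, ← Set.range_comp]
    rfl
  have h1 := h.fin
  let e : IntermediateField.adjoin K (Set.range z) ≃ₗ[K]
      (IntermediateField.adjoin K (Set.range z)).map φ :=
    ((IntermediateField.adjoin K (Set.range z)).equivMap φ).toLinearEquiv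
  refine ⟨h.two_le, h.inj, h.bound, h.le1, by rw [h.one, map_one],
    (Polynomial.map_ne_zero_iff (algebraMap Q Q').injective).2 h.ne,
    natDegree_map_le.trans h.deg, fun j => ?_, fun p hp hd => ?_, ?_, ?_⟩
  · rw [← map_pow, h.val j, IsScalarTower.algebraMap_apply k Q Q', eval_map_algebraMap,
      aeval_algebraMap_apply_eq_algebraMap_eval]
  · obtain ⟨p0, h2, h3⟩ := Pool.Agent.N115.IM.exists_down h.ne
      (by have := h.two_le; omega : 1 ≤ s.m) hp hd
    exact h.free p0 h2 h3
  · rw [hmap]
    exact LinearEquiv.finiteDimensional e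
  · rw [hmap, ← LinearEquiv.finrank_eq e]
    exact h.degree

end

/-- the discriminant and the polynomial of a reduced map -/
theorem IsR.dat {k K Ω : Type} [Field k] [Field K] [Field Ω] [Algebra k K] [Algebra k Ω]
    [Algebra K Ω] [IsScalarTower k K Ω] [CharZero k] [IsAlgClosed k] [IsAlgClosed Ω] {N : ℕ}
    {a : Fin (N + 1) → k} {n r : ℕ} {s : Shape N} {z : Fin (s.N1 + 1) → Ω} {H : Polynomial Ω}
    (ha : Function.Injective a) (h : IsR (K := K) a n r s z H) :
    ∃ Z : Finset (Fin (N + 1)), Z.card ≤ n ∧ ∀ i0 ∉ Z, ∃ (F : K[X]) (b : ℕ) (δ : K),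
      Dat r n a Z F b δ ∧
        ∀ j, IsAlgebraic (IntermediateField.adjoin k (F.rootSet Ω)) (z j) := by
  classical
  have ha' : Function.Injective fun j => a (s.c j) := ha.comp h.inj
  have hm := h.two_le
  have hNN : s.N1 ≤ N := by
    have h1 := Fintype.card_le_of_injective s.c h.inj
    rw [Fintype.card_fin, Fintype.card_fin] at h1
    omega
  obtain ⟨z', H', hz', hz1, hH', hdeg', hval', hfree'⟩ := h.down ha
  have hfd := h.fin
  set Z1 : Finset (Fin (s.N1 + 1)) := Finset.univ.filter fun j => z' j = 0 with hZ1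
  have hZ1' : ∀ j, j ∈ Z1 ↔ z' j = 0 := fun j => by rw [hZ1, Finset.mem_filter]; simp
  set Z : Finset (Fin (N + 1)) := Finset.univ.filter fun i => ∀ j, s.c j = i → j ∈ Z1 with hZ
  have hZ' : ∀ i, i ∉ Z ↔ ∃ j, s.c j = i ∧ j ∉ Z1 := by
    intro i
    rw [hZ, Finset.mem_filter]
    simp only [Finset.mem_univ, true_and]
    push Not
    rfl
  have hZ1c : Z1.card ≤ s.n1 :=
    (card_zeros (by omega : 1 ≤ s.m) ha' hH' hval' hZ1').trans hdeg'
  have hZc : Z.card ≤ n := by
    have h2 : Zᶜ = Z1ᶜ.image s.c := by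
      ext i
      rw [Finset.mem_compl, hZ', Finset.mem_image]
      constructor
      · rintro ⟨j, h3, h4⟩
        exact ⟨j, Finset.mem_compl.2 h4, h3⟩
      · rintro ⟨j, h3, h4⟩
        exact ⟨j, h4, Finset.mem_compl.1 h3⟩
    have h3 := congrArg Finset.card h2
    rw [Finset.card_image_of_injective _ h.inj, Finset.card_compl, Finset.card_compl,
      Fintype.card_fin, Fintype.card_fin] at h3
    have h4 : Z.card ≤ N + 1 := by
      have := Finset.card_le_univ Z
      rwa [Fintype.card_fin] at this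
    have := h.bound
    omega
  refine ⟨Z, hZc, fun i0 hi0 => ?_⟩
  obtain ⟨F, b, δ, hD, hv⟩ := map_dat Pool.Agent.N603.JT.RootsAlg.main (k := k) (K := K)
    (E := IntermediateField.adjoin K (Set.range z)) (r := r) (n := s.n1) (m := s.m)
    (N := s.N1) h.degree hm h.le1 (a := fun j => a (s.c j)) ha' hH' hdeg' hval' hfree'
    (i0 := s.j0) (by rw [hz1]; exact one_ne_zero) hZ1'
  refine ⟨F, b, δ, hD.extend h.inj hZ' h.bound, fun j => ?_⟩
  have h1 := hv Ω (IntermediateField.adjoin K (Set.range z)).val j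
  rw [hz1, div_one] at h1
  have h2 : (IntermediateField.adjoin K (Set.range z)).val (z' j) = z j := hz' j
  rwa [h2] at h1

/-- **Fields which are algebraic over the values of reduced maps are of general type.** -/
theorem general_of_isR {k K Q : Type} [Field k] [Field K] [Field Q] [Algebra k K] [Algebra k Q]
    [Algebra K Q] [IsScalarTower k K Q] [CharZero k] [IsAlgClosed k]
    [Algebra.IsAlgebraic K Q] {N n r S : ℕ} (hr : 1 ≤ r)
    (hN : 4 * (S * (r * n)) + (S * (r * n) + S * (r * (r - 1)) + 1) ^ 2 < 2 * (N + 1))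
    {a : Fin (N + 1) → k} (ha : Function.Injective a) {D : ℕ} (hD : Algebra.trdeg k K = D)
    (hDS : D ≤ S) {ι : Type} (sh : ι → Shape N) (z : ∀ i, Fin ((sh i).N1 + 1) → Q)
    (H : ι → Q[X]) (hR : ∀ i, IsR (K := K) a n r (sh i) (z i) (H i))
    (hA : ∀ x : K, IsAlgebraic (IntermediateField.adjoin k (⋃ i, Set.range (z i)))
      (algebraMap K Q x)) : GeneralType k K D := by
  classical
  let Ω : Type := AlgebraicClosure Q
  have tΩ : IsScalarTower k K Ω := by
    refine IsScalarTower.of_algebraMap_eq fun x => ?_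
    rw [IsScalarTower.algebraMap_apply k Q Ω, IsScalarTower.algebraMap_apply k K Q,
      ← IsScalarTower.algebraMap_apply K Q Ω]
  have hKΩ : Algebra.IsAlgebraic K Ω := Algebra.IsAlgebraic.trans K Q Ω
  have hDΩ : Algebra.trdeg k Ω = D := by
    rw [← hD, ← trdeg_add_eq k K (A := Ω)]
    have h1 : Algebra.trdeg K Ω = 0 := by
      rw [trdeg_eq_zero_iff]
      exact hKΩ
    rw [h1, add_zero]
  have hR' : ∀ i, IsR (K := K) a n r (sh i) (fun j => algebraMap Q Ω (z i j))
      ((H i).map (algebraMap Q Ω)) := fun i => (hR i).ext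
  obtain ⟨I, hI, hsel⟩ := Pool.Agent.N966.JT.select k Ω D hDΩ ι
    (fun i => Set.range fun j => algebraMap Q Ω (z i j)) S (Or.inl hDS)
  choose Z hZ hdat using fun i => (hR' i).dat ha
  have hsn : S * n ≤ S * (r * n) := Nat.mul_le_mul_left _ (Nat.le_mul_of_pos_left _ hr)
  obtain ⟨i0, hi0⟩ : ∃ i0 : Fin (N + 1), ∀ t ∈ I, i0 ∉ Z t := by
    by_contra hcon
    push Not at hcon
    have h1 : (Finset.univ : Finset (Fin (N + 1))) ⊆ I.biUnion Z := by
      intro i _
      obtain ⟨t, ht, hi⟩ := hcon i
      exact Finset.mem_biUnion.2 ⟨t, ht, hi⟩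
    have h2 := Finset.card_le_card h1
    rw [Finset.card_univ, Fintype.card_fin] at h2
    have h3 : (I.biUnion Z).card ≤ I.card * n :=
      Finset.card_biUnion_le_card_mul _ _ _ fun t _ => hZ t
    have h4 : I.card * n ≤ S * n := Nat.mul_le_mul_right _ hI
    omega
  have hdat' : ∀ t : ι, ∃ (F : K[X]) (b : ℕ) (δ : K), t ∈ I →
      (Dat r n a (Z t) F b δ ∧ ∀ j, IsAlgebraic (IntermediateField.adjoin k (F.rootSet Ω))
        (algebraMap Q Ω (z t j))) := by
    intro t
    by_cases ht : t ∈ I
    · obtain ⟨F, b, δ, h⟩ := hdat t i0 (hi0 t ht)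
      exact ⟨F, b, δ, fun _ => h⟩
    · exact ⟨0, 0, 0, fun h => absurd h ht⟩
  choose F b δ hFd using hdat'
  refine comb (Ω := Ω) hr hD hN ha I hI (Z := Z) (F := F) (b := b) (δ := δ)
    (fun t ht => (hFd t ht).1) hi0 fun x => ?_
  set B := IntermediateField.adjoin k (⋃ t ∈ I, (F t).rootSet Ω) with hB
  have h1 : ∀ t ∈ I, ∀ j, IsAlgebraic B (algebraMap Q Ω (z t j)) := by
    intro t ht j
    refine trans_alg ?_ ((hFd t ht).2 j)
    refine adjoin_alg fun u hu => ?_
    exact isAlgebraic_algebraMap (⟨u, IntermediateField.subset_adjoin k _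
      (Set.mem_biUnion ht hu)⟩ : B)
  have h2 : ∀ i, ∀ j, IsAlgebraic B (algebraMap Q Ω (z i j)) := by
    intro i j
    refine trans_alg ?_ (hsel i _ ⟨j, rfl⟩)
    refine adjoin_alg fun u hu => ?_
    simp only [Set.mem_iUnion] at hu
    obtain ⟨t, ht, j', rfl⟩ := hu
    exact h1 t ht j'
  -- the values in `Q`
  let φ : Q →ₐ[k] Ω := IsScalarTower.toAlgHom k Q Ω
  let C : IntermediateField k Ω := (IntermediateField.adjoin k (⋃ i, Set.range (z i))).map φ
  have h3 : ∀ u ∈ C, IsAlgebraic B u := by
    change ∀ u ∈ (IntermediateField.adjoin k (⋃ i, Set.range (z i))).map φ, IsAlgebraic B u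
    rw [IntermediateField.adjoin_map]
    refine adjoin_alg fun u hu => ?_
    obtain ⟨v, hv, rfl⟩ := hu
    simp only [Set.mem_iUnion] at hv
    obtain ⟨i, j, rfl⟩ := hv
    exact h2 i j
  have h4 : IsAlgebraic C (algebraMap K Ω x) := by
    let ψ : IntermediateField.adjoin k (⋃ i, Set.range (z i)) →+* C :=
      { toFun := fun u => ⟨φ u, u, u.2, rfl⟩
        map_one' := Subtype.ext (map_one _)
        map_mul' := fun x y => Subtype.ext (map_mul _ _ _)
        map_zero' := Subtype.ext (map_zero _)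
        map_add' := fun x y => Subtype.ext (map_add _ _ _) }
    let _ : Algebra (IntermediateField.adjoin k (⋃ i, Set.range (z i))) C := ψ.toAlgebra
    have t1 : IsScalarTower (IntermediateField.adjoin k (⋃ i, Set.range (z i))) C Ω :=
      IsScalarTower.of_algebraMap_eq fun x => rfl
    have h5 : IsAlgebraic (IntermediateField.adjoin k (⋃ i, Set.range (z i)))
        (algebraMap Q Ω (algebraMap K Q x)) := (hA x).algebraMap
    rw [← IsScalarTower.algebraMap_apply K Q Ω] at h5
    exact h5.extendScalars ψ.injective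
  exact trans_alg h3 h4

end Pool.Agent.N115.JS
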