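import Pool.Agent.N115.JS.Top

/-!
Punctured discs, entire curves and subvarieties in the total space of a fibration.
-/

set_option autoImplicit false
set_option linter.unusedSectionVars false

open FF Polynomial

namespace Pool.Agent.N115.JS

open Pool.Agent.W602.GT (GeneralType coords val IsForm essFinite BrodySpecial)
open Pool.Agent.TH466.QG (StronglyGeneral SubOf)
open Pool.Agent.Y221.PD (PseudoPicard PseudoAbelian PseudoTorus EssentialDisc brody_of_picard
  abelian_of_brody torus_of_brody)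
open Pool.Agent.Y221.BD (PseudoBrody EntireCurve)
open Metric Topology

/-- The forms `A i`, of the same degree, define the rational map `M ⇢ M₀` of the projective varieties
with generic points `ξ` and `x`, where the function field of `M₀` is a subfield `L0` of the function
field `L` of `M`. -/
def MapForms {k L : Type} [Field k] [Field L] [Algebra k L] {L0 : IntermediateField k L}
    {M M0 : ℕ} (ξ : Fin (M + 1) → L) (x : Fin (M0 + 1) → L0)
    (A : Fin (M0 + 1) → MvPolynomial (Fin (M + 1)) k) : Prop :=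
  ∃ (d : ℕ) (h : L), (∀ i, (A i).IsHomogeneous d) ∧ h ≠ 0 ∧ ∀ i, val ξ (A i) = h * (x i : L)

/-- All holomorphic maps `f` from the punctured unit disc to `M` which are not contained in a proper
closed subset `{R = 0}` extend over `0` after composition with `M ⇢ M₀`: the ratios of the
coordinates of the composition are meromorphic at `0`. -/
def DiscsExtend {L : Type} [Field L] [Algebra ℂ L] {L0 : IntermediateField ℂ L} {M M0 : ℕ}
    (ξ : Fin (M + 1) → L) (x : Fin (M0 + 1) → L0) : Prop :=
  ∃ (R : MvPolynomial (Fin (M + 1)) ℂ) (A : Fin (M0 + 1) → MvPolynomial (Fin (M + 1)) ℂ),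
    IsForm R ∧ val ξ R ≠ 0 ∧ MapForms ξ x A ∧
      ∀ f, Disc ξ f → (∃ t ∈ ball (0 : ℂ) 1 \ {0}, MvPolynomial.eval (f t) R ≠ 0) →
        ∀ i j, (∃ t ∈ ball (0 : ℂ) 1 \ {0}, MvPolynomial.eval (f t) (A j) ≠ 0) →
          ∃ g : ℂ → ℂ, MeromorphicAt g 0 ∧ ∀ᶠ t in 𝓝[≠] 0,
            MvPolynomial.eval (f t) (A i) = g t * MvPolynomial.eval (f t) (A j)

/-- All entire curves `f` in `M` which are not contained in a proper closed subset `{R = 0}` are
mapped to points by `M ⇢ M₀`. -/
def CurvesInFibres {L : Type} [Field L] [Algebra ℂ L] {L0 : IntermediateField ℂ L} {M M0 : ℕ}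
    (ξ : Fin (M + 1) → L) (x : Fin (M0 + 1) → L0) : Prop :=
  ∃ (R : MvPolynomial (Fin (M + 1)) ℂ) (A : Fin (M0 + 1) → MvPolynomial (Fin (M + 1)) ℂ),
    IsForm R ∧ val ξ R ≠ 0 ∧ MapForms ξ x A ∧
      ∀ f, EntireCurve ξ f → (∃ t, MvPolynomial.eval (fun i => f i t) R ≠ 0) →
        ConstCurve fun i t => MvPolynomial.eval (fun j => f j t) (A i)

/-- All closed subvarieties of `M`, with generic points `ζ`, which are not contained in a proper
closed subset `{R = 0}` are mapped by `M ⇢ M₀` to points or onto varieties of general type. -/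
def SubvarietiesMapped (k : Type) [Field k] {L : Type} [Field L] [Algebra k L]
    {L0 : IntermediateField k L} {M M0 : ℕ} (ξ : Fin (M + 1) → L) (x : Fin (M0 + 1) → L0) : Prop :=
  ∃ (R : MvPolynomial (Fin (M + 1)) k) (A : Fin (M0 + 1) → MvPolynomial (Fin (M + 1)) k),
    IsForm R ∧ val ξ R ≠ 0 ∧ MapForms ξ x A ∧
      ∀ (E : Type) [Field E] [Algebra k E] (ζ : Fin (M + 1) → E), SubOf k ξ ζ → val ζ R ≠ 0 →
        ∀ w : ℕ, 1 ≤ w → Algebra.trdeg k (coords k fun i => val ζ (A i)) = w →
          GeneralType k (coords k fun i => val ζ (A i)) w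

theorem discsExtend {L : Type} [Field L] [Algebra ℂ L] {L0 : IntermediateField ℂ L} {M M0 : ℕ}
    {ξ : Fin (M + 1) → L} {x : Fin (M0 + 1) → L0} (hξ : coords ℂ ξ = ⊤) (hx : x ≠ 0)
    (h : FieldPicard x) : DiscsExtend ξ x := by
  obtain ⟨R, A, d, h0, hR, hR0, hA, hh, hAx, hf⟩ := disc_of_field L0 hξ hx h
  exact ⟨R, A, hR, hR0, ⟨d, h0, hA, hh, hAx⟩, hf⟩

theorem curvesInFibres {L : Type} [Field L] [Algebra ℂ L] {L0 : IntermediateField ℂ L} {M M0 : ℕ}
    {ξ : Fin (M + 1) → L} {x : Fin (M0 + 1) → L0} (hξ0 : ξ ≠ 0) (hξ : coords ℂ ξ = ⊤)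
    (hx : x ≠ 0) (h : PseudoBrody x) : CurvesInFibres ξ x := by
  obtain ⟨R, A, d, h0, hR, hR0, hA, hh, hAx, hf⟩ :=
    Pool.Agent.N459.JS.fibreCurves L L0 M M0 ξ x hξ0 hξ hx h
  exact ⟨R, A, hR, hR0, ⟨d, h0, hA, hh, hAx⟩, hf⟩

/-- the coordinates generate their field -/
theorem coords_self {k E : Type} [Field k] [Field E] [Algebra k E] {M : ℕ} (y : Fin (M + 1) → E)
    {i1 : Fin (M + 1)} (hi1 : y i1 ≠ 0) :
    ∃ y' : Fin (M + 1) → coords k y, (∀ i, (y' i : E) = y i / y i1) ∧ y' ≠ 0 ∧
      coords k y' = ⊤ := by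
  have hmemK0 : ∀ i j, y j ≠ 0 → y i / y j ∈ coords k y := fun i j hj =>
    IntermediateField.subset_adjoin k _ ⟨i, j, hj, rfl⟩
  let y' : Fin (M + 1) → coords k y := fun i => ⟨y i / y i1, hmemK0 i i1 hi1⟩
  refine ⟨y', fun i => rfl, ?_, ?_⟩
  · intro h
    have h1 := congrArg Subtype.val (congrFun h i1)
    change y i1 / y i1 = 0 at h1
    rw [div_self hi1] at h1
    exact one_ne_zero h1
  · have e1 : (coords k y').map (coords k y).val = IntermediateField.adjoin k
        ((coords k y).val '' {x | ∃ i j, y' j ≠ 0 ∧ x = y' i / y' j}) := by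
      change (IntermediateField.adjoin k _).map (coords k y).val = _
      rw [IntermediateField.adjoin_map]
    have e2 : (coords k y).val '' {x | ∃ i j, y' j ≠ 0 ∧ x = y' i / y' j} =
        {x | ∃ i j, y j ≠ 0 ∧ x = y i / y j} := by
      ext x
      constructor
      · rintro ⟨_, ⟨i, j, hj, rfl⟩, rfl⟩
        have hj' : y j ≠ 0 := by
          rintro h
          apply hj
          apply Subtype.ext
          change y j / y i1 = 0
          rw [h, zero_div]
        refine ⟨i, j, hj', ?_⟩
        change (y i / y i1) / (y j / y i1) = _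
        rw [div_div_div_cancel_right₀ hi1]
      · rintro ⟨i, j, hj, rfl⟩
        refine ⟨y' i / y' j, ⟨i, j, ?_, rfl⟩, ?_⟩
        · intro h
          have h1 := congrArg Subtype.val h
          change y j / y i1 = 0 at h1
          rw [div_eq_zero_iff] at h1
          exact h1.elim hj hi1
        · change (y i / y i1) / (y j / y i1) = _
          rw [div_div_div_cancel_right₀ hi1]
    have h1 : (coords k y').map (coords k y).val = coords k y := by
      rw [e1, e2]
      rfl
    apply le_antisymm le_top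
    intro x _
    have h2 : (x : E) ∈ (coords k y').map (coords k y).val := by
      rw [h1]
      exact x.2
    obtain ⟨x', hx', hxx⟩ := h2
    have h3 : x' = x := Subtype.ext hxx
    rw [← h3]
    exact hx'

theorem subvarietiesMapped {k L : Type} [Field k] [Field L] [Algebra k L]
    {L0 : IntermediateField k L} {M M0 : ℕ} {ξ : Fin (M + 1) → L} {x : Fin (M0 + 1) → L0}
    (hξ : coords k ξ = ⊤) (hx : x ≠ 0) (h : StronglyGeneral k x) :
    SubvarietiesMapped k ξ x := by
  classical
  obtain ⟨R0, ⟨e, hR0⟩, hR1, hR2⟩ := h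
  obtain ⟨i1, hi1⟩ : ∃ i, x i ≠ 0 := by
    by_contra hcon
    push Not at hcon
    exact hx (funext hcon)
  obtain ⟨d, A, h, hh, hA, hAx⟩ := Pool.Agent.N459.JS.common (k := k) ξ hξ (fun i => (x i : L))
  -- composition of forms
  have hcomp : ∀ {F : Type} [Field F] [Algebra k F] (G : MvPolynomial (Fin (M0 + 1)) k)
      (p : Fin (M + 1) → F),
      val p (MvPolynomial.aeval A G) = val (fun i => val p (A i)) G := by
    intro F _ _ G p
    unfold Pool.Agent.W602.GT.val
    induction G using MvPolynomial.induction_on with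
    | C a => simp
    | add p q hp hq => simp only [map_add, hp, hq]
    | mul_X p i hp => simp only [map_mul, hp, MvPolynomial.aeval_X]
  have hvalG : ∀ (e' : ℕ) (G : MvPolynomial (Fin (M0 + 1)) k), G.IsHomogeneous e' →
      val ξ (MvPolynomial.aeval A G) = h ^ e' * ((val x G : L0) : L) := by
    intro e' G hG
    have h0 : val (fun i => (x i : L)) G = ((val x G : L0) : L) := by
      unfold Pool.Agent.W602.GT.val
      exact MvPolynomial.aeval_algebraMap_apply (R := k) (A := L0) L x G
    rw [hcomp, ← h0]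
    have h1 : (fun i => val ξ (A i)) = fun i => h * (x i : L) := funext hAx
    rw [h1]
    exact Pool.Agent.N459.JS.aeval_scale hG h _
  refine ⟨A i1 * MvPolynomial.aeval A R0, A, ⟨_, (hA i1).mul (hR0.aeval A hA)⟩, ?_,
    ⟨d, h, hA, hh, hAx⟩, ?_⟩
  · have h1 : val ξ (A i1 * MvPolynomial.aeval A R0) =
        val ξ (A i1) * val ξ (MvPolynomial.aeval A R0) := by
      unfold Pool.Agent.W602.GT.val
      rw [map_mul]
    rw [h1, hvalG e R0 hR0, hAx i1]
    refine mul_ne_zero (mul_ne_zero hh fun h0 => hi1 (Subtype.ext h0))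
      (mul_ne_zero (pow_ne_zero _ hh) fun h0 => hR1 (Subtype.ext h0))
  intro E _ _ ζ hζ hζR w hw htr
  have h1 : val ζ (A i1 * MvPolynomial.aeval A R0) =
      val ζ (A i1) * val ζ (MvPolynomial.aeval A R0) := by
    unfold Pool.Agent.W602.GT.val
    rw [map_mul]
  rw [h1] at hζR
  set z : Fin (M0 + 1) → E := fun i => val ζ (A i) with hz
  have hz1 : z i1 ≠ 0 := left_ne_zero_of_mul hζR
  have hzR : val z R0 ≠ 0 := by
    have h2 := right_ne_zero_of_mul hζR
    rwa [hcomp] at h2
  obtain ⟨z', hz', hz'0, hz'g⟩ := coords_self (k := k) z hz1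
  have hval : ∀ (e' : ℕ) (G : MvPolynomial (Fin (M0 + 1)) k), G.IsHomogeneous e' →
      ((val z' G : coords k z) : E) = (z i1)⁻¹ ^ e' * val z G := by
    intro e' G hG
    have h0 : val (fun i => (z' i : E)) G = ((val z' G : coords k z) : E) := by
      unfold Pool.Agent.W602.GT.val
      exact MvPolynomial.aeval_algebraMap_apply (R := k) (A := coords k z) E z' G
    rw [← h0]
    have h2 : (fun i => (z' i : E)) = fun i => (z i1)⁻¹ * z i := by
      funext i
      rw [hz' i, div_eq_mul_inv, mul_comm]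
    rw [h2]
    exact Pool.Agent.N459.JS.aeval_scale hG _ _
  refine hR2 (coords k z) w z' ⟨hz'0, hz'g, fun G hG hGx => ?_⟩ ?_ hw htr
  · obtain ⟨e', hG⟩ := hG
    have h2 : val ζ (MvPolynomial.aeval A G) = 0 := by
      refine hζ.spec _ ⟨_, hG.aeval A hA⟩ ?_
      rw [hvalG e' G hG, hGx]
      simp
    rw [hcomp] at h2
    apply Subtype.ext
    rw [hval e' G hG, h2, mul_zero]
    rfl
  · intro h2
    have h3 := hval e R0 hR0
    rw [h2] at h3
    exact mul_ne_zero (pow_ne_zero _ (inv_ne_zero hz1)) hzR h3.symm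

end Pool.Agent.N115.JS
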