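import Pool.Agent.W602.GT.SpecDefs
import Pool.Agent.W602.GT.BroDefs
import Pool.Agent.W619.TW.MDefs
import Pool.Agent.TH710.SP.Defs

/-!
Unirational varieties are special and Brody-special: the statements of the parts.
-/

set_option autoImplicit false

open FF Pool.Agent.W602.GT

namespace Pool.Agent.N115.JS

/-- **JS/7.** Unirational varieties are special. -/
def UnirSpecial : Prop :=
  ∀ (L : Type) [Field L] [Algebra ℂ L] (w : ℕ), Algebra.trdeg ℂ L = w →
    Pool.Agent.W619.TW.IsUnirational ℂ L w → Special ℂ L w (fun _ => False)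

/-- **JS/8.** Unirational projective varieties contain Zariski-dense entire curves. -/
def UnirBrody : Prop :=
  ∀ (L : Type) [Field L] [Algebra ℂ L] (w M : ℕ) (x : Fin (M + 1) → L), x ≠ 0 →
    coords ℂ x = ⊤ → Pool.Agent.W619.TW.IsUnirational ℂ L w →
    BrodySpecial (∅ : Set (Fin (M + 1))) x

/-- **JS/9.** Subfields of the function fields of linear spaces are unirational. -/
def LinUnir : Prop :=
  ∀ (K L : Type) [Field K] [Field L] [Algebra ℂ K] [Algebra ℂ L] [Algebra L K]
    [IsScalarTower ℂ L K] (w N : ℕ) (y : Fin (N + 1) → K), y ≠ 0 → coords ℂ y = ⊤ →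
    Algebra.trdeg ℂ K = w → Pool.Agent.TH710.SP.IsLinear ℂ y →
    Pool.Agent.W619.TW.IsUnirational ℂ L w

end Pool.Agent.N115.JS
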