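import Pool.Agent.N115.JS.Rel
import Pool.Agent.N115.JS.Stm2
import Pool.Agent.N170.JS.UnirSpecial
import Pool.Agent.N234.JS.UniB
import Pool.Agent.N768.JS.LinUnir

/-!
Special varieties and multi-valued maps to the varieties of powers of values of polynomials.
-/

set_option autoImplicit false
set_option linter.unusedSectionVars false

open FF Polynomial

namespace Pool.Agent.N115.JS

open Pool.Agent.W602.GT (GeneralType coords val IsForm essFinite BrodySpecial Special)
open Pool.Agent.Y216.SV (InLinearSpace dim_of_str linear_of_str)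
open Pool.Agent.TH710.SP (IsLinear)
open Pool.Agent.W619.TW (IsUnirational)

/-- the `m`-free part of a polynomial -/
theorem exists_free {E : Type} [Field E] {m : ℕ} (hm : 1 ≤ m) (P : E[X]) (hP : P ≠ 0) :
    ∃ q H : E[X], P = q ^ m * H ∧ ∀ p : E[X], Irreducible p → ¬ p ^ m ∣ H := by
  classical
  obtain ⟨D, hD⟩ : ∃ D, P.natDegree = D := ⟨_, rfl⟩
  induction D using Nat.strong_induction_on generalizing P with
  | _ D ih =>
    by_cases h : ∀ p : E[X], Irreducible p → ¬ p ^ m ∣ P
    · exact ⟨1, P, by rw [one_pow, one_mul], h⟩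
    · push Not at h
      obtain ⟨p, hp, P', hP'⟩ := h
      have hP'0 : P' ≠ 0 := by
        rintro rfl
        rw [mul_zero] at hP'
        exact hP hP'
      have hdeg : P.natDegree = m * p.natDegree + P'.natDegree := by
        rw [hP', natDegree_mul (pow_ne_zero _ hp.ne_zero) hP'0, natDegree_pow]
      have hp1 := hp.natDegree_pos
      have h2 : 1 * 1 ≤ m * p.natDegree := Nat.mul_le_mul hm hp1
      obtain ⟨q, H, hqH, hH⟩ := ih P'.natDegree (by omega) P' hP'0 rfl
      exact ⟨p * q, H, by rw [hP', hqH, mul_pow, mul_assoc], hH⟩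

variable {N n r : ℕ}

/-- the bound -/
theorem bound_le (hr : 1 ≤ r) (hn : 1 ≤ n)
    (hN : 4 * (r * n) + (r * n + r * (r - 1) + 1) ^ 2 < 2 * (N + 1)) :
    (r * (r - 1) + 4) * (r * n) < N + 1 := by
  have h1 : 1 * 1 ≤ r * n := Nat.mul_le_mul hr hn
  generalize hR : r * n = R at *
  generalize hp : r * (r - 1) = p at *
  have h2 : 2 * ((p + 4) * R) ≤ 4 * R + (R + p + 1) ^ 2 := by
    nlinarith [Nat.zero_le (R * p), sq_nonneg (R - 1 : ℤ)]
  omega

/-- **Multi-valued maps from special varieties.** -/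
theorem linear_of_special {a : Fin (N + 1) → ℂ} (ha : Function.Injective a) (hr : 1 ≤ r)
    (hn : 1 ≤ n) (hN : 4 * (r * n) + (r * n + r * (r - 1) + 1) ^ 2 < 2 * (N + 1))
    {L : Type} [Field L] [Algebra ℂ L] {D M : ℕ} {ξ : Fin (M + 1) → L} (hξ : ξ ≠ 0)
    (hgen : coords ℂ ξ = ⊤) (hD : Algebra.trdeg ℂ L = D)
    (h : Special ℂ L D (fun _ => False) ∨ BrodySpecial (∅ : Set (Fin (M + 1))) ξ)
    (f : Corr ℂ L a n r) :
    ∀ i j, f.red j ≠ 0 → IsAlgebraic ℂ (f.red i / f.red j) := by
  have hbd := bound_le hr hn hN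
  have hnN : n ≤ N := by
    have h1 : 1 * (1 * n) ≤ (r * (r - 1) + 4) * (r * n) :=
      Nat.mul_le_mul (by omega) (Nat.mul_le_mul_right _ hr)
    omega
  have hess : Algebra.EssFiniteType ℂ L := essFinite hgen
  have h0 : baseField (fun _ : Unit => f) = ⊥ := by
    rcases h with h | h
    · refine bot_of_special (S := 1) (fun _ : Unit => f) hr hnN ?_ ha hD (Or.inr ⟨inferInstance, ?_⟩) h
      · simpa using hN
      · simp
    · exact bot_of_dense (fun _ : Unit => f) hnN hbd ha hξ hgen h
  exact fun i j hj => alg_of_bot (fun _ : Unit => f) h0 () i j hj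

/-- **Images of bounded degree.** -/
theorem images_tfae {a : Fin (N + 1) → ℂ} (ha : Function.Injective a) (hr : 1 ≤ r)
    (hn : 1 ≤ n) (hN : 4 * (r * n) + (r * n + r * (r - 1) + 1) ^ 2 < 2 * (N + 1)) {m w : ℕ}
    (hm : 2 ≤ m) (hnw : n < (w + 1) * m)
    {K L : Type} [Field K] [Field L] [Algebra ℂ K] [Algebra ℂ L] [Algebra L K]
    [IsScalarTower ℂ L K] [FiniteDimensional L K] (hfr : Module.finrank L K ≤ r)
    {y : Fin (N + 1) → K} (hy : y ≠ 0) (hygen : coords ℂ y = ⊤) (htr : Algebra.trdeg ℂ K = w)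
    (hval : ∃ H : K[X], H.natDegree ≤ n ∧ ∀ i, y i ^ m = H.eval (algebraMap ℂ K (a i)))
    {M : ℕ} {x : Fin (M + 1) → L} (hx : x ≠ 0) (hgen : coords ℂ x = ⊤) :
    [Special ℂ L w (fun _ => False), BrodySpecial (∅ : Set (Fin (M + 1))) x,
      IsUnirational ℂ L w, IsLinear ℂ y].TFAE := by
  have hLdim : Algebra.trdeg ℂ L = w := by
    rw [← htr, ← trdeg_add_eq ℂ L (A := K)]
    have h1 : Algebra.trdeg L K = 0 := by
      rw [trdeg_eq_zero_iff]
      infer_instance
    rw [h1, add_zero]
  have hbd := bound_le hr hn hN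
  have hnN : n ≤ N := by
    have h1 : 1 * (1 * n) ≤ (r * (r - 1) + 4) * (r * n) :=
      Nat.mul_le_mul (by omega) (Nat.mul_le_mul_right _ hr)
    omega
  obtain ⟨P, hP, hval⟩ := hval
  have hP0 : P ≠ 0 := by
    rintro rfl
    apply hy
    funext i
    have h1 := hval i
    rw [eval_zero] at h1
    exact eq_zero_of_pow_eq_zero h1
  obtain ⟨q, H, hqH, hfree⟩ := exists_free (by omega : 1 ≤ m) P hP0
  let f : Corr ℂ L a n r :=
    { m := m
      two_le := hm
      E := K
      degree_le := hfr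
      y := y
      q := q
      H := H
      ne := hy
      deg := by rw [← hqH]; exact hP
      val := by rw [← hqH]; exact hval
      free := hfree }
  have hmain : (Special ℂ L w (fun _ => False) ∨ BrodySpecial (∅ : Set (Fin (M + 1))) x) →
      IsLinear ℂ y := by
    intro h
    obtain ⟨q', c, G0, ζ, hq', hc, hdeg, hζ, hyz⟩ := f.str hnN ha
      (linear_of_special ha hr hn hN hx hgen hLdim h f)
    have htr' : Algebra.trdeg ℂ (coords ℂ y) = w := by
      rw [hygen, ← htr]
      exact (IntermediateField.topEquiv (F := ℂ) (E := K)).trdeg_eq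
    have hqw : q'.natDegree ≤ w := by
      by_contra hcon
      have h1 : (w + 1) * m ≤ q'.natDegree * m := Nat.mul_le_mul_right m (by omega)
      have h2 : q'.natDegree * m + G0.natDegree ≤ n := hdeg
      omega
    exact linear_of_str hq' hc hyz htr' hqw
  tfae_have 1 → 4 := fun h => hmain (Or.inl h)
  tfae_have 2 → 4 := fun h => hmain (Or.inr h)
  tfae_have 4 → 3 := fun h => Pool.Agent.N768.JS.linUnir K L w N y hy hygen htr h
  tfae_have 3 → 1 := fun h => Pool.Agent.N170.JS.unirSpecial L w hLdim h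
  tfae_have 3 → 2 := fun h => Pool.Agent.N234.JS.unirBrody L w M x hx hgen h
  tfae_finish

end Pool.Agent.N115.JS
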