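import Pool.Agent.N115.JS.Conn
import Pool.Agent.N115.JS.Stm
import Pool.Agent.N115.AN.Main

/-!
Specializations of reduced maps; projective models of fields which are algebraic over the values
of reduced maps.
-/

set_option autoImplicit false
set_option linter.unusedSectionVars false

open FF Pool.Agent.W603.LV Pool.Agent.Y190.BV Polynomial

namespace Pool.Agent.N115.JS

open Pool.Agent.W602.GT (GeneralType Ruled coords essFinite)
open Pool.Agent.N115.JT
open Pool.Agent.Y190.AN (MK exD Minf)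
open Pool.Agent.TH466.QG (Sp StronglyGeneral)

/-- specializations of reduced maps are reduced maps -/
theorem isR_spec (hDeg : DegSpec) {k L K' : Type} [Field k] [CharZero k] [Field L] [Field K']
    [Algebra k L] [Algebra k K'] [Algebra L K'] [IsScalarTower k L K'] [FiniteDimensional L K']
    {N n r : ℕ} {a : Fin (N + 1) → k} {s : Shape N} {z : Fin (s.N1 + 1) → K'} {H : K'[X]}
    (h : IsR (K := L) a n r s z H) :
    ∃ (Θ : Set K') (Λ : Set L), Θ.Finite ∧ Λ.Finite ∧ ∀ (E K'' : Type) [Field E] [Field K'']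
      [Algebra k E] [Algebra k K''] [Algebra E K''] [IsScalarTower k E K''] (S : Sp k K' K''),
      (∀ ϑ ∈ Θ, ∃ t, S.T ϑ t) →
      (∀ l ∈ Λ, ∃ e : E, S.T (algebraMap L K' l) (algebraMap E K'' e)) →
      ∀ z' : Fin (s.N1 + 1) → K'', (∀ j, S.T (z j) (z' j)) →
      ∃ H' : K''[X], IsR (K := E) a n r s z' H' := by
  have hm := h.two_le
  obtain ⟨Θ1, hΘ1, hopen⟩ := Pool.Agent.N115.AN.open_free (by omega : 1 ≤ s.m) h.ne h.deg h.val
    h.free
  obtain ⟨Θ2, Λ, hΘ2, hΛ, hdeg⟩ := hDeg k L K' (s.N1 + 1) r z h.degree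
  refine ⟨Θ1 ∪ Θ2, Λ, hΘ1.union hΘ2, hΛ, ?_⟩
  intro E K'' _ _ _ _ _ _ S hS hL z' hz'
  obtain ⟨H', h1, h2, h3, h4⟩ := hopen K'' S (fun ϑ hϑ => hS ϑ (Or.inl hϑ)) z' hz'
  obtain ⟨h5, h6⟩ := hdeg E K'' S (fun ϑ hϑ => hS ϑ (Or.inr hϑ)) hL z' hz'
  have h7 : z' s.j0 = 1 := by
    have h8 := hz' s.j0
    rw [h.one] at h8
    exact S.ext h8 S.one
  exact ⟨H', ⟨h.two_le, h.inj, h.bound, h.le1, h7, h1, h2, h3, h4, h5, h6⟩⟩

/-- algebroid points of reduced maps -/
theorem isR_minf {E : Type} [Field E] [Algebra (MK (exD 1 one_pos)) E] [Algebra ℂ E]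
    [IsScalarTower ℂ (MK (exD 1 one_pos)) E] {N n r : ℕ}
    (hN : (r * (r - 1) + 4) * (r * n) < N + 1) {a : Fin (N + 1) → ℂ}
    (ha : Function.Injective a) {s : Shape N} {z : Fin (s.N1 + 1) → E} {H : E[X]}
    (h : IsR (K := MK (exD 1 one_pos)) a n r s z H) (j : Fin (s.N1 + 1)) :
    IsAlgebraic (Minf 1 one_pos) (z j) := by
  obtain ⟨z', H', hz', hz1, hH', hdeg', hval', hfree'⟩ := h.down ha
  have hfd := h.fin
  have hNN : s.N1 ≤ N := by
    have h1 := Fintype.card_le_of_injective s.c h.inj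
    rw [Fintype.card_fin, Fintype.card_fin] at h1
    omega
  have hb : (r * (r - 1) + 4) * (r * s.n1) < s.N1 + 1 := by
    have h0 : 1 ≤ r := le_trans Module.finrank_pos h.degree
    have h1 : (r * (r - 1) + 4) * (r * (s.n1 + (N - s.N1))) ≤ (r * (r - 1) + 4) * (r * n) :=
      Nat.mul_le_mul_left _ (Nat.mul_le_mul_left _ h.bound)
    have h2 : (r * (r - 1) + 4) * (r * (s.n1 + (N - s.N1))) =
        (r * (r - 1) + 4) * (r * s.n1) + (r * (r - 1) + 4) * (r * (N - s.N1)) := by ring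
    have h3 : 1 * (1 * (N - s.N1)) ≤ (r * (r - 1) + 4) * (r * (N - s.N1)) :=
      Nat.mul_le_mul (by omega) (Nat.mul_le_mul_right _ h0)
    omega
  have key := Pool.Agent.N115.AN.alg_pow' 1 one_pos
    (IntermediateField.adjoin (MK (exD 1 one_pos)) (Set.range z)) r s.n1 s.m s.N1 h.degree
    h.two_le hb (fun j => a (s.c j)) (ha.comp h.inj) H' hH' hdeg' z' hval' hfree' j s.j0
    (by rw [hz1]; exact one_ne_zero)
  rw [hz1, div_one] at key
  have tE : IsScalarTower (Minf 1 one_pos) (MK (exD 1 one_pos)) E :=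
    IsScalarTower.of_algebraMap_eq fun _ => rfl
  have tK : IsScalarTower (Minf 1 one_pos) (MK (exD 1 one_pos))
      (IntermediateField.adjoin (MK (exD 1 one_pos)) (Set.range z)) :=
    IsScalarTower.of_algebraMap_eq fun _ => rfl
  have h1 := (isAlgebraic_algHom_iff
    ((IntermediateField.adjoin (MK (exD 1 one_pos)) (Set.range z)).val.restrictScalars
      (Minf 1 one_pos))
    (IntermediateField.adjoin (MK (exD 1 one_pos)) (Set.range z)).val.toRingHom.injective).2 key
  have h2 : ((IntermediateField.adjoin (MK (exD 1 one_pos)) (Set.range z)).val.restrictScalars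
      (Minf 1 one_pos)) (z' j) = z j := hz' j
  rwa [h2] at h1

section

variable {k L K' : Type} [Field k] [Field L] [Field K'] [Algebra k L] [Algebra k K']
  [Algebra L K'] [IsScalarTower k L K']

/-- an enumeration of the values -/
theorem exists_enum {ι : Type} [Finite ι] {N : ℕ} (sh : ι → Shape N)
    (z : ∀ i, Fin ((sh i).N1 + 1) → K')
    (halg : Algebra.IsAlgebraic (IntermediateField.adjoin k (⋃ i, Set.range (z i))) K') :
    ∃ (q : ℕ) (y : Fin (q + 1) → K') (i0 : Fin (q + 1)), y i0 = 1 ∧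
      (∀ l, y l = 1 ∨ ∃ i j, y l = z i j) ∧ (∀ i j, ∃ l, y l = z i j) ∧
      Algebra.IsAlgebraic (coords k y) K' := by
  classical
  set V : Set K' := {1} ∪ ⋃ i, Set.range (z i) with hV
  have hVf : V.Finite :=
    (Set.finite_singleton _).union (Set.finite_iUnion fun i => Set.finite_range _)
  obtain ⟨q, y, hy⟩ : ∃ (q : ℕ) (y : Fin (q + 1) → K'), Set.range y = V := by
    obtain ⟨q, y, hy⟩ := hVf.fin_param
    cases q with
    | zero =>
      exfalso
      have h1 : (1 : K') ∈ V := Or.inl rfl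
      rw [← hy.2] at h1
      obtain ⟨l, -⟩ := h1
      exact l.elim0
    | succ q => exact ⟨q, y, hy.2⟩
  have h1 : (1 : K') ∈ V := Or.inl rfl
  rw [← hy] at h1
  obtain ⟨i0, hi0⟩ := h1
  refine ⟨q, y, i0, hi0, fun l => ?_, fun i j => ?_, ?_⟩
  · have h2 : y l ∈ V := by
      rw [← hy]
      exact ⟨l, rfl⟩
    rcases h2 with h2 | h2
    · exact Or.inl h2
    · rw [Set.mem_iUnion] at h2
      obtain ⟨i, j, hj⟩ := h2
      exact Or.inr ⟨i, j, hj.symm⟩
  · have h2 : z i j ∈ V := Or.inr (Set.mem_iUnion.2 ⟨i, j, rfl⟩)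
    rw [← hy] at h2
    exact h2
  · have h2 : IntermediateField.adjoin k (⋃ i, Set.range (z i)) ≤ coords k y := by
      rw [IntermediateField.adjoin_le_iff]
      intro u hu
      have h3 : u ∈ V := Or.inr hu
      rw [← hy] at h3
      obtain ⟨l, rfl⟩ := h3
      have h4 : y l / y i0 ∈ coords k y :=
        IntermediateField.subset_adjoin k _ ⟨l, i0, by rw [hi0]; exact one_ne_zero, rfl⟩
      rw [hi0, div_one] at h4
      exact h4
    let _ : Algebra (IntermediateField.adjoin k (⋃ i, Set.range (z i))) (coords k y) :=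
      (IntermediateField.inclusion h2).toRingHom.toAlgebra
    have t1 : IsScalarTower (IntermediateField.adjoin k (⋃ i, Set.range (z i))) (coords k y) K' :=
      IsScalarTower.of_algebraMap_eq fun x => rfl
    exact Algebra.IsAlgebraic.extendScalars
      (R := IntermediateField.adjoin k (⋃ i, Set.range (z i)))
      (IntermediateField.inclusion h2).toRingHom.injective

end

/-- **Subvarieties.** -/
theorem strong_joint (hSt : StrongOfL) (hDeg : DegSpec) {k L K' : Type} [Field k] [CharZero k]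
    [IsAlgClosed k] [Field L] [Field K'] [Algebra k L] [Algebra k K'] [Algebra L K']
    [IsScalarTower k L K'] [FiniteDimensional L K'] {N n r S : ℕ} (hr : 1 ≤ r)
    (hN : 4 * (S * (r * n)) + (S * (r * n) + S * (r * (r - 1)) + 1) ^ 2 < 2 * (N + 1))
    {a : Fin (N + 1) → k} (ha : Function.Injective a) {D : ℕ} (hD : Algebra.trdeg k L = D)
    (hDS : D ≤ S) {ι : Type} [Finite ι] (sh : ι → Shape N) (z : ∀ i, Fin ((sh i).N1 + 1) → K')
    (H : ι → K'[X]) (hR : ∀ i, IsR (K := L) a n r (sh i) (z i) (H i))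
    (halg : Algebra.IsAlgebraic (IntermediateField.adjoin k (⋃ i, Set.range (z i))) K') {M : ℕ}
    {x : Fin (M + 1) → L} (hx : x ≠ 0) (hgen : coords k x = ⊤) : StronglyGeneral k x := by
  classical
  obtain ⟨q, y, i0, hi0, hy1, hy2, halgy⟩ := exists_enum (k := k) sh z halg
  choose Θ Λ hΘ hΛ hsp using fun i => isR_spec hDeg (hR i)
  refine hSt k K' L (Module.finrank L K') q le_rfl y i0 (by rw [hi0]; exact one_ne_zero) halgy
    ⟨⋃ i, Θ i, ⋃ i, Λ i, Set.finite_iUnion hΘ, Set.finite_iUnion hΛ, ?_⟩ M x hx hgen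
  intro K'' _ _ Sp' hΘ' y' hy' w' hw' htr hess halg' E _ _ _ _ _ hfrE hΛ' hdim
  choose l hl using hy2
  have hy1' : y' i0 = 1 := by
    have h1 := hy' i0
    rw [hi0] at h1
    exact Sp'.ext h1 Sp'.one
  let z' : ∀ i, Fin ((sh i).N1 + 1) → K'' := fun i j => y' (l i j)
  have hz' : ∀ i j, Sp'.T (z i j) (z' i j) := by
    intro i j
    rw [← hl i j]
    exact hy' _
  have hval : ∀ m, y' m ∈ IntermediateField.adjoin k (⋃ i, Set.range (z' i)) := by
    intro m
    rcases hy1 m with h | ⟨i, j, h⟩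
    · have h1 := hy' m
      rw [h] at h1
      rw [Sp'.ext h1 Sp'.one]
      exact (IntermediateField.adjoin k (⋃ i, Set.range (z' i))).one_mem
    · have h1 := hy' m
      rw [h] at h1
      rw [Sp'.ext h1 (hz' i j)]
      exact IntermediateField.subset_adjoin k _ (Set.mem_iUnion.2 ⟨i, j, rfl⟩)
  have hle : coords k y' ≤ IntermediateField.adjoin k (⋃ i, Set.range (z' i)) :=
    coords_le y' _ fun i j _ =>
      (IntermediateField.adjoin k (⋃ i, Set.range (z' i))).div_mem (hval i) (hval j)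
  choose H' hR' using fun i => hsp i E K'' Sp' (fun ϑ hϑ => hΘ' ϑ (Set.mem_iUnion.2 ⟨i, hϑ⟩))
    (fun m hm => hΛ' m (Set.mem_iUnion.2 ⟨i, hm⟩)) (z' i) (hz' i)
  have htrE : Algebra.trdeg k E = w' := by
    rw [← htr]
    exact (Pool.Agent.TH466.QG.trdeg_alg (k := k) (E := E) (K := K'')).symm
  refine general_of_isR (K := E) (Q := K'') hr hN ha htrE ((hdim D hD).trans hDS) sh z' H' hR'
    fun u => ?_
  have h1 : IsAlgebraic (coords k y') (algebraMap E K'' u) := halg'.isAlgebraic _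
  let _ : Algebra (coords k y') (IntermediateField.adjoin k (⋃ i, Set.range (z' i))) :=
    (IntermediateField.inclusion hle).toRingHom.toAlgebra
  have t1 : IsScalarTower (coords k y')
      (IntermediateField.adjoin k (⋃ i, Set.range (z' i))) K'' :=
    IsScalarTower.of_algebraMap_eq fun x => rfl
  exact h1.extendScalars (IntermediateField.inclusion hle).toRingHom.injective

/-- **Punctured discs.** -/
theorem picard_joint (hPi : PicardOfL) (hDeg : DegSpec) {L K' : Type} [Field L] [Field K']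
    [Algebra ℂ L] [Algebra ℂ K'] [Algebra L K'] [IsScalarTower ℂ L K'] [FiniteDimensional L K']
    {N n r : ℕ} (hN : (r * (r - 1) + 4) * (r * n) < N + 1)
    {a : Fin (N + 1) → ℂ} (ha : Function.Injective a) {ι : Type} [Finite ι] (sh : ι → Shape N)
    (z : ∀ i, Fin ((sh i).N1 + 1) → K') (H : ι → K'[X])
    (hR : ∀ i, IsR (K := L) a n r (sh i) (z i) (H i))
    (halg : Algebra.IsAlgebraic (IntermediateField.adjoin ℂ (⋃ i, Set.range (z i))) K') {M : ℕ}
    {x : Fin (M + 1) → L} (hx : x ≠ 0) (hgen : coords ℂ x = ⊤) :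
    Pool.Agent.Y221.PD.PseudoPicard x := by
  classical
  obtain ⟨q, y, i0, hi0, hy1, hy2, halgy⟩ := exists_enum (k := ℂ) sh z halg
  choose Θ Λ hΘ hΛ hsp using fun i => isR_spec hDeg (hR i)
  refine hPi K' L (Module.finrank L K') q le_rfl y i0 (by rw [hi0]; exact one_ne_zero) halgy
    ⟨⋃ i, Θ i, ⋃ i, Λ i, Set.finite_iUnion hΘ, Set.finite_iUnion hΛ, ?_⟩ M x hx hgen
  intro E _ _ _ _ _ hfrE Sp' hΘ' hΛ' y' hy' m
  choose l hl using hy2
  have hy1' : y' i0 = 1 := by
    have h1 := hy' i0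
    rw [hi0] at h1
    exact Sp'.ext h1 Sp'.one
  let z' : ∀ i, Fin ((sh i).N1 + 1) → E := fun i j => y' (l i j)
  have hz' : ∀ i j, Sp'.T (z i j) (z' i j) := by
    intro i j
    rw [← hl i j]
    exact hy' _
  rw [hy1', div_one]
  rcases hy1 m with h | ⟨i, j, h⟩
  · have h1 := hy' m
    rw [h] at h1
    rw [Sp'.ext h1 Sp'.one]
    exact isAlgebraic_one
  · have h1 := hy' m
    rw [h] at h1
    rw [Sp'.ext h1 (hz' i j)]
    obtain ⟨H', hR'⟩ := hsp i (MK (exD 1 one_pos)) E Sp'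
      (fun ϑ hϑ => hΘ' ϑ (Set.mem_iUnion.2 ⟨i, hϑ⟩))
      (fun m hm => hΛ' m (Set.mem_iUnion.2 ⟨i, hm⟩)) (z' i) (hz' i)
    exact isR_minf hN ha hR' j

end Pool.Agent.N115.JS
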