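import Pool.Agent.N115.JS.Lin
import Pool.Agent.TH466.QT.Spec

/-!
The fibration which is defined by a family of multi-valued maps: summary.
-/

set_option autoImplicit false
set_option linter.unusedSectionVars false

open FF Polynomial

namespace Pool.Agent.N115.JS

open Pool.Agent.W602.GT (GeneralType coords val IsForm essFinite BrodySpecial PtsU)
open Pool.Agent.TH466.QG (StronglyGeneral)
open Pool.Agent.Y221.PD (PseudoPicard PseudoAbelian PseudoTorus EssentialDisc brody_of_picard
  abelian_of_brody torus_of_brody)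
open Pool.Agent.Y221.BD (PseudoBrody EntireCurve)
open Pool.Agent.Y216.SV (InLinearSpace)
open Metric Topology

section

variable {k L : Type} [Field k] [Field L] [Algebra k L] {N n r : ℕ} {a : Fin (N + 1) → k}

/-- if all functions are algebraic over the values then the base is the whole variety -/
theorem base_top {ι : Type*} (f : ι → Corr k L a n r)
    (h : Algebra.IsAlgebraic (IntermediateField.adjoin k (⋃ i, (f i).values))
      (AlgebraicClosure L)) : baseField f = ⊤ := by
  rw [eq_top_iff]
  intro x _
  exact (mem_baseField f x).2 (h.isAlgebraic _)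

/-- the dimension of the base -/
theorem exists_dim [CharZero k] {ι : Type*} (f : ι → Corr k L a n r) {D : ℕ}
    (hD : Algebra.trdeg k L = D) : ∃ w : ℕ, w ≤ D ∧ Algebra.trdeg k (baseField f) = w := by
  have h1 : Algebra.trdeg k (baseField f) ≤ D := by
    rw [← hD]
    exact trdeg_le_of_injective (baseField f).val (baseField f).val.toRingHom.injective
  obtain ⟨w, hw⟩ : ∃ w : ℕ, Algebra.trdeg k (baseField f) = w :=
    Cardinal.lt_aleph0.1 (lt_of_le_of_lt h1 (Cardinal.natCast_lt_aleph0))
  refine ⟨w, ?_, hw⟩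
  rw [hw] at h1
  exact_mod_cast h1

/-- the dimension of the base is at least the dimension of the reduced image of each of the maps -/
theorem base_trdeg [CharZero k] {ι : Type*} (f : ι → Corr k L a n r) (i : ι) :
    Algebra.trdeg k (coords k (f i).red) ≤ Algebra.trdeg k (baseField f) := by
  rw [(base_main f).2]
  let σ : (f i).E →ₐ[L] AlgebraicClosure L := IsAlgClosed.lift
  let φ : (f i).E →ₐ[k] AlgebraicClosure L := σ.restrictScalars k
  have h1 : coords k (f i).red ≤
      (IntermediateField.adjoin k (⋃ i, (f i).values)).comap φ := by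
    unfold Pool.Agent.W602.GT.coords
    rw [IntermediateField.adjoin_le_iff]
    rintro _ ⟨i', j, hj, rfl⟩
    exact IntermediateField.subset_adjoin k _ (Set.mem_iUnion.2 ⟨i, σ, i', j, hj, rfl⟩)
  let ψ : coords k (f i).red →ₐ[k] IntermediateField.adjoin k (⋃ i, (f i).values) :=
    { toFun := fun z => ⟨φ z, h1 z.2⟩
      map_one' := Subtype.ext (map_one _)
      map_mul' := fun x y => Subtype.ext (map_mul _ _ _)
      map_zero' := Subtype.ext (map_zero _)
      map_add' := fun x y => Subtype.ext (map_add _ _ _)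
      commutes' := fun c => Subtype.ext (φ.commutes c) }
  exact trdeg_le_of_injective ψ ψ.toRingHom.injective

end

/-- the dimension of a projective variety -/
theorem dim_of_gen {k L : Type} [Field k] [Field L] [Algebra k L] {M : ℕ} {ξ : Fin (M + 1) → L}
    (hgen : coords k ξ = ⊤) : ∃ D : ℕ, Algebra.trdeg k L = D := by
  have hess : Algebra.EssFiniteType k L := essFinite hgen
  have h : FinTrdeg k L := inferInstance
  exact Cardinal.lt_aleph0.1 (trdeg_lt_aleph0 k L)

variable {L : Type} [Field L] [Algebra ℂ L] {N n r : ℕ} {a : Fin (N + 1) → ℂ}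

/-- **Zariski-dense entire curves.** -/
theorem bot_of_dense {ι : Type} (f : ι → Corr ℂ L a n r) (hn : n ≤ N)
    (hN : (r * (r - 1) + 4) * (r * n) < N + 1) (ha : Function.Injective a) {M : ℕ}
    {ξ : Fin (M + 1) → L} (hξ : ξ ≠ 0) (hgen : coords ℂ ξ = ⊤)
    (h : BrodySpecial (∅ : Set (Fin (M + 1))) ξ) : baseField f = ⊥ := by
  classical
  have hess : Algebra.EssFiniteType ℂ L := essFinite hgen
  obtain ⟨D, hD⟩ := dim_of_gen hgen
  obtain ⟨M0, x, hx, hxgen⟩ := exists_model (k := ℂ) (baseField f)
  have hP : PseudoPicard x := picard_of_field (base_field f hn hN ha hD hx hxgen)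
  obtain ⟨R, A, d, h0, hR, hR0, hA, hh, hAx, hcurve⟩ := Pool.Agent.N459.JS.fibreCurves L
    (baseField f) M M0 ξ x hξ hgen hx (brody_of_picard hP)
  obtain ⟨g, hg, hgm, hgd⟩ := h
  let g' : Fin (M + 1) → ℂ → ℂ := fun i t => g t i
  have hdense : ∀ G : MvPolynomial (Fin (M + 1)) ℂ, IsForm G →
      (∀ t, MvPolynomial.eval (fun j => g' j t) G = 0) → val ξ G = 0 := by
    intro G hG h1
    refine hgd G hG fun z => ?_
    rw [Pool.Agent.Y190.AN.val_eq]
    exact h1 z
  refine const_of_dense (baseField f) hx hxgen hA hh hAx hdense ?_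
  by_cases hnc : ∃ i j a b, g' i a * g' j b ≠ g' j a * g' i b
  · have hE : EntireCurve ξ g' := by
      refine ⟨fun i => (differentiable_pi.1 hg) i, fun t => ?_, fun G hG h1 t => ?_, hnc⟩
      · exact Function.ne_iff.1 (hgm t).1.1
      · have h2 := (hgm t).1.2 G hG h1
        rw [Pool.Agent.Y190.AN.val_eq] at h2
        exact h2
    refine hcurve g' hE ?_
    by_contra hcon
    push Not at hcon
    exact hR0 (hdense R hR hcon)
  · push Not at hnc
    intro t t' i j
    -- the map is constant
    obtain ⟨i0, hi0⟩ : ∃ i, g' i t' ≠ 0 := Function.ne_iff.1 (hgm t').1.1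
    have h1 : (fun l => g' l t) = fun l => (g' i0 t / g' i0 t') * g' l t' := by
      funext l
      have h2 := hnc l i0 t t'
      field_simp
      rw [h2]
    simp only [h1]
    rw [Pool.Agent.N459.JS.eval_scale (hA i), Pool.Agent.N459.JS.eval_scale (hA j)]
    ring

/-- subfields of transcendence degree `0` -/
theorem bot_of_trdeg {k L : Type} [Field k] [IsAlgClosed k] [Field L] [Algebra k L]
    (L0 : IntermediateField k L) (h : Algebra.trdeg k L0 = 0) : L0 = ⊥ := by
  have h1 : Algebra.IsAlgebraic k L0 := trdeg_eq_zero_iff.1 h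
  exact IntermediateField.eq_bot_of_isAlgClosed_of_isAlgebraic L0

/-- **Special varieties.** -/
theorem bot_of_special {k L : Type} [Field k] [CharZero k] [IsAlgClosed k] [Field L] [Algebra k L]
    [Algebra.EssFiniteType k L] {N n r : ℕ} {a : Fin (N + 1) → k} {ι : Type}
    (f : ι → Corr k L a n r) (hr : 1 ≤ r) (hn : n ≤ N) {S : ℕ}
    (hN : 4 * (S * (r * n)) + (S * (r * n) + S * (r * (r - 1)) + 1) ^ 2 < 2 * (N + 1))
    (ha : Function.Injective a) {D : ℕ} (hD : Algebra.trdeg k L = D)
    (hfin : D ≤ S ∨ Finite ι ∧ Nat.card ι ≤ S)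
    (h : Pool.Agent.W602.GT.Special k L D (fun _ => False)) : baseField f = ⊥ := by
  obtain ⟨w, hwD, hw⟩ := exists_dim f hD
  rcases Nat.eq_zero_or_pos w with h0 | h0
  · apply bot_of_trdeg
    rw [hw, h0, Nat.cast_zero]
  · exfalso
    obtain ⟨M0, x, hx, hxgen⟩ := exists_model (k := k) (baseField f)
    have hess : Algebra.EssFiniteType k (baseField f) := essFinite hxgen
    exact Pool.Agent.TH466.QT.not_special hD (baseField f) h0
      (base_general f hr hn hN ha hw (hfin.imp (fun h1 => hwD.trans h1) id)) h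

end Pool.Agent.N115.JS
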